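import Mathlib

/-!
# Cartwright–Sturmfels ideals: definitions

`X` is the set of variables of the polynomial ring `K[X] = MvPolynomial X K`; a function
`b : X → ι` describes the standard multigrading in which the variable `x` has degree `e_{b x}`.
-/

namespace Pool.Agent.CS

open MvPolynomial

variable {K : Type*} [Field K] {X ι ρ : Type*}

/-- `I` is a multigraded ideal: with `f` it contains all multihomogeneous components of `f`
(the variable `x` has degree `e_{b x}`). -/
def IsMultigraded (b : X → ι) (I : Ideal (MvPolynomial X K)) : Prop :=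
  ∀ f ∈ I, ∀ u : ι →₀ ℕ,
    weightedHomogeneousComponent (fun x : X => Finsupp.single (b x) (1 : ℕ)) u f ∈ I

/-- The linear substitution `x ↦ ∑ y, A y x • y` given by a matrix `A`. -/
noncomputable def linSubst [Fintype X] (A : Matrix X X K) :
    MvPolynomial X K →ₐ[K] MvPolynomial X K :=
  aeval (fun x : X => ∑ y : X, C (A y x) * MvPolynomial.X y)

/-- The product of the general linear groups of the spans of the variables of the same degree:
invertible matrices which respect the blocks of variables. -/
def BlockGL [Fintype X] [DecidableEq X] (b : X → ι) : Set (Matrix X X K) :=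
  {A | A.det ≠ 0 ∧ ∀ x y : X, b x ≠ b y → A x y = 0}

/-- The initial ideal of `I` with respect to the term order `σ`. -/
noncomputable def initialIdeal (σ : MonomialOrder X) (I : Ideal (MvPolynomial X K)) :
    Ideal (MvPolynomial X K) :=
  Ideal.span {g | ∃ f ∈ I, f ≠ 0 ∧ g = monomial (σ.degree f) (1 : K)}

/-- `J` is the multigraded generic initial ideal of `I`: there is a nonempty Zariski open subset
of the group `BlockGL b` on which the initial ideal of `A I` is equal to `J`.  (Basic open sets,
given by the nonvanishing of one polynomial in the entries of `A`, suffice.) -/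
def IsGin [Fintype X] [DecidableEq X] (b : X → ι) (σ : MonomialOrder X)
    (I J : Ideal (MvPolynomial X K)) : Prop :=
  ∃ D : MvPolynomial (X × X) K,
    (∃ A ∈ BlockGL (K := K) b, eval (fun p => A p.1 p.2) D ≠ 0) ∧
    ∀ A ∈ BlockGL (K := K) b, eval (fun p => A p.1 p.2) D ≠ 0 →
      initialIdeal σ (I.map (linSubst A)) = J

/-- Cartwright–Sturmfels ideals (with respect to the term order `σ`): the generic initial ideal
exists and is radical. -/
def IsCS [Fintype X] [DecidableEq X] (b : X → ι) (σ : MonomialOrder X)
    (I : Ideal (MvPolynomial X K)) : Prop :=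
  ∃ J, IsGin b σ I J ∧ J.IsRadical

/-- The degree of a monomial `e` when the variable `x` has degree `e_{c x}`. -/
noncomputable def mdeg (c : X → ρ) (e : X →₀ ℕ) : ρ →₀ ℕ := e.mapDomain c

/-- The vector `d` with `d_k` the maximal exponent of `e_k` in the degrees of the monomials
of `f`. -/
noncomputable def maxDeg [DecidableEq ρ] (c : X → ρ) (f : MvPolynomial X K) : ρ →₀ ℕ :=
  f.support.sup (mdeg c)

/-- The homogenization `f^hom` of a polynomial `f` in `S[y]`, `S = K[X]`, `y = (y_k)_{k ∈ ρ}`. -/
noncomputable def hom [DecidableEq ρ] (c : X → ρ) (f : MvPolynomial X K) :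
    MvPolynomial (X ⊕ ρ) K :=
  ∑ e ∈ f.support, C (coeff e f) *
    (rename Sum.inr (monomial (maxDeg c f - mdeg c e) (1 : K)) *
      rename Sum.inl (monomial e (1 : K)))

/-- The homogenization of an ideal `I` of `K[X]`. -/
noncomputable def homIdeal [DecidableEq ρ] (c : X → ρ) (I : Ideal (MvPolynomial X K)) :
    Ideal (MvPolynomial (X ⊕ ρ) K) :=
  Ideal.span {g | ∃ f ∈ I, f ≠ 0 ∧ g = hom c f}

/-- The ideal generated by the homogeneous elements of `I`, for the grading in which `x` has degree
`e_{c x}`. -/
noncomputable def homogPart (c : X → ρ) (I : Ideal (MvPolynomial X K)) :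
    Ideal (MvPolynomial X K) :=
  Ideal.span {f | f ∈ I ∧ ∃ u : ρ →₀ ℕ,
    IsWeightedHomogeneous (fun x : X => Finsupp.single (c x) (1 : ℕ)) f u}

end Pool.Agent.CS
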