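import Pool.Agent.Lib.MP_293f2a_ag.Defs

namespace Pool.Agent.CS

open MvPolynomial
open scoped MonomialOrder

variable {K : Type*} [Field K] {X ι ρ : Type*}

/-- The set of leading exponents of the nonzero elements of `V`. -/
def LM (σ : MonomialOrder X) (V : Submodule K (MvPolynomial X K)) : Set (X →₀ ℕ) :=
  {e | ∃ f ∈ V, f ≠ 0 ∧ σ.degree f = e}

theorem LM_mono {σ : MonomialOrder X} {V W : Submodule K (MvPolynomial X K)} (h : V ≤ W) :
    LM σ V ⊆ LM σ W := by
  rintro e ⟨f, hf, hf0, rfl⟩
  exact ⟨f, h hf, hf0, rfl⟩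

theorem LM_subset {σ : MonomialOrder X} {V : Submodule K (MvPolynomial X K)}
    {A : Set (X →₀ ℕ)} (hV : V ≤ restrictSupport K A) : LM σ V ⊆ A := by
  rintro e ⟨f, hf, hf0, rfl⟩
  exact ((mem_restrictSupport_iff K).1 (hV hf)) (σ.degree_mem_support hf0)

theorem finiteDimensional_restrictSupport {A : Set (X →₀ ℕ)} (hA : A.Finite) :
    FiniteDimensional K (restrictSupport K A) := by
  have := hA.to_subtype
  exact Module.Finite.of_basis (basisRestrictSupport K A)

/-- Monic representatives of leading exponents. -/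
theorem exists_monic_of_mem_LM {σ : MonomialOrder X} {V : Submodule K (MvPolynomial X K)}
    {e : X →₀ ℕ} (he : e ∈ LM σ V) :
    ∃ f ∈ V, σ.degree f = e ∧ coeff e f = 1 ∧ ∀ d ∈ f.support, d ≼[σ] e := by
  obtain ⟨f, hf, hf0, rfl⟩ := he
  have hc : coeff (σ.degree f) f ≠ 0 := σ.coeff_degree_ne_zero_iff.2 hf0
  have hd : σ.degree ((coeff (σ.degree f) f)⁻¹ • f) = σ.degree f :=
    σ.degree_smul_of_isRegular (IsRegular.of_ne_zero (inv_ne_zero hc))
  refine ⟨(coeff (σ.degree f) f)⁻¹ • f, V.smul_mem _ hf, hd, ?_, ?_⟩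
  · rw [coeff_smul, smul_eq_mul, inv_mul_cancel₀ hc]
  · intro d hdm
    have := σ.le_degree hdm
    rwa [hd] at this

/-- A family of polynomials with pairwise different leading exponents is linearly
independent. -/
theorem linearIndependent_of_leading {σ : MonomialOrder X} {A : Set (X →₀ ℕ)}
    (f : A → MvPolynomial X K) (h1 : ∀ e : A, coeff e.1 (f e) ≠ 0)
    (h2 : ∀ e : A, ∀ d ∈ (f e).support, d ≼[σ] e.1) :
    LinearIndependent K f := by
  classical
  rw [linearIndependent_iff']
  intro s g hg
  by_contra hcon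
  push Not at hcon
  obtain ⟨i0, hi0, hgi0⟩ := hcon
  obtain ⟨i, hi, hmax⟩ := Finset.exists_max_image (s.filter (fun i => g i ≠ 0))
    (fun i => σ.toSyn i.1) ⟨i0, by simp [hi0, hgi0]⟩
  rw [Finset.mem_filter] at hi
  have hc : coeff i.1 (∑ j ∈ s, g j • f j) = 0 := by rw [hg]; simp
  rw [coeff_sum, Finset.sum_eq_single i] at hc
  · rw [coeff_smul, smul_eq_mul] at hc
    rcases mul_eq_zero.1 hc with h | h
    · exact hi.2 h
    · exact h1 i h
  · intro j hj hji
    rw [coeff_smul, smul_eq_mul]
    by_cases hgj : g j = 0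
    · rw [hgj, zero_mul]
    · have hle := hmax j (by simp [hj, hgj])
      have : coeff i.1 (f j) = 0 := by
        by_contra hne
        have := h2 j i.1 (mem_support_iff.2 hne)
        have heq := le_antisymm hle this
        exact hji (Subtype.ext (σ.toSyn.injective heq))
      rw [this, mul_zero]
  · intro h; exact absurd hi.1 h

theorem ncard_LM {σ : MonomialOrder X} {V : Submodule K (MvPolynomial X K)}
    {A : Set (X →₀ ℕ)} (hA : A.Finite) (hV : V ≤ restrictSupport K A) :
    (LM σ V).ncard = Module.finrank K V := by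
  classical
  have hfin : (LM σ V).Finite := hA.subset (LM_subset hV)
  have := finiteDimensional_restrictSupport (K := K) hA
  have hVfd : FiniteDimensional K V := Submodule.finiteDimensional_of_le hV
  have := hfin.fintype
  rw [Set.ncard_eq_toFinset_card' ]
  rw [Set.toFinset_card]
  apply le_antisymm
  · choose f hf hdeg hc hle using fun e : LM σ V => exists_monic_of_mem_LM e.2
    have hli : LinearIndependent K f :=
      linearIndependent_of_leading (σ := σ) f (fun e => by rw [hc]; exact one_ne_zero) hle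
    have hli' : LinearIndependent K (fun e => (⟨f e, hf e⟩ : V)) :=
      LinearIndependent.of_comp V.subtype hli
    exact hli'.fintype_card_le_finrank
  · let T : V →ₗ[K] (LM σ V → K) :=
      LinearMap.pi (fun e => (lcoeff K e.1).comp V.subtype)
    have hT : Function.Injective T := by
      rw [injective_iff_map_eq_zero]
      intro f hf
      by_contra hne
      have hne' : (f : MvPolynomial X K) ≠ 0 := fun h => hne (Subtype.ext h)
      have hmem : σ.degree (f : MvPolynomial X K) ∈ LM σ V := ⟨f, f.2, hne', rfl⟩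
      have := congrFun hf ⟨_, hmem⟩
      simp only [T, LinearMap.pi_apply, LinearMap.comp_apply, Submodule.subtype_apply,
        lcoeff_apply, Pi.zero_apply] at this
      exact (σ.coeff_degree_ne_zero_iff.2 hne') this
    have := LinearMap.finrank_le_finrank_of_injective hT
    rwa [Module.finrank_fintype_fun_eq_card] at this

/-- Leading exponents of the part of `V` below `b`. -/
theorem LM_inf_lt (σ : MonomialOrder X) (V : Submodule K (MvPolynomial X K)) (b : X →₀ ℕ) :
    LM σ (V ⊓ restrictSupport K {d | d ≺[σ] b}) = LM σ V ∩ {d | d ≺[σ] b} := by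
  ext e
  constructor
  · rintro ⟨f, hf, hf0, rfl⟩
    exact ⟨⟨f, hf.1, hf0, rfl⟩,
      ((mem_restrictSupport_iff K).1 hf.2) (σ.degree_mem_support hf0)⟩
  · rintro ⟨⟨f, hf, hf0, rfl⟩, hlt⟩
    refine ⟨f, ⟨hf, ?_⟩, hf0, rfl⟩
    refine (mem_restrictSupport_iff K).2 ?_
    intro d hd
    exact lt_of_le_of_lt (σ.le_degree hd) hlt

/-- number of leading exponents which are `≥ b` -/
noncomputable def cnt (σ : MonomialOrder X) (V : Submodule K (MvPolynomial X K))
    (b : X →₀ ℕ) : ℕ := (LM σ V ∩ {d | b ≼[σ] d}).ncard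

theorem cnt_add {σ : MonomialOrder X} {V : Submodule K (MvPolynomial X K)}
    {A : Set (X →₀ ℕ)} (hA : A.Finite) (hV : V ≤ restrictSupport K A) (b : X →₀ ℕ) :
    cnt σ V b + (LM σ V ∩ {d | d ≺[σ] b}).ncard = Module.finrank K V := by
  have hfin : (LM σ V).Finite := hA.subset (LM_subset hV)
  rw [← ncard_LM (σ := σ) hA hV, cnt,
    ← Set.ncard_union_eq _ (hfin.subset Set.inter_subset_left)
      (hfin.subset Set.inter_subset_left)]
  · congr 1
    ext d
    simp only [Set.mem_union, Set.mem_inter_iff, Set.mem_ofPred_eq]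
    constructor
    · rintro (h | h) <;> exact h.1
    · intro h
      rcases le_or_gt (σ.toSyn b) (σ.toSyn d) with h' | h'
      · exact Or.inl ⟨h, h'⟩
      · exact Or.inr ⟨h, h'⟩
  · rw [Set.disjoint_left]
    rintro d ⟨_, h⟩ ⟨_, h'⟩
    exact absurd h (not_le.2 h')

end Pool.Agent.CS
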