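import Pool.Agent.Lib.MP_293f2a_ag.Part9

namespace Pool.Agent.CS

open MvPolynomial
open scoped MonomialOrder

universe uX uO uI uK

variable {K : Type uK} [Field K] {X : Type uX} {ι : Type uI}

/-! ### Orders of the variables -/

open Classical in
/-- the number of smaller variables in the same block -/
noncomputable def kap [Fintype X] (b : X → ι) (σ : MonomialOrder X) (x : X) : ℕ :=
  (Finset.univ.filter (fun y => b y = b x ∧
    Finsupp.single y 1 ≺[σ] Finsupp.single x 1)).card

theorem kap_lt [Fintype X] {b : X → ι} {σ : MonomialOrder X} {x x' : X} (hb : b x = b x')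
    (h : Finsupp.single x 1 ≺[σ] Finsupp.single x' 1) : kap b σ x < kap b σ x' := by
  classical
  unfold kap
  apply Finset.card_lt_card
  rw [Finset.ssubset_iff_subset_ne]
  constructor
  · intro y hy
    rw [Finset.mem_filter] at hy ⊢
    exact ⟨hy.1, hy.2.1.trans hb, hy.2.2.trans h⟩
  · intro heq
    have : x ∈ Finset.univ.filter (fun y => b y = b x' ∧
        Finsupp.single y 1 ≺[σ] Finsupp.single x' 1) :=
      Finset.mem_filter.2 ⟨Finset.mem_univ _, hb, h⟩
    rw [← heq, Finset.mem_filter] at this
    exact lt_irrefl _ this.2.2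

theorem single_injective (x x' : X) (h : Finsupp.single x 1 = Finsupp.single x' 1) :
    x = x' :=
  Finsupp.single_left_injective (one_ne_zero (α := ℕ)) h

theorem lt_of_kap_lt [Fintype X] {b : X → ι} {σ : MonomialOrder X} {x x' : X}
    (hb : b x = b x') (h : kap b σ x < kap b σ x') :
    Finsupp.single x 1 ≺[σ] Finsupp.single x' 1 := by
  rcases lt_trichotomy (σ.toSyn (Finsupp.single x 1)) (σ.toSyn (Finsupp.single x' 1)) with
    h' | h' | h'
  · exact h'
  · have := single_injective x x' (σ.toSyn.injective h')
    subst this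
    exact absurd h (lt_irrefl _)
  · exact absurd (kap_lt hb.symm h') (not_lt.2 h.le)

theorem injBlocks_kap [Fintype X] (b : X → ι) (σ : MonomialOrder X) :
    InjBlocks b (kap b σ) := by
  intro x x' hb h
  rcases lt_trichotomy (σ.toSyn (Finsupp.single x 1)) (σ.toSyn (Finsupp.single x' 1)) with
    h' | h' | h'
  · exact absurd (kap_lt hb h') (by omega)
  · exact single_injective x x' (σ.toSyn.injective h')
  · exact absurd (kap_lt hb.symm h') (by omega)

/-- There is a monomial order for which the variables are ordered according to `κ`. -/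
theorem exists_order [Finite X] (κ : X → ℕ) :
    ∃ σ : MonomialOrder.{uX, uX} X, ∀ x x' : X, κ x < κ x' →
      Finsupp.single x 1 ≺[σ] Finsupp.single x' 1 := by
  obtain ⟨n, ⟨e⟩⟩ := Finite.exists_equiv_fin X
  let key : X → Lex (ℕᵒᵈ × Fin n) := fun x => toLex (OrderDual.toDual (κ x), e x)
  have hkey : Function.Injective key := by
    intro x y h
    have h1 := congrArg (fun p => (ofLex p).2) h
    exact e.injective h1
  let _ : LinearOrder X := LinearOrder.lift' key hkey
  have hlt : ∀ x x' : X, κ x < κ x' → x' < x := by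
    intro x x' h
    show key x' < key x
    rw [Prod.Lex.lt_iff]
    left
    exact h
  refine ⟨MonomialOrder.lex, ?_⟩
  intro x x' h
  rw [MonomialOrder.lex_lt_iff]
  exact Finsupp.Lex.single_lt_iff.2 (hlt x x' h)

/-! ### Radicality -/

theorem isRadical_of_radSet {σ : MonomialOrder X} {I : Ideal (MvPolynomial X K)}
    (h : RadSet (LMI σ I)) : I.IsRadical := by
  classical
  by_cases hI : (1 : MvPolynomial X K) ∈ I
  · rw [(Ideal.eq_top_iff_one I).2 hI]
    intro f _
    exact Submodule.mem_top
  have key : ∀ s : σ.syn, ∀ f ∈ I.radical, σ.toSyn (σ.degree f) = s → f ∈ I := by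
    intro s
    induction s using WellFoundedLT.induction with
    | _ s ih =>
      intro f hf hs
      by_cases hf0 : f = 0
      · rw [hf0]; exact I.zero_mem
      obtain ⟨k, hk⟩ := hf
      have hk0 : k ≠ 0 := by
        rintro rfl
        rw [pow_zero] at hk
        exact hI hk
      have hmem : k • σ.degree f ∈ LMI σ I := by
        refine ⟨f ^ k, hk, pow_ne_zero _ hf0, ?_⟩
        exact σ.degree_pow f k
      have hmem' := h _ k hk0 hmem
      obtain ⟨g, hg, hdeg, hc, hle⟩ := exists_monic_of_mem_LM hmem'
      have hgI : g ∈ I := hg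
      set f1 := f - coeff (σ.degree f) f • g with hf1
      have hcg : coeff (σ.degree f) f • g ∈ I := by
        rw [← C_mul']
        exact I.mul_mem_left _ hgI
      have hf1r : f1 ∈ I.radical := by
        apply Ideal.sub_mem
        · exact ⟨k, hk⟩
        · exact Ideal.le_radical hcg
      have hf1I : f1 ∈ I := by
        by_cases h0 : f1 = 0
        · rw [h0]; exact I.zero_mem
        apply ih (σ.toSyn (σ.degree f1)) _ f1 hf1r rfl
        rw [← hs]
        have hle1 : σ.degree f1 ≼[σ] σ.degree f := by
          rw [σ.degree_le_iff]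
          intro e he
          by_contra hlt
          push Not at hlt
          rw [mem_support_iff, hf1, coeff_sub, coeff_smul] at he
          have h1 : coeff e f = 0 := σ.coeff_eq_zero_of_lt hlt
          have h2 : coeff e g = 0 := by
            by_contra hne
            exact absurd (hle e (mem_support_iff.2 hne)) (not_le.2 hlt)
          rw [h1, h2, smul_zero, sub_zero] at he
          exact he rfl
        refine lt_of_le_of_ne hle1 ?_
        intro heq
        have heq' := σ.toSyn.injective heq
        have h3 := σ.coeff_degree_ne_zero_iff.2 h0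
        rw [heq', hf1, coeff_sub, coeff_smul, hc, smul_eq_mul, mul_one, sub_self] at h3
        exact h3 rfl
      have : f = f1 + coeff (σ.degree f) f • g := by rw [hf1]; ring
      rw [this]
      exact I.add_mem hf1I hcg
  intro f hf
  exact key _ f hf rfl

theorem radSet_of_isRadical {σ : MonomialOrder X} {I : Ideal (MvPolynomial X K)}
    (h : (initialIdeal σ I).IsRadical) : RadSet (LMI σ I) := by
  intro e k hk hmem
  rw [← monomial_mem_initialIdeal (K := K)] at hmem ⊢
  apply h
  refine ⟨k, ?_⟩
  rw [monomial_pow, one_pow]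
  exact hmem

theorem isMultigraded_initialIdeal (b : X → ι) (σ : MonomialOrder X)
    (I : Ideal (MvPolynomial X K)) : IsMultigraded b (initialIdeal σ I) := by
  classical
  intro f hf u
  rw [mem_initialIdeal] at hf ⊢
  intro e he
  apply hf
  have he' : e ∈ (comp b u f).support := he
  rw [mem_support_iff, coeff_comp] at he'
  rw [mem_support_iff]
  intro h0
  rw [h0, ite_self] at he'
  exact he' rfl

theorem LMI_initialIdeal (σ : MonomialOrder X) (τ : MonomialOrder X) (I : Ideal (MvPolynomial X K)) :
    LMI τ (initialIdeal σ I) = LMI σ I := by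
  classical
  ext e
  constructor
  · rintro ⟨f, hf, hf0, rfl⟩
    exact (mem_initialIdeal.1 hf) _ (τ.degree_mem_support hf0)
  · intro he
    refine ⟨monomial e 1, monomial_mem_initialIdeal.2 he, ?_, ?_⟩
    · rw [Ne, monomial_eq_zero]; exact one_ne_zero
    · rw [τ.degree_monomial, if_neg one_ne_zero]

theorem isUpperSet_LMI (σ : MonomialOrder X) (I : Ideal (MvPolynomial X K)) :
    IsUpperSet (LMI σ I) := fun _ _ h he => LMI_upper he h

/-! ### Hilbert functions of Cartwright–Sturmfels ideals -/

section main

variable [Fintype X] [DecidableEq X]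

/-- The Hilbert function of `I` is that of the radical Borel fixed set `B`. -/
structure CSData (b : X → ι) (I : Ideal (MvPolynomial X K)) (κ : X → ℕ)
    (B : Set (X →₀ ℕ)) : Prop where
  inj : InjBlocks b κ
  upper : IsUpperSet B
  rad : RadSet B
  borel : BorelSet b κ B
  hf : ∀ u, Module.finrank K (part b u I) = (B ∩ Mset b u).ncard

/-- all initial ideals in all coordinates are radical -/
def StrongCS (b : X → ι) (I : Ideal (MvPolynomial X K)) : Prop :=
  ∀ A ∈ BlockGL (K := K) b, ∀ σ : MonomialOrder.{uX, uO} X,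
    (initialIdeal σ (I.map (linSubst A))).IsRadical

theorem radical_of_CSData [Infinite K] {b : X → ι} {I : Ideal (MvPolynomial X K)}
    (hI : IsMultigraded b I) {κ : X → ℕ} {B : Set (X →₀ ℕ)} (h : CSData b I κ B)
    {A : Matrix X X K} (hA : A ∈ BlockGL (K := K) b) (σ : MonomialOrder X) :
    (initialIdeal σ (I.map (linSubst A))).IsRadical := by
  obtain ⟨σ0, hσ0⟩ := exists_order κ
  have hJ := isMultigraded_initialIdeal b σ (I.map (linSubst A))
  have hLM := LMI_initialIdeal σ σ0 (I.map (linSubst A))
  set J := initialIdeal σ (I.map (linSubst A)) with hJdef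
  obtain ⟨D, N, hD0, hDN, hNB⟩ := exists_gin σ0 b hJ
  obtain ⟨a, hdet, ha⟩ := exists_good b D hD0
  have hmem := matOf_mem_BlockGL hdet
  have hN := hDN a hdet ha
  have hNeq : N = B := by
    apply borel_unique h.inj (J := N) ?_ ?_ h.upper h.borel h.rad
    · intro u
      rw [← h.hf, ← hN, ncard_LMI (isMultigraded_map hmem hJ), part_map hmem hJ,
        finrank_act hdet, ← ncard_LMI (σ := σ0) hJ, hLM, ncard_LMI (isMultigraded_map hA hI),
        part_map hA hI, finrank_act hA.1]
    · rw [← hN]; exact isUpperSet_LMI _ _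
    · intro e he x x' hb hlt
      exact hNB e he x x' hb (hσ0 x x' hlt)
  have hrad : (J.map (linSubst (matOf b a))).IsRadical := by
    apply isRadical_of_radSet (σ := σ0)
    rw [hN, hNeq]
    exact h.rad
  intro f hf
  have h1 : linSubst (matOf b a) f ∈ (J.map (linSubst (matOf b a))).radical := by
    obtain ⟨k, hk⟩ := hf
    refine ⟨k, ?_⟩
    rw [← map_pow]
    exact Ideal.mem_map_of_mem _ hk
  have h2 := hrad h1
  obtain ⟨g, hg, hgf⟩ := (mem_map_linSubst hdet).1 h2
  rwa [← linSubst_injective hdet hgf]

theorem strongCS_of_CSData [Infinite K] {b : X → ι} {I : Ideal (MvPolynomial X K)}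
    (hI : IsMultigraded b I) {κ : X → ℕ} {B : Set (X →₀ ℕ)} (h : CSData b I κ B) :
    StrongCS.{uX, uO} b I := fun _ hA σ => radical_of_CSData hI h hA σ

/-- A Cartwright–Sturmfels ideal has the Hilbert function of a radical Borel fixed set. -/
theorem CSData_of_isCS [Infinite K] {b : X → ι} {σ : MonomialOrder X}
    {I : Ideal (MvPolynomial X K)} (hI : IsMultigraded b I) (h : IsCS b σ I) :
    ∃ B, CSData b I (kap b σ) B := by
  classical
  obtain ⟨J, ⟨D0, ⟨A0, hA0, hA0'⟩, hD0⟩, hJ⟩ := h
  obtain ⟨D, N, hDne, hDN, hNB⟩ := exists_gin σ b hI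
  let φ : X × X → MvPolynomial (PIdx b) K := fun p =>
    if h : b p.1 = b p.2 then MvPolynomial.X ⟨p, h⟩ else 0
  have hφ : ∀ a : PIdx b → K, eval a (aeval φ D0) = eval (fun p => matOf b a p.1 p.2) D0 := by
    intro a
    have h1 : (eval a).comp (aeval φ : MvPolynomial (X × X) K →ₐ[K] _).toRingHom =
        eval (fun p => matOf b a p.1 p.2) := by
      apply MvPolynomial.ringHom_ext
      · intro c
        simp
      · intro p
        simp only [φ, AlgHom.toRingHom_eq_coe, RingHom.coe_comp, RingHom.coe_coe,
          Function.comp_apply, aeval_X, eval_X]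
        by_cases hp : b p.1 = b p.2
        · simp [matOf, hp]
        · simp [matOf, hp]
    rw [← h1]
    rfl
  have hne : aeval φ D0 ≠ 0 := by
    intro h0
    have h1 := hφ (fun p => A0 p.1.1 p.1.2)
    rw [h0, map_zero, matOf_entries hA0.2] at h1
    exact hA0' h1.symm
  obtain ⟨a, hdet, ha⟩ := exists_good b (D * aeval φ D0) (mul_ne_zero hDne hne)
  rw [map_mul] at ha
  have hN := hDN a hdet (left_ne_zero_of_mul ha)
  have hmem := matOf_mem_BlockGL hdet
  have hJ' : initialIdeal σ (I.map (linSubst (matOf b a))) = J := by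
    apply hD0 _ hmem
    rw [← hφ]
    exact right_ne_zero_of_mul ha
  refine ⟨N, injBlocks_kap b σ, ?_, ?_, ?_, ?_⟩
  · rw [← hN]; exact isUpperSet_LMI _ _
  · rw [← hN]
    apply radSet_of_isRadical
    rw [hJ']
    exact hJ
  · intro e he x x' hb hlt
    exact hNB e he x x' hb (lt_of_kap_lt hb hlt)
  · intro u
    rw [← hN, ncard_LMI (isMultigraded_map hmem hI), part_map hmem hI, finrank_act hdet]

/-- If all initial ideals are radical then `I` is a Cartwright–Sturmfels ideal. -/
theorem isCS_of_strongCS [Infinite K] {b : X → ι} {I : Ideal (MvPolynomial X K)}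
    (hI : IsMultigraded b I) (h : StrongCS.{uX, uO} b I) (σ : MonomialOrder.{uX, uO} X) :
    IsCS b σ I := by
  classical
  obtain ⟨D, N, hD0, hDN, -⟩ := exists_gin σ b hI
  obtain ⟨a, hdet, ha⟩ := exists_good b D hD0
  have hmem := matOf_mem_BlockGL hdet
  refine ⟨initialIdeal σ (I.map (linSubst (matOf b a))), ⟨rename Subtype.val D, ?_, ?_⟩,
    h _ hmem σ⟩
  · refine ⟨matOf b a, hmem, ?_⟩
    rw [eval_rename]
    have : (fun p : X × X => matOf b a p.1 p.2) ∘ Subtype.val = a := by
      funext p
      simp [matOf, p.2]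
    rw [this]
    exact ha
  · intro A hA hA'
    rw [eval_rename] at hA'
    have h1 := matOf_entries (b := b) hA.2
    have hdet' : (matOf b (fun p : PIdx b => A p.1.1 p.1.2)).det ≠ 0 := by
      rw [h1]; exact hA.1
    have h2 := hDN _ hdet' hA'
    rw [h1] at h2
    rw [initialIdeal_eq, initialIdeal_eq, h2, hDN a hdet ha]

end main

end Pool.Agent.CS
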