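import Pool.Agent.Lib.MP_293f2a_ag.Part10

namespace Pool.Agent.CS

open MvPolynomial
open scoped MonomialOrder

universe uX uY uO uI uI' uK

variable {K : Type uK} [Field K] {X : Type uX} {Y : Type uY} {ι : Type uI} {ι' : Type uI'}

/-! ### Elimination orders -/

/-- `Y` as the disjoint union of `X` and of the complement of the image of `X`. -/
noncomputable def sumEquiv (j : X → Y) (hj : Function.Injective j) :
    X ⊕ {y : Y // y ∉ Set.range j} ≃ Y := by
  classical
  exact (Equiv.sumCongr (Equiv.ofInjective j hj) (Equiv.refl _)).trans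
    (Equiv.Set.sumCompl (Set.range j))

theorem sumEquiv_inl (j : X → Y) (hj : Function.Injective j) (x : X) :
    sumEquiv j hj (Sum.inl x) = j x := rfl

theorem sumEquiv_inr (j : X → Y) (hj : Function.Injective j) (y : {y : Y // y ∉ Set.range j}) :
    sumEquiv j hj (Sum.inr y) = y := rfl

/-- the decomposition of exponents -/
noncomputable def expEquiv (j : X → Y) (hj : Function.Injective j) :
    (Y →₀ ℕ) ≃+ ({y : Y // y ∉ Set.range j} →₀ ℕ) × (X →₀ ℕ) :=
  ((Finsupp.domCongr (sumEquiv j hj).symm).trans Finsupp.sumFinsuppAddEquivProdFinsupp).trans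
    AddEquiv.prodComm

theorem expEquiv_fst_apply (j : X → Y) (hj : Function.Injective j) (e : Y →₀ ℕ)
    (y : {y : Y // y ∉ Set.range j}) : (expEquiv j hj e).1 y = e y := by
  have : (expEquiv j hj e).1 y = e (sumEquiv j hj (Sum.inr y)) := rfl
  rw [this, sumEquiv_inr]

theorem expEquiv_snd_apply (j : X → Y) (hj : Function.Injective j) (e : Y →₀ ℕ)
    (x : X) : (expEquiv j hj e).2 x = e (j x) := by
  have : (expEquiv j hj e).2 x = e (sumEquiv j hj (Sum.inl x)) := rfl
  rw [this, sumEquiv_inl]

/-- the elimination order -/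
noncomputable def elimOrder (j : X → Y) (hj : Function.Injective j)
    (μ : MonomialOrder.{uY, uY} {y : Y // y ∉ Set.range j}) (τ : MonomialOrder.{uX, uO} X) :
    MonomialOrder.{uY, max uY uO} Y where
  syn := μ.syn ×ₗ τ.syn
  toSyn :=
    { toFun := fun e => toLex (μ.toSyn (expEquiv j hj e).1, τ.toSyn (expEquiv j hj e).2)
      invFun := fun s => (expEquiv j hj).symm (μ.toSyn.symm (ofLex s).1, τ.toSyn.symm (ofLex s).2)
      left_inv := fun e => by simp
      right_inv := fun s => by simp
      map_add' := fun e e' => by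
        rw [map_add, Prod.fst_add, Prod.snd_add, map_add, map_add]
        rfl }
  toSyn_monotone := by
    intro e e' h
    show toLex (μ.toSyn (expEquiv j hj e).1, τ.toSyn (expEquiv j hj e).2) ≤
      toLex (μ.toSyn (expEquiv j hj e').1, τ.toSyn (expEquiv j hj e').2)
    have h1 : (expEquiv j hj e).1 ≤ (expEquiv j hj e').1 := by
      intro y
      rw [expEquiv_fst_apply, expEquiv_fst_apply]
      exact h y
    have h2 : (expEquiv j hj e).2 ≤ (expEquiv j hj e').2 := by
      intro x
      rw [expEquiv_snd_apply, expEquiv_snd_apply]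
      exact h (j x)
    exact Prod.Lex.toLex_mono ⟨μ.toSyn_monotone h1, τ.toSyn_monotone h2⟩

theorem expEquiv_mapDomain (j : X → Y) (hj : Function.Injective j) (e : X →₀ ℕ) :
    expEquiv j hj (e.mapDomain j) = (0, e) := by
  ext y
  · rw [expEquiv_fst_apply]
    exact Finsupp.mapDomain_of_notMem_range _ _ y.2
  · rw [expEquiv_snd_apply]
    exact Finsupp.mapDomain_apply hj _ _

theorem elim_le_iff (j : X → Y) (hj : Function.Injective j)
    (μ : MonomialOrder.{uY, uY} {y : Y // y ∉ Set.range j}) (τ : MonomialOrder.{uX, uO} X)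
    (e e' : Y →₀ ℕ) : e ≼[elimOrder j hj μ τ] e' ↔
      (μ.toSyn (expEquiv j hj e).1 < μ.toSyn (expEquiv j hj e').1 ∨
      μ.toSyn (expEquiv j hj e).1 = μ.toSyn (expEquiv j hj e').1 ∧
        τ.toSyn (expEquiv j hj e).2 ≤ τ.toSyn (expEquiv j hj e').2) :=
  Prod.Lex.le_iff

theorem elim_mapDomain_le_iff (j : X → Y) (hj : Function.Injective j)
    (μ : MonomialOrder.{uY, uY} {y : Y // y ∉ Set.range j}) (τ : MonomialOrder.{uX, uO} X)
    (e e' : X →₀ ℕ) : (e.mapDomain j) ≼[elimOrder j hj μ τ] (e'.mapDomain j) ↔ e ≼[τ] e' := by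
  rw [elim_le_iff, expEquiv_mapDomain, expEquiv_mapDomain]
  simp

theorem exists_of_elim_le (j : X → Y) (hj : Function.Injective j)
    (μ : MonomialOrder.{uY, uY} {y : Y // y ∉ Set.range j}) (τ : MonomialOrder.{uX, uO} X)
    (e : Y →₀ ℕ) (e' : X →₀ ℕ) (h : e ≼[elimOrder j hj μ τ] (e'.mapDomain j)) :
    ∃ d : X →₀ ℕ, d.mapDomain j = e := by
  rw [elim_le_iff, expEquiv_mapDomain] at h
  have h0 : (expEquiv j hj e).1 = 0 := by
    rcases h with h | h
    · rw [map_zero] at h
      exact absurd h (not_lt.2 (μ.zero_le _))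
    · exact μ.toSyn.injective h.1
  refine ⟨(expEquiv j hj e).2, ?_⟩
  apply (expEquiv j hj).injective
  rw [expEquiv_mapDomain, ← h0]

theorem degree_rename (j : X → Y) (hj : Function.Injective j)
    (μ : MonomialOrder.{uY, uY} {y : Y // y ∉ Set.range j}) (τ : MonomialOrder.{uX, uO} X)
    {f : MvPolynomial X K} (hf : f ≠ 0) :
    (elimOrder j hj μ τ).degree (rename j f) = (τ.degree f).mapDomain j := by
  classical
  apply (elimOrder j hj μ τ).toSyn.injective
  apply le_antisymm
  · rw [MonomialOrder.degree_le_iff]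
    intro e he
    rw [support_rename_of_injective hj, Finset.mem_image] at he
    obtain ⟨d, hd, rfl⟩ := he
    rw [elim_mapDomain_le_iff]
    exact τ.le_degree hd
  · apply MonomialOrder.le_degree
    rw [support_rename_of_injective hj]
    exact Finset.mem_image_of_mem _ (τ.degree_mem_support hf)

theorem mem_LMI_comap (j : X → Y) (hj : Function.Injective j)
    (μ : MonomialOrder.{uY, uY} {y : Y // y ∉ Set.range j}) (τ : MonomialOrder.{uX, uO} X)
    (I : Ideal (MvPolynomial Y K)) (e : X →₀ ℕ) :
    e ∈ LMI τ (I.comap (rename j)) ↔ e.mapDomain j ∈ LMI (elimOrder j hj μ τ) I := by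
  classical
  constructor
  · rintro ⟨f, hf, hf0, rfl⟩
    refine ⟨rename j f, hf, ?_, degree_rename j hj μ τ hf0⟩
    intro h0
    exact hf0 (rename_injective j hj (by rw [h0, map_zero]))
  · rintro ⟨g, hg, hg0, hdeg⟩
    have hsupp : ∀ d ∈ g.support, ∃ d' : X →₀ ℕ, d'.mapDomain j = d := by
      intro d hd
      apply exists_of_elim_le j hj μ τ d e
      rw [← hdeg]
      exact MonomialOrder.le_degree hd
    have hgr : ∃ f : MvPolynomial X K, rename j f = g := by
      rw [g.as_sum]
      have : ∀ d ∈ g.support, ∃ f : MvPolynomial X K, rename j f = monomial d (coeff d g) := by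
        intro d hd
        obtain ⟨d', hd'⟩ := hsupp d hd
        exact ⟨monomial d' (coeff d g), by rw [rename_monomial, hd']⟩
      choose! F hF using this
      exact ⟨∑ d ∈ g.support, F d, by rw [map_sum]; exact Finset.sum_congr rfl hF⟩
    obtain ⟨f, rfl⟩ := hgr
    have hf0 : f ≠ 0 := by
      rintro rfl
      exact hg0 (map_zero _)
    refine ⟨f, hg, hf0, ?_⟩
    rw [degree_rename j hj μ τ hf0] at hdeg
    exact Finsupp.mapDomain_injective hj hdeg

theorem initialIdeal_comap (j : X → Y) (hj : Function.Injective j)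
    (μ : MonomialOrder.{uY, uY} {y : Y // y ∉ Set.range j}) (τ : MonomialOrder.{uX, uO} X)
    (I : Ideal (MvPolynomial Y K)) :
    initialIdeal τ (I.comap (rename j)) =
      (initialIdeal (elimOrder j hj μ τ) I).comap (rename j) := by
  classical
  ext f
  rw [Ideal.mem_comap, mem_initialIdeal, mem_initialIdeal, support_rename_of_injective hj]
  constructor
  · intro h d hd
    obtain ⟨e, he, rfl⟩ := Finset.mem_image.1 hd
    exact (mem_LMI_comap j hj μ τ I e).1 (h e he)
  · intro h e he
    exact (mem_LMI_comap j hj μ τ I e).2 (h _ (Finset.mem_image_of_mem _ he))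

/-! ### Extension of matrices -/

section ext

variable [Fintype X] [DecidableEq X] [Fintype Y] [DecidableEq Y]

open Classical in
/-- extension of a matrix by the identity -/
noncomputable def extMat (j : X → Y) (hj : Function.Injective j) (A : Matrix X X K) :
    Matrix Y Y K :=
  (Matrix.fromBlocks A 0 0 1).submatrix (sumEquiv j hj).symm (sumEquiv j hj).symm

omit [Fintype X] [DecidableEq X] [Fintype Y] in
theorem extMat_apply (j : X → Y) (hj : Function.Injective j) (A : Matrix X X K) (x x' : X) :
    extMat j hj A (j x) (j x') = A x x' := by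
  rw [← sumEquiv_inl j hj x, ← sumEquiv_inl j hj x', extMat, Matrix.submatrix_apply,
    Equiv.symm_apply_apply, Equiv.symm_apply_apply, Matrix.fromBlocks_apply₁₁]

theorem det_extMat (j : X → Y) (hj : Function.Injective j) (A : Matrix X X K) :
    (extMat j hj A).det = A.det := by
  rw [extMat, Matrix.det_submatrix_equiv_self, Matrix.det_fromBlocks_zero₂₁, Matrix.det_one,
    mul_one]

theorem extMat_mem {b : X → ι} {b' : Y → ι'} (j : X → Y) (hj : Function.Injective j)
    (hb : ∀ x x', b x = b x' → b' (j x) = b' (j x'))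
    {A : Matrix X X K} (hA : A ∈ BlockGL (K := K) b) :
    extMat j hj A ∈ BlockGL (K := K) b' := by
  classical
  refine ⟨by rw [det_extMat]; exact hA.1, ?_⟩
  intro y y' hyy'
  obtain ⟨s, rfl⟩ := (sumEquiv j hj).surjective y
  obtain ⟨s', rfl⟩ := (sumEquiv j hj).surjective y'
  rw [extMat, Matrix.submatrix_apply, Equiv.symm_apply_apply, Equiv.symm_apply_apply]
  rcases s with x | z <;> rcases s' with x' | z'
  · rw [Matrix.fromBlocks_apply₁₁]
    apply hA.2
    intro h
    exact hyy' (hb x x' h)
  · rw [Matrix.fromBlocks_apply₁₂]; rfl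
  · rw [Matrix.fromBlocks_apply₂₁]; rfl
  · rw [Matrix.fromBlocks_apply₂₂, Matrix.one_apply_ne]
    rintro rfl
    exact hyy' rfl

omit [DecidableEq X] in
theorem linSubst_extMat (j : X → Y) (hj : Function.Injective j) (A : Matrix X X K)
    (f : MvPolynomial X K) :
    linSubst (extMat j hj A) (rename j f) = rename j (linSubst A f) := by
  classical
  have h : (linSubst (extMat j hj A)).comp (rename j) = (rename j).comp (linSubst A) := by
    apply MvPolynomial.algHom_ext
    intro x
    rw [AlgHom.comp_apply, AlgHom.comp_apply, rename_X, linSubst_X, linSubst_X, map_sum,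
      ← Equiv.sum_comp (sumEquiv j hj), Fintype.sum_sum_type]
    have h2 : ∑ z : {y : Y // y ∉ Set.range j},
        C (extMat j hj A (sumEquiv j hj (Sum.inr z)) (j x)) *
          MvPolynomial.X (sumEquiv j hj (Sum.inr z)) = (0 : MvPolynomial Y K) := by
      apply Finset.sum_eq_zero
      intro z _
      rw [← sumEquiv_inl j hj x, extMat, Matrix.submatrix_apply, Equiv.symm_apply_apply,
        Equiv.symm_apply_apply, Matrix.fromBlocks_apply₂₁, Matrix.zero_apply, map_zero, zero_mul]
    rw [h2, add_zero]
    apply Finset.sum_congr rfl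
    intro x' _
    rw [map_mul, rename_C, rename_X, sumEquiv_inl, extMat_apply]
  exact DFunLike.congr_fun h f

theorem comap_map_extMat (j : X → Y) (hj : Function.Injective j) {A : Matrix X X K}
    (hA : A.det ≠ 0) (I : Ideal (MvPolynomial Y K)) :
    (I.map (linSubst (extMat j hj A))).comap (rename j) =
      (I.comap (rename j)).map (linSubst A) := by
  have hA' : (extMat j hj A).det ≠ 0 := by rw [det_extMat]; exact hA
  ext f
  rw [Ideal.mem_comap, mem_map_linSubst hA', mem_map_linSubst hA]
  constructor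
  · rintro ⟨h, hh, heq⟩
    refine ⟨linSubst A⁻¹ f, ?_, linSubst_inv_right hA f⟩
    rw [Ideal.mem_comap]
    have : rename j (linSubst A⁻¹ f) = h := by
      apply linSubst_injective hA'
      rw [linSubst_extMat, linSubst_inv_right hA, heq]
    rw [this]
    exact hh
  · rintro ⟨g, hg, rfl⟩
    exact ⟨rename j g, hg, linSubst_extMat j hj A g⟩

/-- Elimination preserves the strong Cartwright–Sturmfels property. -/
theorem strongCS_comap {b : X → ι} {b' : Y → ι'} (j : X → Y) (hj : Function.Injective j)
    (hb : ∀ x x', b x = b x' → b' (j x) = b' (j x'))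
    {I : Ideal (MvPolynomial Y K)} (hI : StrongCS.{uY, max uY uO} b' I) :
    StrongCS.{uX, uO} b (I.comap (rename j)) := by
  intro A hA τ
  obtain ⟨μ, -⟩ := exists_order (X := {y : Y // y ∉ Set.range j}) (fun _ => 0)
  rw [← comap_map_extMat j hj hA.1, initialIdeal_comap j hj μ τ]
  exact (hI _ (extMat_mem j hj hb hA) _).comap _

end ext

end Pool.Agent.CS
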