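import Mathlib

namespace Pool.Agent.CS

/-! ### Duality for one block -/

/-- the largest index in the support (0 if there is none) -/
def top {n : ℕ} (φ : Fin n → ℕ) : ℕ := Finset.univ.sup (fun i => if φ i = 0 then 0 else (i : ℕ))

theorem top_le_iff {n : ℕ} {φ : Fin n → ℕ} {a : ℕ} :
    top φ ≤ a ↔ ∀ i, φ i ≠ 0 → (i : ℕ) ≤ a := by
  unfold top
  rw [Finset.sup_le_iff]
  constructor
  · intro h i hi
    have := h i (Finset.mem_univ i)
    rwa [if_neg hi] at this
  · intro h i _
    split_ifs with hi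
    · exact Nat.zero_le _
    · exact h i hi

theorem le_top {n : ℕ} {φ : Fin n → ℕ} {i : Fin n} (hi : φ i ≠ 0) : (i : ℕ) ≤ top φ :=
  top_le_iff.1 le_rfl i hi

theorem top_le {s : ℕ} (φ : Fin (s + 1) → ℕ) : top φ ≤ s :=
  top_le_iff.2 (fun i _ => Nat.lt_succ_iff.1 i.2)

theorem exists_top {n : ℕ} {φ : Fin n → ℕ} (h : top φ ≠ 0) : ∃ i, φ i ≠ 0 ∧ (i : ℕ) = top φ := by
  by_contra hcon
  push Not at hcon
  have : top φ ≤ top φ - 1 := by
    rw [top_le_iff]
    intro i hi
    have h1 := le_top hi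
    have h2 := hcon i hi
    omega
  omega

theorem card_piAntidiag {ι : Type*} [DecidableEq ι] (s : Finset ι) (d : ℕ) :
    (Finset.piAntidiag s d).card = s.card.multichoose d := by
  rw [← Finset.card_finsuppAntidiag_nat_eq_multichoose, Finset.finsuppAntidiag, Finset.card_map,
    Finset.card_attach]

theorem card_sum_eq (n d : ℕ) :
    Nat.card {ψ : Fin n → ℕ // ∑ i, ψ i = d} = n.multichoose d := by
  rw [← Nat.card_congr (Sym.equivNatSumOfFintype (Fin n) d), Sym.natCard_sym_eq_multichoose,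
    Nat.card_fin]

theorem card_top_succ (s d l : ℕ) (hl : l ≤ s) :
    Nat.card {φ : Fin (s + 1) → ℕ // ∑ i, φ i = d + 1 ∧ top φ = l} =
      (l + 1).multichoose d := by
  classical
  let i0 : Fin (s + 1) := ⟨l, Nat.lt_succ_iff.2 hl⟩
  have hcard : (Finset.Iic i0).card = l + 1 := by
    rw [Fin.card_Iic]
  rw [← hcard, ← card_piAntidiag]
  have hfin : Nat.card {ψ : Fin (s + 1) → ℕ // ψ ∈ Finset.piAntidiag (Finset.Iic i0) d} =
      (Finset.piAntidiag (Finset.Iic i0) d).card := by
    rw [Nat.card_eq_fintype_card, Fintype.card_coe]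
  rw [← hfin]
  symm
  apply Nat.card_congr
  refine
    { toFun := fun ψ => ⟨fun i => ψ.1 i + if i = i0 then 1 else 0, ?_, ?_⟩
      invFun := fun φ => ⟨fun i => φ.1 i - if i = i0 then 1 else 0, ?_⟩
      left_inv := ?_
      right_inv := ?_ }
  · rw [Finset.sum_add_distrib, Finset.sum_ite_eq' Finset.univ i0, if_pos (Finset.mem_univ _)]
    congr 1
    have h := Finset.mem_piAntidiag.1 ψ.2
    refine Eq.trans ?_ h.1
    symm
    apply Finset.sum_subset (Finset.subset_univ _)
    intro i _ hi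
    by_contra hne
    exact hi (h.2 i hne)
  · apply le_antisymm
    · rw [top_le_iff]
      intro i hi
      by_cases h0 : i = i0
      · rw [h0]
      · simp only [h0, if_false, add_zero] at hi
        have := (Finset.mem_piAntidiag.1 ψ.2).2 i hi
        rw [Finset.mem_Iic] at this
        exact this
    · have : (fun i => ψ.1 i + if i = i0 then 1 else 0) i0 ≠ 0 := by simp
      exact le_top (φ := fun i => ψ.1 i + if i = i0 then 1 else 0) (i := i0) this
  · rw [Finset.mem_piAntidiag]
    have hi0 : φ.1 i0 ≠ 0 := by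
      by_cases hl0 : l = 0
      · have hne : ∃ i, φ.1 i ≠ 0 := by
          by_contra hcon
          push Not at hcon
          have := φ.2.1
          rw [Finset.sum_eq_zero (fun i _ => hcon i)] at this
          omega
        obtain ⟨i, hi⟩ := hne
        have h1 := le_top hi
        rw [φ.2.2] at h1
        have : i = i0 := Fin.ext (by simp only [i0]; omega)
        rwa [← this]
      · obtain ⟨i, hi, hi'⟩ := exists_top (φ := φ.1) (by rw [φ.2.2]; exact hl0)
        rw [φ.2.2] at hi'
        have : i = i0 := Fin.ext hi'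
        rwa [← this]
    have hsupp : ∀ i, φ.1 i ≠ 0 → i ∈ Finset.Iic i0 := by
      intro i hi
      have := le_top hi
      rw [φ.2.2] at this
      rw [Finset.mem_Iic]
      exact this
    constructor
    · have h1 : ∑ i, φ.1 i = ∑ i ∈ Finset.Iic i0, φ.1 i := by
        symm
        apply Finset.sum_subset (Finset.subset_univ _)
        intro i _ hi
        by_contra hne
        exact hi (hsupp i hne)
      have h2 : ∑ i ∈ Finset.Iic i0, φ.1 i =
          ∑ i ∈ Finset.Iic i0, (φ.1 i - if i = i0 then 1 else 0) +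
            ∑ i ∈ Finset.Iic i0, (if i = i0 then 1 else 0) := by
        rw [← Finset.sum_add_distrib]
        apply Finset.sum_congr rfl
        intro i _
        split_ifs with h
        · subst h; omega
        · omega
      rw [Finset.sum_ite_eq' (Finset.Iic i0) i0, if_pos (Finset.mem_Iic.2 le_rfl), ← h1,
        φ.2.1] at h2
      omega
    · intro i hi
      apply hsupp
      omega
  · intro ψ
    apply Subtype.ext
    funext i
    simp
  · intro φ
    apply Subtype.ext
    funext i
    have hi0 : φ.1 i0 ≠ 0 := by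
      by_cases hl0 : l = 0
      · have hne : ∃ i, φ.1 i ≠ 0 := by
          by_contra hcon
          push Not at hcon
          have := φ.2.1
          rw [Finset.sum_eq_zero (fun i _ => hcon i)] at this
          omega
        obtain ⟨i, hi⟩ := hne
        have h1 := le_top hi
        rw [φ.2.2] at h1
        have : i = i0 := Fin.ext (by simp only [i0]; omega)
        rwa [← this]
      · obtain ⟨i, hi, hi'⟩ := exists_top (φ := φ.1) (by rw [φ.2.2]; exact hl0)
        rw [φ.2.2] at hi'
        have : i = i0 := Fin.ext hi'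
        rwa [← this]
    show φ.1 i - (if i = i0 then 1 else 0) + (if i = i0 then 1 else 0) = φ.1 i
    split_ifs with h
    · subst h; omega
    · omega

theorem card_top (s d l : ℕ) (hl : l ≤ s) :
    Nat.card {φ : Fin (s + 1) → ℕ // ∑ i, φ i = d ∧ top φ = l} = d.multichoose l := by
  rcases d with _ | d
  · have h0 : ∀ φ : Fin (s + 1) → ℕ, ∑ i, φ i = 0 ↔ φ = 0 := by
      intro φ
      rw [Finset.sum_eq_zero_iff]
      constructor
      · intro h; funext i; exact h i (Finset.mem_univ i)
      · rintro rfl i _; rfl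
    have htop : top (0 : Fin (s + 1) → ℕ) = 0 := by
      apply Nat.eq_zero_of_le_zero
      rw [top_le_iff]
      intro i hi
      exact absurd rfl hi
    rcases l with _ | l
    · rw [Nat.multichoose_zero_right, Nat.card_eq_one_iff_unique]
      refine ⟨⟨fun a b => ?_⟩, ⟨⟨0, (h0 0).2 rfl, htop⟩⟩⟩
      apply Subtype.ext
      rw [(h0 _).1 a.2.1, (h0 _).1 b.2.1]
    · rw [Nat.multichoose_zero_succ, Nat.card_eq_zero]
      left
      refine ⟨fun a => ?_⟩
      have h1 := (h0 _).1 a.2.1
      have h2 := a.2.2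
      rw [h1, htop] at h2
      omega
  · rw [card_top_succ s d l hl, Nat.multichoose_eq, Nat.multichoose_eq]
    have h1 : l + 1 + d - 1 = l + d := by omega
    have h2 : d + 1 + l - 1 = l + d := by omega
    rw [h1, h2]
    exact (Nat.choose_symm_add (a := l) (b := d)).symm

theorem finite_sum_eq (n d : ℕ) : Finite {ψ : Fin n → ℕ // ∑ i, ψ i = d} :=
  Finite.of_equiv _ (Sym.equivNatSumOfFintype (Fin n) d)

/-- Duality for one block. -/
theorem exists_dual (s d : ℕ) :
    ∃ D : {φ : Fin (s + 1) → ℕ // ∑ i, φ i = d} ≃ {ψ : Fin d → ℕ // ∑ i, ψ i ≤ s},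
      ∀ φ, ∑ i, (D φ).1 i = top φ.1 := by
  have hequiv : ∀ l : ℕ, Nonempty
      ({a : {φ : Fin (s + 1) → ℕ // ∑ i, φ i = d} // top a.1 = l} ≃
        {b : {ψ : Fin d → ℕ // ∑ i, ψ i ≤ s} // ∑ i, b.1 i = l}) := by
    intro l
    by_cases hl : l ≤ s
    · have e1 : {a : {φ : Fin (s + 1) → ℕ // ∑ i, φ i = d} // top a.1 = l} ≃
          {φ : Fin (s + 1) → ℕ // ∑ i, φ i = d ∧ top φ = l} :=
        Equiv.subtypeSubtypeEquivSubtypeInter (fun φ : Fin (s + 1) → ℕ => ∑ i, φ i = d)
          (fun φ => top φ = l)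
      have e2 : {b : {ψ : Fin d → ℕ // ∑ i, ψ i ≤ s} // ∑ i, b.1 i = l} ≃
          {ψ : Fin d → ℕ // ∑ i, ψ i = l} :=
        Equiv.subtypeSubtypeEquivSubtype (p := fun ψ : Fin d → ℕ => ∑ i, ψ i ≤ s)
          (q := fun ψ : Fin d → ℕ => ∑ i, ψ i = l)
          (fun {x} (h : ∑ i, x i = l) => by rw [h]; exact hl)
      have f2 : Finite {ψ : Fin d → ℕ // ∑ i, ψ i = l} := finite_sum_eq d l
      have f1 : Finite {φ : Fin (s + 1) → ℕ // ∑ i, φ i = d ∧ top φ = l} := by
        have := finite_sum_eq (s + 1) d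
        exact Finite.of_injective (β := {φ : Fin (s + 1) → ℕ // ∑ i, φ i = d})
          (fun a => ⟨a.1, a.2.1⟩) (fun a b h => Subtype.ext (congrArg (fun z => z.1) h))
      have hc : Nat.card {φ : Fin (s + 1) → ℕ // ∑ i, φ i = d ∧ top φ = l} =
          Nat.card {ψ : Fin d → ℕ // ∑ i, ψ i = l} := by
        rw [card_top s d l hl, card_sum_eq]
      obtain ⟨e3⟩ := Finite.card_eq.1 hc
      exact ⟨e1.trans (e3.trans e2.symm)⟩
    · have i1 : IsEmpty {a : {φ : Fin (s + 1) → ℕ // ∑ i, φ i = d} // top a.1 = l} := by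
        refine ⟨fun a => ?_⟩
        have h1 := a.2
        have h2 := top_le a.1.1
        omega
      have i2 : IsEmpty {b : {ψ : Fin d → ℕ // ∑ i, ψ i ≤ s} // ∑ i, b.1 i = l} := by
        refine ⟨fun a => ?_⟩
        have h1 := a.2
        have h2 := a.1.2
        omega
      exact ⟨Equiv.equivOfIsEmpty _ _⟩
  let e := fun l => Classical.choice (hequiv l)
  refine ⟨Equiv.ofFiberEquiv (f := fun a : {φ : Fin (s + 1) → ℕ // ∑ i, φ i = d} => top a.1)
    (g := fun b : {ψ : Fin d → ℕ // ∑ i, ψ i ≤ s} => ∑ i, b.1 i) e, ?_⟩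
  intro φ
  exact Equiv.ofFiberEquiv_map (f := fun a : {φ : Fin (s + 1) → ℕ // ∑ i, φ i = d} => top a.1)
    (g := fun b : {ψ : Fin d → ℕ // ∑ i, ψ i ≤ s} => ∑ i, b.1 i) e φ

end Pool.Agent.CS
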