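import Pool.Agent.Lib.MP_293f2a_ag.Part9
import Pool.Agent.Lib.MP_293f2a_ag.Part12

namespace Pool.Agent.CS

/-! ### Counting with several copies of the blocks -/

section push

variable {ι : Type*} [DecidableEq ι]

/-- push-forward of a function -/
def push {E : Type*} [Fintype E] (p : E → ι) (ψ : E → ℕ) (j : ι) : ℕ :=
  ∑ e, if p e = j then ψ e else 0

theorem card_push_congr {E E' : Type*} [Fintype E] [Fintype E'] (p : E → ι) (p' : E' → ι)
    (h : ∀ j, Fintype.card {e // p e = j} = Fintype.card {e // p' e = j}) (Q : Set (ι → ℕ)) :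
    Nat.card {ψ : E → ℕ // push p ψ ∈ Q} = Nat.card {ψ : E' → ℕ // push p' ψ ∈ Q} := by
  classical
  let e := fun j => Fintype.equivOfCardEq (h j)
  let θ : E ≃ E' := Equiv.ofFiberEquiv e
  have hθ : ∀ a, p' (θ a) = p a := fun a => Equiv.ofFiberEquiv_map e a
  apply Nat.card_congr
  refine (Equiv.arrowCongr θ (Equiv.refl ℕ)).subtypeEquiv ?_
  intro ψ
  have : push p' (Equiv.arrowCongr θ (Equiv.refl ℕ) ψ) = push p ψ := by
    funext j
    unfold push
    rw [← Equiv.sum_comp θ]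
    apply Finset.sum_congr rfl
    intro a _
    rw [hθ]
    simp [Equiv.arrowCongr]
  rw [this]

end push

section copies

variable {ι ρ : Type*} [DecidableEq ι] [Fintype ρ] [DecidableEq ρ]

/-- the variables of the multi-diagonal ring -/
abbrev Cop (s : ι → ℕ) (c : ρ → ι) : Type _ := Σ k : ρ, Fin (s (c k) + 1)

/-- the profile of an exponent -/
def prof (s : ι → ℕ) (c : ρ → ι) (F : Cop s c → ℕ) (j : ι) : ℕ :=
  ∑ k, if c k = j then top (fun i => F ⟨k, i⟩) else 0

omit [DecidableEq ι] in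
theorem mdeg_fst_apply (s : ι → ℕ) (c : ρ → ι) (F : Cop s c →₀ ℕ) (k : ρ) :
    mdeg Sigma.fst F k = ∑ i, F ⟨k, i⟩ := by
  classical
  rw [mdeg_apply, Finset.sum_filter, Fintype.sum_sigma, Finset.sum_eq_single k]
  · simp
  · intro k' _ hk'
    simp [hk']
  · simp

/-- exponents of degree `u` as families of functions -/
noncomputable def famEquiv (s : ι → ℕ) (c : ρ → ι) (u : ρ →₀ ℕ) :
    {F : Cop s c →₀ ℕ // mdeg Sigma.fst F = u} ≃
      ((k : ρ) → {φ : Fin (s (c k) + 1) → ℕ // ∑ i, φ i = u k}) where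
  toFun F := fun k => ⟨fun i => F.1 ⟨k, i⟩, by
    rw [← mdeg_fst_apply, F.2]⟩
  invFun Φ := ⟨Finsupp.equivFunOnFinite.symm (fun p => (Φ p.1).1 p.2), by
    ext k
    rw [mdeg_fst_apply]
    exact (Φ k).2⟩
  left_inv F := by
    apply Subtype.ext
    ext p
    rfl
  right_inv Φ := by
    funext k
    apply Subtype.ext
    rfl

omit [DecidableEq ρ] in
theorem push_sigma {s : ρ → ℕ} (c : ρ → ι) (ψ : (Σ k, Fin (s k)) → ℕ) (j : ι) :
    push (fun p : Σ k, Fin (s k) => c p.1) ψ j =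
      ∑ k, if c k = j then ∑ i, ψ ⟨k, i⟩ else 0 := by
  unfold push
  rw [Fintype.sum_sigma]
  apply Finset.sum_congr rfl
  intro k _
  split_ifs with h
  · rfl
  · simp

theorem card_prof (s : ι → ℕ) (c : ρ → ι) (u : ρ →₀ ℕ) (Q : Set (ι → ℕ))
    (hQ : ∀ l ∈ Q, ∀ j, l j ≤ s j) :
    Nat.card {F : Cop s c →₀ ℕ // mdeg Sigma.fst F = u ∧ prof s c F ∈ Q} =
      Nat.card {ψ : (Σ k : ρ, Fin (u k)) → ℕ // push (fun p => c p.1) ψ ∈ Q} := by
  classical
  choose D hD using fun k : ρ => exists_dual (s (c k)) (u k)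
  let E := (famEquiv s c u).trans (Equiv.piCongrRight D)
  have e1 : {F : Cop s c →₀ ℕ // mdeg Sigma.fst F = u ∧ prof s c F ∈ Q} ≃
      {a : {F : Cop s c →₀ ℕ // mdeg Sigma.fst F = u} // prof s c a.1 ∈ Q} :=
    (Equiv.subtypeSubtypeEquivSubtypeInter (fun F : Cop s c →₀ ℕ => mdeg Sigma.fst F = u)
      (fun F => prof s c F ∈ Q)).symm
  have e2 : {a : {F : Cop s c →₀ ℕ // mdeg Sigma.fst F = u} // prof s c a.1 ∈ Q} ≃
      {Ψ : (k : ρ) → {ψ : Fin (u k) → ℕ // ∑ i, ψ i ≤ s (c k)} //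
        (fun j => ∑ k, if c k = j then ∑ i, (Ψ k).1 i else 0) ∈ Q} := by
    refine E.subtypeEquiv ?_
    intro F
    have : (fun j => ∑ k, if c k = j then ∑ i, ((E F) k).1 i else 0) = prof s c F.1 := by
      funext j
      unfold prof
      apply Finset.sum_congr rfl
      intro k _
      split_ifs with h
      · exact hD k _
      · rfl
    rw [this]
  have e3 : {Ψ : (k : ρ) → {ψ : Fin (u k) → ℕ // ∑ i, ψ i ≤ s (c k)} //
        (fun j => ∑ k, if c k = j then ∑ i, (Ψ k).1 i else 0) ∈ Q} ≃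
      {ψ : (Σ k : ρ, Fin (u k)) → ℕ // push (fun p => c p.1) ψ ∈ Q} :=
    { toFun := fun Ψ => ⟨fun p => (Ψ.1 p.1).1 p.2, by
        have : push (fun p : Σ k : ρ, Fin (u k) => c p.1) (fun p => (Ψ.1 p.1).1 p.2) =
            (fun j => ∑ k, if c k = j then ∑ i, (Ψ.1 k).1 i else 0) := by
          funext j
          rw [push_sigma]
        rw [this]
        exact Ψ.2⟩
      invFun := fun ψ => ⟨fun k => ⟨fun i => ψ.1 ⟨k, i⟩, by
        have h1 := hQ _ ψ.2 (c k)
        rw [push_sigma] at h1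
        refine le_trans ?_ h1
        have h2 : (∑ i, ψ.1 ⟨k, i⟩) = (if c k = c k then ∑ i, ψ.1 ⟨k, i⟩ else 0) := by simp
        rw [h2]
        exact Finset.single_le_sum (f := fun k' => if c k' = c k then ∑ i, ψ.1 ⟨k', i⟩ else 0)
          (fun _ _ => Nat.zero_le _) (Finset.mem_univ k)⟩, by
        have h1 := ψ.2
        have : push (fun p : Σ k : ρ, Fin (u k) => c p.1) ψ.1 =
            (fun j => ∑ k, if c k = j then ∑ i, ψ.1 ⟨k, i⟩ else 0) := by
          funext j
          rw [push_sigma]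
        rw [this] at h1
        exact h1⟩
      left_inv := fun Ψ => rfl
      right_inv := fun ψ => rfl }
  exact Nat.card_congr (e1.trans (e2.trans e3))

omit [DecidableEq ρ] in
theorem card_sigma_fiber (c : ρ → ι) (v : ρ →₀ ℕ) (j : ι) :
    Fintype.card {p : Σ k : ρ, Fin (v k) // c p.1 = j} = mdeg c v j := by
  rw [Fintype.card_subtype, mdeg_apply, Finset.card_filter, Fintype.sum_sigma,
    Finset.sum_filter]
  apply Finset.sum_congr rfl
  intro k _
  split_ifs with h <;> simp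

theorem card_prof_id [Fintype ι] (s : ι → ℕ) (c : ρ → ι) (u : ρ →₀ ℕ) (Q : Set (ι → ℕ))
    (hQ : ∀ l ∈ Q, ∀ j, l j ≤ s j) :
    Nat.card {F : Cop s c →₀ ℕ // mdeg Sigma.fst F = u ∧ prof s c F ∈ Q} =
      Nat.card {G : Cop s (id : ι → ι) →₀ ℕ // mdeg Sigma.fst G = mdeg c u ∧
        prof s (id : ι → ι) G ∈ Q} := by
  classical
  rw [card_prof s c u Q hQ, card_prof s (id : ι → ι) (mdeg c u) Q hQ]
  apply card_push_congr
  intro j
  have h2 := card_sigma_fiber (id : ι → ι) (mdeg c u) j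
  rw [card_sigma_fiber c u j]
  have h3 : mdeg (id : ι → ι) (mdeg c u) = mdeg c u := Finsupp.mapDomain_id
  rw [h3] at h2
  exact h2.symm

end copies

end Pool.Agent.CS
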