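import Pool.Agent.Lib.MP_293f2a_ag.Part13

namespace Pool.Agent.CS

/-- `κ` enumerates the blocks; the block `j` has `s j` elements -/
structure EnumBlocks {X ι : Type*} (b : X → ι) (κ : X → ℕ) (s : ι → ℕ) : Prop where
  lt : ∀ x, κ x < s (b x)
  inj : InjBlocks b κ
  surj : ∀ j, ∀ i < s j, ∃ x, b x = j ∧ κ x = i

section

variable {X ι : Type*} [DecidableEq ι]

/-- the profile of an exponent vector on `X` (shifted by one) -/
def khat (b : X → ι) (κ : X → ℕ) (m : X →₀ ℕ) (j : ι) : ℕ :=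
  (m.support.filter (fun x => b x = j)).sup (fun x => κ x + 1)

theorem khat_le_iff {b : X → ι} {κ : X → ℕ} {m : X →₀ ℕ} {j : ι} {a : ℕ} :
    khat b κ m j ≤ a ↔ ∀ x, m x ≠ 0 → b x = j → κ x + 1 ≤ a := by
  unfold khat
  rw [Finset.sup_le_iff]
  constructor
  · intro h x hx hb
    exact h x (Finset.mem_filter.2 ⟨Finsupp.mem_support_iff.2 hx, hb⟩)
  · intro h x hx
    rw [Finset.mem_filter, Finsupp.mem_support_iff] at hx
    exact h x hx.1 hx.2

variable {b : X → ι} {κ : X → ℕ} {s : ι → ℕ}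

/-- the embedding of `X` in the ring with one more variable per block -/
def jX (hlt : ∀ x, κ x < s (b x)) (x : X) : Cop s (id : ι → ι) :=
  ⟨b x, ⟨κ x + 1, Nat.succ_lt_succ (hlt x)⟩⟩

/-- the additional variables -/
def zX (s : ι → ℕ) (j : ι) : Cop s (id : ι → ι) := ⟨j, ⟨0, Nat.succ_pos _⟩⟩

omit [DecidableEq ι] in
theorem jX_injective (h : EnumBlocks b κ s) : Function.Injective (jX h.lt) := by
  intro x y hxy
  have h1 : b x = b y := congrArg Sigma.fst hxy
  have h2 : κ x = κ y := by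
    have h3 := congrArg (fun p : Cop s (id : ι → ι) => (p.2 : ℕ)) hxy
    have h4 : κ x + 1 = κ y + 1 := h3
    omega
  exact h.inj x y h1 h2

omit [DecidableEq ι] in
theorem zX_injective : Function.Injective (zX s) := by
  intro i j hij
  exact congrArg Sigma.fst hij

omit [DecidableEq ι] in
theorem jX_ne_zX (hlt : ∀ x, κ x < s (b x)) (x : X) (j : ι) : jX hlt x ≠ zX s j := by
  intro h
  have h3 := congrArg (fun p : Cop s (id : ι → ι) => (p.2 : ℕ)) h
  have h4 : κ x + 1 = 0 := h3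
  omega

omit [DecidableEq ι] in
theorem exists_jX (h : EnumBlocks b κ s) (j : ι) (i : Fin (s j + 1)) (hi : (i : ℕ) ≠ 0) :
    ∃ x, b x = j ∧ κ x + 1 = i ∧ jX h.lt x = (⟨j, i⟩ : Cop s (id : ι → ι)) := by
  obtain ⟨x, hx1, hx2⟩ := h.surj j (i - 1) (by have := i.2; omega)
  refine ⟨x, hx1, by omega, ?_⟩
  subst hx1
  have : i = ⟨κ x + 1, Nat.succ_lt_succ (h.lt x)⟩ := Fin.ext (by simp only; omega)
  rw [this]
  rfl

omit [DecidableEq ι] in
theorem cases_cop (h : EnumBlocks b κ s) (p : Cop s (id : ι → ι)) :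
    (∃ x, jX h.lt x = p) ∨ ∃ j, zX s j = p := by
  obtain ⟨j, i⟩ := p
  by_cases hi : (i : ℕ) = 0
  · right
    refine ⟨j, ?_⟩
    have : i = ⟨0, Nat.succ_pos _⟩ := Fin.ext hi
    rw [this]
    rfl
  · left
    obtain ⟨x, _, _, hx⟩ := exists_jX h j i hi
    exact ⟨x, hx⟩

/-- the padded exponent -/
noncomputable def pad (hlt : ∀ x, κ x < s (b x)) (m : X →₀ ℕ) (v : ι →₀ ℕ) :
    Cop s (id : ι → ι) →₀ ℕ :=
  m.mapDomain (jX hlt) + v.mapDomain (zX s)

omit [DecidableEq ι] in
theorem pad_jX (h : EnumBlocks b κ s) (m : X →₀ ℕ) (v : ι →₀ ℕ) (x : X) :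
    pad h.lt m v (jX h.lt x) = m x := by
  rw [pad, Finsupp.add_apply, Finsupp.mapDomain_apply (jX_injective h),
    Finsupp.mapDomain_of_notMem_range, add_zero]
  rintro ⟨j, hj⟩
  exact jX_ne_zX h.lt x j hj.symm

omit [DecidableEq ι] in
theorem pad_zX (h : EnumBlocks b κ s) (m : X →₀ ℕ) (v : ι →₀ ℕ) (j : ι) :
    pad h.lt m v (zX s j) = v j := by
  rw [pad, Finsupp.add_apply, Finsupp.mapDomain_apply zX_injective,
    Finsupp.mapDomain_of_notMem_range, zero_add]
  rintro ⟨x, hx⟩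
  exact jX_ne_zX h.lt x j hx

omit [DecidableEq ι] in
theorem mdeg_pad (hlt : ∀ x, κ x < s (b x)) (m : X →₀ ℕ) (v : ι →₀ ℕ) :
    mdeg Sigma.fst (pad hlt m v) = mdeg b m + v := by
  rw [pad, mdeg_add, mdeg, mdeg, ← Finsupp.mapDomain_comp, ← Finsupp.mapDomain_comp]
  have h1 : (Sigma.fst ∘ jX hlt : X → ι) = b := rfl
  have h2 : (Sigma.fst ∘ zX s : ι → ι) = id := rfl
  rw [h1, h2, Finsupp.mapDomain_id]
  rfl

theorem prof_pad [Fintype ι] (h : EnumBlocks b κ s) (m : X →₀ ℕ) (v : ι →₀ ℕ) :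
    prof s (id : ι → ι) (pad h.lt m v) = khat b κ m := by
  funext j
  have h1 : prof s (id : ι → ι) (pad h.lt m v) j = top (fun i => pad h.lt m v ⟨j, i⟩) := by
    unfold prof
    rw [Finset.sum_eq_single j]
    · simp
    · intro k _ hk
      simp [hk]
    · simp
  rw [h1]
  apply eq_of_forall_ge_iff
  intro a
  rw [top_le_iff, khat_le_iff]
  constructor
  · intro h2 x hx hb
    have h3 := h2 ⟨κ x + 1, by
      have := h.lt x
      rw [hb] at this
      exact Nat.succ_lt_succ this⟩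
    apply h3
    have h4 : (⟨j, ⟨κ x + 1, by
      have := h.lt x
      rw [hb] at this
      exact Nat.succ_lt_succ this⟩⟩ : Cop s (id : ι → ι)) = jX h.lt x := by
      subst hb
      rfl
    rw [h4, pad_jX h]
    exact hx
  · intro h2 i hi
    by_cases hi0 : (i : ℕ) = 0
    · rw [hi0]; exact Nat.zero_le _
    · obtain ⟨x, hx1, hx2, hx3⟩ := exists_jX h j i hi0
      rw [← hx3, pad_jX h] at hi
      rw [← hx2]
      exact h2 x hi hx1

theorem card_pad [Fintype ι] [Fintype X] (h : EnumBlocks b κ s) (w : ι →₀ ℕ)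
    (Q : Set (ι → ℕ)) :
    Nat.card {m : X →₀ ℕ // mdeg b m ≤ w ∧ khat b κ m ∈ Q} =
      Nat.card {G : Cop s (id : ι → ι) →₀ ℕ // mdeg Sigma.fst G = w ∧
        prof s (id : ι → ι) G ∈ Q} := by
  classical
  let f : {m : X →₀ ℕ // mdeg b m ≤ w ∧ khat b κ m ∈ Q} →
      {G : Cop s (id : ι → ι) →₀ ℕ // mdeg Sigma.fst G = w ∧ prof s (id : ι → ι) G ∈ Q} :=
    fun m => ⟨pad h.lt m.1 (w - mdeg b m.1), by
      refine ⟨?_, ?_⟩
      · rw [mdeg_pad, add_tsub_cancel_of_le m.2.1]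
      · rw [prof_pad h]
        exact m.2.2⟩
  apply Nat.card_eq_of_bijective f
  constructor
  · intro m m' hmm'
    apply Subtype.ext
    ext x
    have h1 : pad h.lt m.1 (w - mdeg b m.1) (jX h.lt x) =
        pad h.lt m'.1 (w - mdeg b m'.1) (jX h.lt x) :=
      congrArg (fun z => z.1 (jX h.lt x)) hmm'
    rw [pad_jX h, pad_jX h] at h1
    exact h1
  · rintro ⟨G, hG1, hG2⟩
    let m : X →₀ ℕ := Finsupp.equivFunOnFinite.symm (fun x => G (jX h.lt x))
    let v : ι →₀ ℕ := Finsupp.equivFunOnFinite.symm (fun j => G (zX s j))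
    have hG : pad h.lt m v = G := by
      ext p
      rcases cases_cop h p with ⟨x, rfl⟩ | ⟨j, rfl⟩
      · rw [pad_jX h]; rfl
      · rw [pad_zX h]; rfl
    have hdeg : mdeg b m + v = w := by
      rw [← mdeg_pad h.lt, hG, hG1]
    have hv : w - mdeg b m = v := by
      rw [← hdeg, add_tsub_cancel_left]
    refine ⟨⟨m, ?_, ?_⟩, ?_⟩
    · rw [← hdeg]; exact le_self_add
    · rw [← prof_pad h m v, hG]
      exact hG2
    · apply Subtype.ext
      show pad h.lt m (w - mdeg b m) = G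
      rw [hv, hG]

end

/-! ### The Borel fixed set for the multi-diagonal ideal -/

section borel

variable {X ι ρ : Type*} [DecidableEq ι] [Fintype ρ] [DecidableEq ρ]

/-- the set of profiles of the exponents outside `B` -/
def Qset (b : X → ι) (κ : X → ℕ) (B : Set (X →₀ ℕ)) : Set (ι → ℕ) :=
  {l | ∃ m, m ∉ B ∧ khat b κ m = l}

theorem notMem_iff [DecidableEq X] {b : X → ι} {κ : X → ℕ} {B : Set (X →₀ ℕ)}
    (hinj : InjBlocks b κ) (hU : IsUpperSet B) (hR : RadSet B) (hB : BorelSet b κ B)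
    (m : X →₀ ℕ) : m ∉ B ↔ khat b κ m ∈ Qset b κ B := by
  constructor
  · intro hm
    exact ⟨m, hm, rfl⟩
  · rintro ⟨m', hm', heq⟩ hm
    apply hm'
    apply dom_mem hinj hU hR hB hm
    intro x hx
    rw [Finsupp.mem_support_iff] at hx
    by_contra hcon
    push Not at hcon
    have h1 : khat b κ m' (b x) ≤ κ x := by
      rw [khat_le_iff]
      intro y hy hby
      have := hcon y (Finsupp.mem_support_iff.2 hy) hby.symm
      omega
    rw [heq] at h1
    have h2 := khat_le_iff.1 h1 x hx rfl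
    omega

theorem Qset_lower [Fintype ι] [Fintype X] [DecidableEq X] {b : X → ι} {κ : X → ℕ} {s : ι → ℕ}
    (h : EnumBlocks b κ s) {B : Set (X →₀ ℕ)}
    (hU : IsUpperSet B) (hR : RadSet B) (hB : BorelSet b κ B) {l l' : ι → ℕ}
    (hl : l ∈ Qset b κ B) (hle : l' ≤ l) : l' ∈ Qset b κ B := by
  obtain ⟨m, hm, rfl⟩ := hl
  let W : Finset X := Finset.univ.filter (fun x => κ x + 1 = l' (b x))
  have hkhat : khat b κ (ind W 1) = l' := by
    funext j
    apply le_antisymm
    · rw [khat_le_iff]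
      intro x hx hb
      rw [ind_apply] at hx
      by_cases hxW : x ∈ W
      · rw [Finset.mem_filter] at hxW
        rw [hxW.2, hb]
      · rw [if_neg hxW] at hx
        exact absurd rfl hx
    · by_cases h0 : l' j = 0
      · rw [h0]; exact Nat.zero_le _
      · have hlt : l' j - 1 < s j := by
          have h1 : l' j ≤ khat b κ m j := hle j
          have h2 : khat b κ m j ≤ s j := by
            rw [khat_le_iff]
            intro x _ hb
            have := h.lt x
            rw [hb] at this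
            omega
          omega
        obtain ⟨x, hx1, hx2⟩ := h.surj j (l' j - 1) hlt
        have h3 := (khat_le_iff (b := b) (κ := κ) (m := ind W 1) (j := j)).1 le_rfl x (by
          rw [ind_apply, if_pos]
          · exact one_ne_zero
          · refine Finset.mem_filter.2 ⟨Finset.mem_univ _, ?_⟩
            rw [hx1]; omega) hx1
        omega
  refine ⟨ind W 1, ?_, hkhat⟩
  intro hW
  apply hm
  apply dom_mem h.inj hU hR hB hW
  intro x hx
  rw [Finsupp.mem_support_iff, ind_apply] at hx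
  have hxW : x ∈ W := by
    by_contra hne
    rw [if_neg hne] at hx
    exact hx rfl
  have hxW' := (Finset.mem_filter.1 hxW).2
  by_contra hcon
  push Not at hcon
  have h1 : khat b κ m (b x) ≤ κ x := by
    rw [khat_le_iff]
    intro y hy hby
    have := hcon y (Finsupp.mem_support_iff.2 hy) hby.symm
    omega
  have h2 : l' (b x) ≤ khat b κ m (b x) := hle (b x)
  omega

theorem Qset_le {b : X → ι} {κ : X → ℕ} {s : ι → ℕ}
    (h : EnumBlocks b κ s) {B : Set (X →₀ ℕ)} {l : ι → ℕ}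
    (hl : l ∈ Qset b κ B) (j : ι) : l j ≤ s j := by
  obtain ⟨m, hm, rfl⟩ := hl
  rw [khat_le_iff]
  intro x _ hb
  have := h.lt x
  rw [hb] at this
  omega

/-- the radical Borel fixed set of the multi-diagonal ideal -/
def Bcop (s : ι → ℕ) (c : ρ → ι) (Q : Set (ι → ℕ)) : Set (Cop s c →₀ ℕ) :=
  {F | prof s c F ∉ Q}

omit [DecidableEq ρ] in
theorem prof_mono {s : ι → ℕ} {c : ρ → ι} {F F' : Cop s c → ℕ}
    (h : ∀ k, top (fun i => F ⟨k, i⟩) ≤ top (fun i => F' ⟨k, i⟩)) :
    prof s c F ≤ prof s c F' := by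
  intro j
  unfold prof
  apply Finset.sum_le_sum
  intro k _
  split_ifs
  · exact h k
  · exact le_rfl

theorem card_Bcop [Fintype ι] [Fintype X] [DecidableEq X] {b : X → ι} {κ : X → ℕ} {s : ι → ℕ}
    (h : EnumBlocks b κ s) {B : Set (X →₀ ℕ)}
    (hU : IsUpperSet B) (hR : RadSet B) (hB : BorelSet b κ B) (c : ρ → ι) (u : ρ →₀ ℕ) :
    Nat.card {F : Cop s c →₀ ℕ // mdeg Sigma.fst F = u ∧ F ∉ Bcop s c (Qset b κ B)} =
      Nat.card {m : X →₀ ℕ // mdeg b m ≤ mdeg c u ∧ m ∉ B} := by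
  have h1 : Nat.card {m : X →₀ ℕ // mdeg b m ≤ mdeg c u ∧ m ∉ B} =
      Nat.card {m : X →₀ ℕ // mdeg b m ≤ mdeg c u ∧ khat b κ m ∈ Qset b κ B} := by
    apply Nat.card_congr
    apply Equiv.subtypeEquivRight
    intro m
    rw [notMem_iff h.inj hU hR hB]
  rw [h1, card_pad h, ← card_prof_id s c u (Qset b κ B) (fun l hl j => Qset_le h hl j)]
  apply Nat.card_congr
  apply Equiv.subtypeEquivRight
  intro F
  simp only [Bcop, Set.mem_ofPred_eq, not_not]

end borel

end Pool.Agent.CS
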