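import Pool.Agent.Lib.MP_293f2a_ag.Part11
import Pool.Agent.Lib.MP_293f2a_ag.Part14

namespace Pool.Agent.CS

open MvPolynomial
open scoped MonomialOrder

section bcop

variable {ι ρ : Type*} [DecidableEq ι] [Fintype ρ] [DecidableEq ρ] {s : ι → ℕ} {c : ρ → ι}
  {Q : Set (ι → ℕ)}

omit [DecidableEq ρ] in
theorem isUpperSet_Bcop (hQ : ∀ l ∈ Q, ∀ l' ≤ l, l' ∈ Q) : IsUpperSet (Bcop s c Q) := by
  intro F F' hFF' hF hF'
  apply hF
  apply hQ _ hF'
  apply prof_mono
  intro k
  rw [top_le_iff]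
  intro i hi
  apply le_top (φ := fun i => F' ⟨k, i⟩)
  have := hFF' ⟨k, i⟩
  show F' ⟨k, i⟩ ≠ 0
  omega

omit [DecidableEq ρ] in
theorem radSet_Bcop (hQ : ∀ l ∈ Q, ∀ l' ≤ l, l' ∈ Q) : RadSet (Bcop s c Q) := by
  intro F n hn hF hF'
  apply hF
  apply hQ _ hF'
  apply prof_mono
  intro k
  rw [top_le_iff]
  intro i hi
  apply le_top (φ := fun i => F ⟨k, i⟩)
  intro h0
  apply hi
  show n • F ⟨k, i⟩ = 0
  rw [h0, smul_zero]

theorem borelSet_Bcop (hQ : ∀ l ∈ Q, ∀ l' ≤ l, l' ∈ Q) :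
    BorelSet (Sigma.fst : Cop s c → ρ) (fun p => (p.2 : ℕ)) (Bcop s c Q) := by
  classical
  rintro F hF ⟨k, i⟩ ⟨k', i'⟩ hk hlt hF'
  have hk' : k = k' := hk
  subst hk'
  have hlt' : (i : ℕ) < (i' : ℕ) := hlt
  apply hF
  apply hQ _ hF'
  apply prof_mono
  intro k0
  rw [top_le_iff]
  intro i0 hi0
  by_cases heq : (⟨k0, i0⟩ : Cop s c) = ⟨k, i⟩
  · have hk0 : k0 = k := congrArg Sigma.fst heq
    subst hk0
    have hi0' : i0 = i := by
      have := (Sigma.mk.inj_iff.1 heq).2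
      exact eq_of_heq this
    subst hi0'
    refine le_trans hlt'.le ?_
    apply le_top (φ := fun i => (F.erase (⟨k0, i0⟩ : Cop s c) +
      Finsupp.single (⟨k0, i'⟩ : Cop s c) (F ⟨k0, i0⟩)) ⟨k0, i⟩)
    rw [Finsupp.add_apply, Finsupp.single_eq_same]
    omega
  · apply le_top (φ := fun i₁ => (F.erase (⟨k, i⟩ : Cop s c) +
      Finsupp.single (⟨k, i'⟩ : Cop s c) (F ⟨k, i⟩)) ⟨k0, i₁⟩)
    rw [Finsupp.add_apply, Finsupp.erase_ne heq]
    omega

omit [DecidableEq ι] [Fintype ρ] [DecidableEq ρ] in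
theorem injBlocks_cop : InjBlocks (Sigma.fst : Cop s c → ρ) (fun p => (p.2 : ℕ)) := by
  rintro ⟨k, i⟩ ⟨k', i'⟩ hk hi
  have hk' : k = k' := hk
  subst hk'
  have : i = i' := Fin.ext hi
  rw [this]

end bcop

/-! ### Splitting exponents -/

section split

variable {X ι ρ : Type*} {b : X → ι} {κ : X → ℕ} {s : ι → ℕ}

/-- the projection to one copy -/
def gam (s : ι → ℕ) (c : ρ → ι) (p : Cop s c) : Cop s (id : ι → ι) := ⟨c p.1, p.2⟩

theorem exists_split (c : ρ → ι) (n : ℕ) :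
    ∀ (u : ρ →₀ ℕ) (G : Cop s (id : ι → ι) →₀ ℕ), u.degree = n →
      mdeg Sigma.fst G = mdeg c u →
      ∃ e : Cop s c →₀ ℕ, mdeg Sigma.fst e = u ∧ e.mapDomain (gam s c) = G := by
  classical
  induction n with
  | zero =>
    intro u G hu hG
    have hu0 : u = 0 := (Finsupp.degree_eq_zero_iff u).1 hu
    subst hu0
    have hG0 : G = 0 := by
      have h1 : mdeg Sigma.fst G = 0 := by
        rw [hG]; exact Finsupp.mapDomain_zero
      ext p
      have h2 := le_mdeg_apply Sigma.fst G p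
      rw [h1] at h2
      simpa using h2
    subst hG0
    exact ⟨0, Finsupp.mapDomain_zero, Finsupp.mapDomain_zero⟩
  | succ n ih =>
    intro u G hu hG
    have hu0 : u ≠ 0 := by
      rintro rfl
      simp at hu
    obtain ⟨k, hk⟩ := Finsupp.ne_iff.1 hu0
    rw [Finsupp.zero_apply] at hk
    have hle : Finsupp.single k 1 ≤ u := by
      rw [Finsupp.single_le_iff]; omega
    obtain ⟨u', hu'⟩ := exists_add_of_le hle
    have hGk : mdeg Sigma.fst G (c k) ≠ 0 := by
      rw [hG]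
      have := le_mdeg_apply c u k
      omega
    have hex : ∃ i : Fin (s (c k) + 1), G (⟨c k, i⟩ : Cop s (id : ι → ι)) ≠ 0 := by
      by_contra hcon
      push Not at hcon
      apply hGk
      rw [mdeg, Finsupp.mapDomain, Finsupp.sum_apply, Finsupp.sum]
      apply Finset.sum_eq_zero
      rintro ⟨j, i⟩ hp
      rw [Finsupp.single_apply, if_neg]
      intro hj
      have hj' : j = c k := hj
      subst hj'
      exact (Finsupp.mem_support_iff.1 hp) (hcon i)
    obtain ⟨i, hi⟩ := hex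
    have hle2 : Finsupp.single (⟨c k, i⟩ : Cop s (id : ι → ι)) 1 ≤ G := by
      rw [Finsupp.single_le_iff]; omega
    obtain ⟨G', hG'⟩ := exists_add_of_le hle2
    have hdeg : u'.degree = n := by
      have := congrArg Finsupp.degree hu'
      rw [hu, map_add, Finsupp.degree_single] at this
      omega
    have hG'' : mdeg Sigma.fst G' = mdeg c u' := by
      have h1 := hG
      rw [hG', hu', mdeg_add, mdeg_add, mdeg_single, mdeg_single] at h1
      exact add_left_cancel h1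
    obtain ⟨e, he1, he2⟩ := ih u' G' hdeg hG''
    refine ⟨Finsupp.single ⟨k, i⟩ 1 + e, ?_, ?_⟩
    · rw [mdeg_add, mdeg_single, he1, hu']
    · rw [Finsupp.mapDomain_add, Finsupp.mapDomain_single, he2, hG']
      rfl

theorem exists_pad (h : EnumBlocks b κ s) [Finite X] [Finite ι] (G : Cop s (id : ι → ι) →₀ ℕ) :
    ∃ (m : X →₀ ℕ) (v : ι →₀ ℕ), pad h.lt m v = G := by
  refine ⟨Finsupp.equivFunOnFinite.symm (fun x => G (jX h.lt x)),
    Finsupp.equivFunOnFinite.symm (fun j => G (zX s j)), ?_⟩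
  ext p
  rcases cases_cop h p with ⟨x, rfl⟩ | ⟨j, rfl⟩
  · rw [pad_jX h]; rfl
  · rw [pad_zX h]; rfl

open Classical in
/-- the exponent of the image of a variable -/
noncomputable def mu (h : EnumBlocks b κ s) (p : Cop s (id : ι → ι)) : X →₀ ℕ :=
  if hp : (p.2 : ℕ) ≠ 0 then Finsupp.single (exists_jX h p.1 p.2 hp).choose 1 else 0

theorem mu_jX (h : EnumBlocks b κ s) (x : X) : mu h (jX h.lt x) = Finsupp.single x 1 := by
  have hp : ((jX h.lt x).2 : ℕ) ≠ 0 := Nat.succ_ne_zero _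
  rw [mu, dif_pos hp]
  congr 1
  exact jX_injective h (exists_jX h _ _ hp).choose_spec.2.2

theorem mu_zX (h : EnumBlocks b κ s) (j : ι) : mu h (zX s j) = 0 := by
  have hp : ¬ ((zX s j).2 : ℕ) ≠ 0 := fun h => h rfl
  rw [mu, dif_neg hp]

/-- the exponent of the image of a monomial -/
noncomputable def muHat {E : Type*} (f : E → (X →₀ ℕ)) (e : E →₀ ℕ) : X →₀ ℕ :=
  e.sum (fun p n => n • f p)

theorem muHat_add {E : Type*} (f : E → (X →₀ ℕ)) (e e' : E →₀ ℕ) :
    muHat f (e + e') = muHat f e + muHat f e' := by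
  classical
  unfold muHat
  exact Finsupp.sum_add_index' (fun _ => zero_smul _ _) (fun _ _ _ => add_smul _ _ _)

theorem muHat_mapDomain {E E' : Type*} (f : E' → (X →₀ ℕ)) (g : E → E') (e : E →₀ ℕ) :
    muHat f (e.mapDomain g) = muHat (f ∘ g) e := by
  unfold muHat
  exact Finsupp.sum_mapDomain_index (fun _ => zero_smul _ _) (fun _ _ _ => add_smul _ _ _)

theorem muHat_pad (h : EnumBlocks b κ s) (m : X →₀ ℕ) (v : ι →₀ ℕ) :
    muHat (mu h) (pad h.lt m v) = m := by
  rw [pad, muHat_add, muHat_mapDomain, muHat_mapDomain]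
  have h1 : muHat (mu h ∘ jX h.lt) m = m := by
    unfold muHat
    have : (fun (p : X) (n : ℕ) => n • (mu h ∘ jX h.lt) p) = fun p n => Finsupp.single p n := by
      funext p n
      rw [Function.comp_apply, mu_jX, Finsupp.smul_single, smul_eq_mul, mul_one]
    rw [this, Finsupp.sum_single]
  have h2 : muHat (mu h ∘ zX s) v = 0 := by
    unfold muHat
    rw [Finsupp.sum]
    apply Finset.sum_eq_zero
    intro j _
    rw [Function.comp_apply, mu_zX, smul_zero]
  rw [h1, h2, add_zero]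

end split

end Pool.Agent.CS
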