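import Pool.Agent.Lib.MP_293f2a_ag.Part15

namespace Pool.Agent.CS

open MvPolynomial
open scoped MonomialOrder

variable {K : Type*} [Field K] {X ι ρ : Type*} {b : X → ι} {κ : X → ℕ} {s : ι → ℕ}

/-- exponents of the images of the variables -/
noncomputable def muc (h : EnumBlocks b κ s) (c : ρ → ι) (p : Cop s c) : X →₀ ℕ :=
  mu h (gam s c p)

theorem aeval_monomial_monomial {E : Type*} (f : E → (X →₀ ℕ)) (e : E →₀ ℕ) (a : K) :
    aeval (fun p => monomial (f p) (1 : K)) (monomial e a) = monomial (muHat f e) a := by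
  classical
  rw [aeval_monomial, muHat, MvPolynomial.algebraMap_eq]
  have : (e.prod fun i k => (monomial (f i) (1 : K)) ^ k) =
      monomial (e.sum fun p n => n • f p) 1 := by
    rw [Finsupp.prod, Finsupp.sum]
    simp only [monomial_pow, one_pow]
    rw [← MvPolynomial.monomial_sum_one]
  rw [this, C_mul_monomial, mul_one]

/-- the projection of the multi-diagonal ring to `K[X]` -/
noncomputable def piHat (K : Type*) [Field K] (h : EnumBlocks b κ s) (c : ρ → ι) :
    MvPolynomial (Cop s c) K →ₐ[K] MvPolynomial X K :=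
  aeval (fun p => monomial (muc h c p) 1)

theorem piHat_monomial (h : EnumBlocks b κ s) (c : ρ → ι) (e : Cop s c →₀ ℕ) (a : K) :
    piHat K h c (monomial e a) = monomial (muHat (muc h c) e) a :=
  aeval_monomial_monomial _ _ _

/-- the map defining the multi-diagonal ideal -/
noncomputable def Phi (K : Type*) [Field K] (h : EnumBlocks b κ s) (c : ρ → ι) :
    MvPolynomial (Cop s c) K →ₐ[K] MvPolynomial ρ (MvPolynomial X K) :=
  aeval (fun p => monomial (Finsupp.single p.1 1) (monomial (muc h c p) 1))

theorem Phi_monomial (h : EnumBlocks b κ s) (c : ρ → ι) (e : Cop s c →₀ ℕ) (a : K) :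
    Phi K h c (monomial e a) =
      monomial (mdeg Sigma.fst e) (monomial (muHat (muc h c) e) a) := by
  classical
  have h1 : (e.prod fun p k => (monomial (Finsupp.single p.1 1)
      (monomial (muc h c p) (1 : K)) : MvPolynomial ρ (MvPolynomial X K)) ^ k) =
      monomial (mdeg Sigma.fst e) (monomial (muHat (muc h c) e) 1) := by
    induction e using Finsupp.induction with
    | zero =>
      rw [Finsupp.prod_zero_index]
      have h1 : mdeg (Sigma.fst : Cop s c → ρ) 0 = 0 := Finsupp.mapDomain_zero
      have h2 : muHat (muc h c) 0 = 0 := Finsupp.sum_zero_index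
      rw [h1, h2]
      rfl
    | single_add p n e hp hn ih =>
      have hs : ((Finsupp.single p n).prod fun p k => (monomial (Finsupp.single p.1 1)
          (monomial (muc h c p) (1 : K)) : MvPolynomial ρ (MvPolynomial X K)) ^ k) =
          (monomial (Finsupp.single p.1 1)
          (monomial (muc h c p) (1 : K)) : MvPolynomial ρ (MvPolynomial X K)) ^ n :=
        Finsupp.prod_single_index (pow_zero _)
      have this : muHat (muc h c) (Finsupp.single p n) = n • muc h c p :=
        Finsupp.sum_single_index (zero_smul ℕ _)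
      rw [Finsupp.prod_add_index' (fun _ => pow_zero _) (fun _ _ _ => pow_add _ _ _),
        hs, ih, mdeg_add, mdeg_single, muHat_add,
        monomial_pow, monomial_pow, one_pow, monomial_mul, monomial_mul, one_mul,
        Finsupp.smul_single, smul_eq_mul, mul_one, this]
  rw [Phi, aeval_monomial, h1]
  have h2 : (algebraMap K (MvPolynomial ρ (MvPolynomial X K))) a = C (C a) := rfl
  rw [h2, C_mul_monomial, C_mul_monomial, mul_one]

theorem comp_monomial [DecidableEq ρ] {Y : Type*} (b' : Y → ρ) (u : ρ →₀ ℕ) (e : Y →₀ ℕ)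
    (a : K) : comp b' u (monomial e a) = if mdeg b' e = u then monomial e a else 0 := by
  classical
  ext d
  rw [coeff_comp]
  by_cases hd : e = d
  · subst hd
    split_ifs with h1 <;> simp
  · rw [coeff_monomial, if_neg hd, ite_self]
    split_ifs
    · rw [coeff_monomial, if_neg hd]
    · rw [coeff_zero]

theorem coeff_Phi (h : EnumBlocks b κ s) (c : ρ → ι) (F : MvPolynomial (Cop s c) K)
    (u : ρ →₀ ℕ) : coeff u (Phi K h c F) = piHat K h c (comp Sigma.fst u F) := by
  classical
  induction F using MvPolynomial.induction_on' with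
  | monomial e a =>
    rw [Phi_monomial, coeff_monomial, comp_monomial]
    split_ifs with h1
    · rw [piHat_monomial]
    · rw [map_zero]
  | add p q hp hq => rw [map_add, coeff_add, hp, hq, map_add, map_add]

/-- the multi-diagonal ideal -/
noncomputable def diagIdeal (h : EnumBlocks b κ s) (c : ρ → ι) (I : Ideal (MvPolynomial X K)) :
    Ideal (MvPolynomial (Cop s c) K) :=
  (I.map (C : MvPolynomial X K →+* MvPolynomial ρ (MvPolynomial X K))).comap (Phi K h c)

theorem mem_diagIdeal (h : EnumBlocks b κ s) (c : ρ → ι) {I : Ideal (MvPolynomial X K)}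
    {F : MvPolynomial (Cop s c) K} :
    F ∈ diagIdeal h c I ↔ ∀ u, piHat K h c (comp Sigma.fst u F) ∈ I := by
  rw [diagIdeal, Ideal.mem_comap, MvPolynomial.mem_map_C_iff]
  constructor
  · intro h1 u
    rw [← coeff_Phi]
    exact h1 u
  · intro h1 u
    have := h1 u
    rw [← coeff_Phi] at this
    exact this

theorem isMultigraded_diagIdeal (h : EnumBlocks b κ s) (c : ρ → ι)
    (I : Ideal (MvPolynomial X K)) : IsMultigraded (Sigma.fst : Cop s c → ρ) (diagIdeal h c I) := by
  intro F hF u
  rw [mem_diagIdeal] at hF ⊢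
  intro v
  by_cases huv : v = u
  · subst huv
    have : comp Sigma.fst v (comp Sigma.fst v F) = comp Sigma.fst v F :=
      comp_of_mem (comp_mem _ _ _)
    rw [show (weightedHomogeneousComponent (fun x : Cop s c => Finsupp.single x.1 (1 : ℕ)) v) F =
      comp Sigma.fst v F from rfl, this]
    exact hF v
  · rw [show (weightedHomogeneousComponent (fun x : Cop s c => Finsupp.single x.1 (1 : ℕ)) u) F =
      comp Sigma.fst u F from rfl, comp_of_mem_ne (comp_mem _ _ _) huv, map_zero]
    exact I.zero_mem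

/-! ### Dimension counts -/

/-- The exponents of degree at most `w` -/
def Mle (b : X → ι) (w : ι →₀ ℕ) : Set (X →₀ ℕ) := {m | mdeg b m ≤ w}

theorem finite_Mle [Finite X] (b : X → ι) (w : ι →₀ ℕ) : (Mle b w).Finite := by
  classical
  apply (Set.finite_Icc 0 (Finsupp.equivFunOnFinite.symm (fun x => w (b x)))).subset
  intro e he
  refine ⟨bot_le, fun x => ?_⟩
  have h1 := le_mdeg_apply b e x
  have h2 : mdeg b e (b x) ≤ w (b x) := he (b x)
  show e x ≤ w (b x)
  omega

theorem ncard_le_of_eq [Finite X] [DecidableEq X] {b : X → ι} {P B : Set (X →₀ ℕ)}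
    (h : ∀ v, (P ∩ Mset b v).ncard = (B ∩ Mset b v).ncard) (w : ι →₀ ℕ) :
    (P ∩ Mle b w).ncard = (B ∩ Mle b w).ncard := by
  classical
  have key : ∀ P : Set (X →₀ ℕ), (P ∩ Mle b w).ncard =
      ∑ v ∈ Finset.Icc (0 : ι →₀ ℕ) w, (P ∩ Mset b v).ncard := by
    intro P
    have hfin : (P ∩ Mle b w).Finite := (finite_Mle b w).subset Set.inter_subset_right
    rw [Set.ncard_eq_toFinset_card _ hfin]
    rw [Finset.card_eq_sum_card_fiberwise (f := mdeg b) (t := Finset.Icc (0 : ι →₀ ℕ) w)]
    · apply Finset.sum_congr rfl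
      intro v hv
      rw [Finset.mem_Icc] at hv
      have hfin2 : (P ∩ Mset b v).Finite := (finite_Mset b v).subset Set.inter_subset_right
      rw [Set.ncard_eq_toFinset_card _ hfin2]
      congr 1
      ext m
      rw [Finset.mem_filter, Set.Finite.mem_toFinset, Set.Finite.mem_toFinset]
      constructor
      · rintro ⟨⟨h1, h2⟩, h3⟩
        exact ⟨h1, h3⟩
      · rintro ⟨h1, h2⟩
        have h2' : mdeg b m = v := h2
        refine ⟨⟨h1, ?_⟩, h2'⟩
        show mdeg b m ≤ w
        rw [h2']
        exact hv.2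
    · intro m hm
      have hm' := (Set.Finite.mem_toFinset hfin).1 hm
      rw [Finset.mem_coe, Finset.mem_Icc]
      exact ⟨bot_le, hm'.2⟩
  rw [key, key]
  exact Finset.sum_congr rfl (fun v _ => h v)

theorem LM_partle {σ : MonomialOrder X} {b : X → ι} {I : Ideal (MvPolynomial X K)}
    (hI : IsMultigraded b I) (w : ι →₀ ℕ) :
    LM σ (I.restrictScalars K ⊓ restrictSupport K (Mle b w)) = LMI σ I ∩ Mle b w := by
  ext e
  constructor
  · rintro ⟨f, hf, hf0, rfl⟩
    exact ⟨⟨f, hf.1, hf0, rfl⟩,
      ((mem_restrictSupport_iff K).1 hf.2) (σ.degree_mem_support hf0)⟩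
  · rintro ⟨he, hw⟩
    have h1 : e ∈ LMI σ I ∩ Mset b (mdeg b e) := ⟨he, rfl⟩
    rw [LMI_inter hI] at h1
    obtain ⟨f, hf, hf0, hdeg⟩ := h1
    refine ⟨f, ⟨hf.1, ?_⟩, hf0, hdeg⟩
    refine (mem_restrictSupport_iff K).2 ?_
    intro d hd
    have h2 : mdeg b d = mdeg b e := ((mem_restrictSupport_iff K).1 hf.2) hd
    show mdeg b d ≤ w
    rw [h2]
    exact hw

theorem finrank_restrictSupport {Y : Type*} {A : Set (Y →₀ ℕ)} :
    Module.finrank K (restrictSupport K A) = A.ncard := by
  rw [Module.finrank_eq_nat_card_basis (basisRestrictSupport K A), Nat.card_coe_set_eq]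

theorem finrank_partle [Finite X] [DecidableEq X] {b : X → ι} {I : Ideal (MvPolynomial X K)}
    (hI : IsMultigraded b I) {B : Set (X →₀ ℕ)}
    (hB : ∀ u, Module.finrank K (part b u I) = (B ∩ Mset b u).ncard) (w : ι →₀ ℕ) :
    Module.finrank K
      (I.restrictScalars K ⊓ restrictSupport K (Mle b w) : Submodule K (MvPolynomial X K)) =
      (B ∩ Mle b w).ncard := by
  obtain ⟨σ, -⟩ := exists_order (X := X) (fun _ => 0)
  rw [← ncard_LM (σ := σ) (finite_Mle b w) inf_le_right, LM_partle hI]
  apply ncard_le_of_eq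
  intro v
  rw [← hB, ncard_LMI hI]

end Pool.Agent.CS
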