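import Pool.Agent.Lib.MP_293f2a_ag.Part16

namespace Pool.Agent.CS

open MvPolynomial
open scoped MonomialOrder

variable {K : Type*} [Field K] {X ι ρ : Type*} {b : X → ι} {κ : X → ℕ} {s : ι → ℕ}

theorem mdeg_gam (c : ρ → ι) (e : Cop s c →₀ ℕ) :
    mdeg Sigma.fst (e.mapDomain (gam s c)) = mdeg c (mdeg Sigma.fst e) := by
  rw [mdeg, mdeg, mdeg, ← Finsupp.mapDomain_comp, ← Finsupp.mapDomain_comp]
  rfl

theorem muHat_muc (h : EnumBlocks b κ s) (c : ρ → ι) (e : Cop s c →₀ ℕ) :
    muHat (muc h c) e = muHat (mu h) (e.mapDomain (gam s c)) := by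
  rw [muHat_mapDomain]
  rfl

theorem mdeg_muHat_le [Finite X] [Finite ι] (h : EnumBlocks b κ s) (c : ρ → ι)
    (e : Cop s c →₀ ℕ) : mdeg b (muHat (muc h c) e) ≤ mdeg c (mdeg Sigma.fst e) := by
  obtain ⟨m, v, hG⟩ := exists_pad h (e.mapDomain (gam s c))
  rw [muHat_muc, ← hG, muHat_pad, ← mdeg_gam, ← hG, mdeg_pad]
  exact le_self_add

theorem exists_preimage [Finite X] [Finite ι] (h : EnumBlocks b κ s) (c : ρ → ι) (u : ρ →₀ ℕ)
    (m : X →₀ ℕ) (hm : mdeg b m ≤ mdeg c u) :
    ∃ e : Cop s c →₀ ℕ, mdeg Sigma.fst e = u ∧ muHat (muc h c) e = m := by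
  obtain ⟨e, he1, he2⟩ := exists_split (s := s) c _ u (pad h.lt m (mdeg c u - mdeg b m)) rfl
    (by rw [mdeg_pad, add_tsub_cancel_of_le hm])
  refine ⟨e, he1, ?_⟩
  rw [muHat_muc, he2, muHat_pad]

theorem map_piHat [Finite X] [Finite ι] (h : EnumBlocks b κ s) (c : ρ → ι) (u : ρ →₀ ℕ) :
    (Sdeg K (Sigma.fst : Cop s c → ρ) u).map (piHat K h c).toLinearMap =
      restrictSupport K (Mle b (mdeg c u)) := by
  classical
  apply le_antisymm
  · rintro _ ⟨F, hF, rfl⟩
    show piHat K h c F ∈ _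
    rw [F.as_sum, map_sum]
    apply Submodule.sum_mem
    intro e he
    rw [piHat_monomial]
    apply (monomial_mem_restrictSupport K).2
    left
    have h1 : mdeg Sigma.fst e = u := ((mem_restrictSupport_iff K).1 hF) he
    have h2 := mdeg_muHat_le h c e
    rw [h1] at h2
    exact h2
  · intro f hf
    rw [f.as_sum]
    apply Submodule.sum_mem
    intro m hm
    have h1 : mdeg b m ≤ mdeg c u := ((mem_restrictSupport_iff K).1 hf) hm
    obtain ⟨e, he1, he2⟩ := exists_preimage h c u m h1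
    refine ⟨monomial e (coeff m f), (monomial_mem_restrictSupport K).2 (Or.inl he1), ?_⟩
    show piHat K h c _ = _
    rw [piHat_monomial, he2]

/-- Linear algebra: dimension of a preimage. -/
theorem finrank_preimage {V W : Type*} [AddCommGroup V] [Module K V] [AddCommGroup W]
    [Module K W] (L : V →ₗ[K] W) (S : Submodule K V) (I : Submodule K W)
    [FiniteDimensional K S] :
    Module.finrank K (S ⊓ I.comap L : Submodule K V) + Module.finrank K (S.map L) =
      Module.finrank K S + Module.finrank K (I ⊓ S.map L : Submodule K W) := by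
  have e1 := LinearMap.finrank_range_add_finrank_ker ((I.mkQ.comp L).domRestrict S)
  have e2 := LinearMap.finrank_range_add_finrank_ker (I.mkQ.domRestrict (S.map L))
  have hr : LinearMap.range ((I.mkQ.comp L).domRestrict S) =
      LinearMap.range (I.mkQ.domRestrict (S.map L)) := by
    rw [LinearMap.range_domRestrict, LinearMap.range_domRestrict, Submodule.map_comp]
  have k1 : (LinearMap.ker ((I.mkQ.comp L).domRestrict S)).map S.subtype =
      S ⊓ I.comap L := by
    ext v
    constructor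
    · rintro ⟨w, hw, rfl⟩
      refine ⟨w.2, ?_⟩
      rw [SetLike.mem_coe, LinearMap.mem_ker] at hw
      have h3 : I.mkQ (L w) = 0 := hw
      rwa [← LinearMap.mem_ker, Submodule.ker_mkQ] at h3
    · rintro ⟨h1, h2⟩
      refine ⟨⟨v, h1⟩, ?_, rfl⟩
      rw [SetLike.mem_coe, LinearMap.mem_ker]
      show I.mkQ (L v) = 0
      rw [← LinearMap.mem_ker, Submodule.ker_mkQ]
      exact h2
  have k2 : (LinearMap.ker (I.mkQ.domRestrict (S.map L))).map (S.map L).subtype =
      I ⊓ S.map L := by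
    ext v
    constructor
    · rintro ⟨w, hw, rfl⟩
      refine ⟨?_, w.2⟩
      rw [SetLike.mem_coe, LinearMap.mem_ker] at hw
      have h3 : I.mkQ w = 0 := hw
      rwa [← LinearMap.mem_ker, Submodule.ker_mkQ] at h3
    · rintro ⟨h1, h2⟩
      refine ⟨⟨v, h2⟩, ?_, rfl⟩
      rw [SetLike.mem_coe, LinearMap.mem_ker]
      show I.mkQ v = 0
      rw [← LinearMap.mem_ker, Submodule.ker_mkQ]
      exact h1
  have f1 : Module.finrank K (LinearMap.ker ((I.mkQ.comp L).domRestrict S)) =
      Module.finrank K (S ⊓ I.comap L : Submodule K V) := by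
    rw [← k1, Submodule.finrank_map_subtype_eq]
  have f2 : Module.finrank K (LinearMap.ker (I.mkQ.domRestrict (S.map L))) =
      Module.finrank K (I ⊓ S.map L : Submodule K W) := by
    rw [← k2, Submodule.finrank_map_subtype_eq]
  rw [f1, hr] at e1
  rw [f2] at e2
  omega

theorem part_diagIdeal (h : EnumBlocks b κ s) (c : ρ → ι) (I : Ideal (MvPolynomial X K))
    (u : ρ →₀ ℕ) : part Sigma.fst u (diagIdeal h c I) =
      Sdeg K (Sigma.fst : Cop s c → ρ) u ⊓
        (I.restrictScalars K).comap (piHat K h c).toLinearMap := by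
  ext F
  constructor
  · rintro ⟨h1, h2⟩
    refine ⟨h2, ?_⟩
    have h3 : F ∈ diagIdeal h c I := h1
    have h4 := (mem_diagIdeal h c).1 h3 u
    rw [comp_of_mem h2] at h4
    exact h4
  · rintro ⟨h1, h2⟩
    refine ⟨?_, h1⟩
    show F ∈ diagIdeal h c I
    rw [mem_diagIdeal]
    intro v
    by_cases hv : v = u
    · rw [hv, comp_of_mem h1]
      exact h2
    · rw [comp_of_mem_ne h1 hv, map_zero]
      exact I.zero_mem

theorem ncard_split {α : Type*} {A : Set α} (hA : A.Finite) (B : Set α) :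
    (B ∩ A).ncard + Nat.card {x : α // x ∈ A ∧ x ∉ B} = A.ncard := by
  have h1 : Nat.card {x : α // x ∈ A ∧ x ∉ B} = (A \ B).ncard := rfl
  rw [h1, ← Set.ncard_inter_add_ncard_sdiff_eq_ncard A B hA, Set.inter_comm]

/-- The multi-diagonal ideal of a Cartwright–Sturmfels ideal has the Hilbert function of a
radical Borel fixed set. -/
theorem CSData_diagIdeal [Fintype X] [DecidableEq X] [Fintype ι] [DecidableEq ι]
    [Fintype ρ] [DecidableEq ρ] (h : EnumBlocks b κ s) (c : ρ → ι)
    {I : Ideal (MvPolynomial X K)} (hI : IsMultigraded b I) {B : Set (X →₀ ℕ)}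
    (hB : CSData b I κ B) :
    CSData (Sigma.fst : Cop s c → ρ) (diagIdeal h c I) (fun p => (p.2 : ℕ))
      (Bcop s c (Qset b κ B)) := by
  have hQ : ∀ l ∈ Qset b κ B, ∀ l' ≤ l, l' ∈ Qset b κ B :=
    fun l hl l' hle => Qset_lower h hB.upper hB.rad hB.borel hl hle
  refine ⟨injBlocks_cop, isUpperSet_Bcop hQ, radSet_Bcop hQ, borelSet_Bcop hQ, ?_⟩
  intro u
  have hfd : FiniteDimensional K (Sdeg K (Sigma.fst : Cop s c → ρ) u) :=
    finiteDimensional_restrictSupport (finite_Mset _ _)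
  have e1 := finrank_preimage (piHat K h c).toLinearMap (Sdeg K (Sigma.fst : Cop s c → ρ) u)
    (I.restrictScalars K)
  rw [← part_diagIdeal, map_piHat, finrank_restrictSupport, finrank_restrictSupport,
    finrank_partle hI hB.hf] at e1
  have e2 := ncard_split (finite_Mset (Sigma.fst : Cop s c → ρ) u) (Bcop s c (Qset b κ B))
  have e3 : (B ∩ Mle b (mdeg c u)).ncard +
      Nat.card {m : X →₀ ℕ // m ∈ Mle b (mdeg c u) ∧ m ∉ B} = (Mle b (mdeg c u)).ncard :=
    ncard_split (finite_Mle b (mdeg c u)) B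
  have e4 : Nat.card {F : Cop s c →₀ ℕ // F ∈ Mset (Sigma.fst : Cop s c → ρ) u ∧
      F ∉ Bcop s c (Qset b κ B)} = Nat.card {m : X →₀ ℕ // m ∈ Mle b (mdeg c u) ∧ m ∉ B} :=
    card_Bcop h hB.upper hB.rad hB.borel c u
  have e2' : (Bcop s c (Qset b κ B) ∩ Mset (Sigma.fst : Cop s c → ρ) u).ncard +
      Nat.card {m : X →₀ ℕ // m ∈ Mle b (mdeg c u) ∧ m ∉ B} =
      (Mset (Sigma.fst : Cop s c → ρ) u).ncard := by
    rw [← e4]; exact e2
  have e5 : Module.finrank K (part Sigma.fst u (diagIdeal h c I)) +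
      (Mle b (mdeg c u)).ncard = (Mset (Sigma.fst : Cop s c → ρ) u).ncard +
      (B ∩ Mle b (mdeg c u)).ncard := e1
  omega

end Pool.Agent.CS
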