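import Pool.Agent.Lib.MP_293f2a_ag.Part17

namespace Pool.Agent.CS

open MvPolynomial
open scoped MonomialOrder

section enum

variable {X ι : Type*} [Fintype X]

theorem enumBlocks_kap (b : X → ι) (σ : MonomialOrder X) :
    EnumBlocks b (kap b σ) (fun j => Nat.card {x // b x = j}) := by
  classical
  have hlt : ∀ x, kap b σ x < Nat.card {y // b y = b x} := by
    intro x
    rw [Nat.card_eq_fintype_card, Fintype.card_subtype]
    unfold kap
    apply Finset.card_lt_card
    rw [Finset.ssubset_iff_subset_ne]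
    constructor
    · intro y hy
      rw [Finset.mem_filter] at hy ⊢
      exact ⟨hy.1, hy.2.1⟩
    · intro heq
      have : x ∈ Finset.univ.filter (fun y => b y = b x) :=
        Finset.mem_filter.2 ⟨Finset.mem_univ _, rfl⟩
      rw [← heq, Finset.mem_filter] at this
      exact lt_irrefl _ this.2.2
  refine ⟨hlt, injBlocks_kap b σ, ?_⟩
  intro j i hi
  let f : {x // b x = j} → Fin (Nat.card {x // b x = j}) := fun x => ⟨kap b σ x.1, by
    have := hlt x.1
    rw [x.2] at this
    exact this⟩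
  have hf : Function.Injective f := by
    intro x y hxy
    apply Subtype.ext
    apply injBlocks_kap b σ x.1 y.1 (by rw [x.2, y.2])
    exact congrArg Fin.val hxy
  have hbij : Function.Bijective f := by
    rw [Fintype.bijective_iff_injective_and_card]
    exact ⟨hf, by rw [Fintype.card_fin, Nat.card_eq_fintype_card]⟩
  obtain ⟨x, hx⟩ := hbij.2 ⟨i, hi⟩
  exact ⟨x.1, x.2, congrArg Fin.val hx⟩

end enum

variable {K : Type*} [Field K] {X ι ρ : Type*} {b : X → ι} {κ : X → ℕ} {s : ι → ℕ}

/-- the embedding of the variables of the homogenisation into the multi-diagonal ring -/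
def jj (hlt : ∀ x, κ x < s (b x)) (c : ρ → ι) (b' : X → ρ) (hc : ∀ x, c (b' x) = b x) :
    X ⊕ ρ → Cop s c
  | Sum.inl x => ⟨b' x, Fin.cast (by rw [hc x]; rfl) (jX hlt x).2⟩
  | Sum.inr k => ⟨k, ⟨0, Nat.succ_pos _⟩⟩

theorem sigma_cast {j1 j2 : ι} (e : j1 = j2) (i : Fin (s j2 + 1)) :
    (⟨j1, Fin.cast (by rw [e]; rfl) i⟩ : Cop s (id : ι → ι)) = ⟨j2, i⟩ := by
  subst e
  rfl

theorem gam_jj_inl (hlt : ∀ x, κ x < s (b x)) (c : ρ → ι) (b' : X → ρ)
    (hc : ∀ x, c (b' x) = b x) (x : X) :
    gam s c (jj hlt c b' hc (Sum.inl x)) = jX hlt x :=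
  sigma_cast (hc x) (jX hlt x).2

theorem gam_jj_inr (hlt : ∀ x, κ x < s (b x)) (c : ρ → ι) (b' : X → ρ)
    (hc : ∀ x, c (b' x) = b x) (k : ρ) :
    gam s c (jj hlt c b' hc (Sum.inr k)) = zX s (c k) := rfl

theorem jj_fst (hlt : ∀ x, κ x < s (b x)) (c : ρ → ι) (b' : X → ρ)
    (hc : ∀ x, c (b' x) = b x) (p : X ⊕ ρ) :
    (jj hlt c b' hc p).1 = Sum.elim b' id p := by
  rcases p with x | k <;> rfl

theorem jj_injective (h : EnumBlocks b κ s) (c : ρ → ι) (b' : X → ρ)
    (hc : ∀ x, c (b' x) = b x) : Function.Injective (jj h.lt c b' hc) := by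
  intro p q hpq
  have h1 := congrArg (gam s c) hpq
  have h2 := congrArg Sigma.fst hpq
  rw [jj_fst, jj_fst] at h2
  rcases p with x | k <;> rcases q with y | l
  · rw [gam_jj_inl, gam_jj_inl] at h1
    rw [jX_injective h h1]
  · rw [gam_jj_inl, gam_jj_inr] at h1
    exact absurd h1 (jX_ne_zX h.lt x _)
  · rw [gam_jj_inl, gam_jj_inr] at h1
    exact absurd h1.symm (jX_ne_zX h.lt y _)
  · exact congrArg Sum.inr h2

/-- the map defining the homogenisation -/
noncomputable def Psi (K : Type*) [Field K] (b' : X → ρ) :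
    MvPolynomial (X ⊕ ρ) K →ₐ[K] MvPolynomial ρ (MvPolynomial X K) :=
  aeval (Sum.elim (fun x => monomial (Finsupp.single (b' x) 1) (MvPolynomial.X x))
    (fun k => monomial (Finsupp.single k 1) 1))

theorem Phi_rename (h : EnumBlocks b κ s) (c : ρ → ι) (b' : X → ρ)
    (hc : ∀ x, c (b' x) = b x) (F : MvPolynomial (X ⊕ ρ) K) :
    Phi K h c (rename (jj h.lt c b' hc) F) = Psi K b' F := by
  have h1 : (Phi K h c).comp (rename (jj h.lt c b' hc)) = Psi K b' := by
    apply MvPolynomial.algHom_ext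
    intro p
    rw [AlgHom.comp_apply, rename_X, Phi, Psi, aeval_X, aeval_X]
    rcases p with x | k
    · rw [muc, gam_jj_inl, mu_jX]
      rfl
    · rw [muc, gam_jj_inr, mu_zX]
      rfl
  exact DFunLike.congr_fun h1 F

/-- exponent vectors on `X ⊕ ρ` -/
noncomputable def pr (m : X →₀ ℕ) (v : ρ →₀ ℕ) : X ⊕ ρ →₀ ℕ :=
  m.mapDomain Sum.inl + v.mapDomain Sum.inr

theorem exists_pr (e : X ⊕ ρ →₀ ℕ) : ∃ m v, pr m v = e := by
  refine ⟨e.comapDomain Sum.inl Sum.inl_injective.injOn,
    e.comapDomain Sum.inr Sum.inr_injective.injOn, ?_⟩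
  ext p
  rcases p with x | k
  · rw [pr, Finsupp.add_apply, Finsupp.mapDomain_apply Sum.inl_injective,
      Finsupp.mapDomain_of_notMem_range, add_zero]
    · rfl
    · rintro ⟨l, hl⟩; cases hl
  · rw [pr, Finsupp.add_apply, Finsupp.mapDomain_apply Sum.inr_injective,
      Finsupp.mapDomain_of_notMem_range, zero_add]
    · rfl
    · rintro ⟨l, hl⟩; cases hl

theorem mdeg_pr (b' : X → ρ) (m : X →₀ ℕ) (v : ρ →₀ ℕ) :
    mdeg (Sum.elim b' id) (pr m v) = mdeg b' m + v := by
  rw [pr, mdeg_add, mdeg, mdeg, ← Finsupp.mapDomain_comp, ← Finsupp.mapDomain_comp]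
  have h1 : (Sum.elim b' id ∘ Sum.inl : X → ρ) = b' := rfl
  have h2 : (Sum.elim b' id ∘ Sum.inr : ρ → ρ) = id := rfl
  rw [h1, h2, Finsupp.mapDomain_id]
  rfl

theorem monomial_pr (m : X →₀ ℕ) (v : ρ →₀ ℕ) (a : K) :
    (monomial (pr m v) a : MvPolynomial (X ⊕ ρ) K) =
      C a * (rename Sum.inr (monomial v (1 : K)) * rename Sum.inl (monomial m (1 : K))) := by
  rw [rename_monomial, rename_monomial, monomial_mul, C_mul_monomial, mul_one, mul_one, pr,
    add_comm]

theorem Psi_inl_monomial (b' : X → ρ) (m : X →₀ ℕ) (a : K) :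
    Psi K b' (rename Sum.inl (monomial m a)) = monomial (mdeg b' m) (monomial m a) := by
  classical
  rw [Psi, aeval_rename, aeval_monomial]
  have h1 : (m.prod fun i k => (Sum.elim (fun x => monomial (Finsupp.single (b' x) 1)
      (MvPolynomial.X x)) (fun k => monomial (Finsupp.single k 1) 1) ∘ Sum.inl) i ^ k :
      MvPolynomial ρ (MvPolynomial X K)) = monomial (mdeg b' m) (monomial m 1) := by
    induction m using Finsupp.induction with
    | zero =>
      rw [Finsupp.prod_zero_index]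
      have h1 : mdeg b' (0 : X →₀ ℕ) = 0 := Finsupp.mapDomain_zero
      rw [h1]
      rfl
    | single_add x n e hx hn ih =>
      have hs : ((Finsupp.single x n).prod fun i k => (Sum.elim (fun x => monomial
          (Finsupp.single (b' x) 1)
          (MvPolynomial.X x)) (fun k => monomial (Finsupp.single k 1) 1) ∘ Sum.inl) i ^ k :
          MvPolynomial ρ (MvPolynomial X K)) =
          (monomial (Finsupp.single (b' x) 1) (MvPolynomial.X x)) ^ n :=
        Finsupp.prod_single_index (pow_zero _)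
      rw [Finsupp.prod_add_index' (fun _ => pow_zero _) (fun _ _ _ => pow_add _ _ _),
        hs, ih, mdeg_add, mdeg_single, monomial_pow, monomial_mul, X_pow_eq_monomial,
        monomial_mul, one_mul, Finsupp.smul_single, smul_eq_mul, mul_one]
  rw [h1]
  have h2 : (algebraMap K (MvPolynomial ρ (MvPolynomial X K))) a = C (C a) := rfl
  rw [h2, C_mul_monomial, C_mul_monomial, mul_one]

theorem Psi_inr_monomial (b' : X → ρ) (v : ρ →₀ ℕ) :
    Psi K b' (rename Sum.inr (monomial v 1)) = monomial v 1 := by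
  classical
  rw [Psi, aeval_rename, aeval_monomial, map_one, one_mul]
  have h1 : (Sum.elim (fun x => monomial (Finsupp.single (b' x) 1)
      (MvPolynomial.X x)) (fun k => monomial (Finsupp.single k 1) 1) ∘ Sum.inr :
      ρ → MvPolynomial ρ (MvPolynomial X K)) = MvPolynomial.X := by
    funext k
    rfl
  rw [h1]
  rw [monomial_eq, map_one, one_mul]

theorem Psi_monomial (b' : X → ρ) (m : X →₀ ℕ) (v : ρ →₀ ℕ) (a : K) :
    Psi K b' (monomial (pr m v) a) = monomial (mdeg b' m + v) (monomial m a) := by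
  have h1 : (monomial (pr m v) a : MvPolynomial (X ⊕ ρ) K) =
      rename Sum.inr (monomial v (1 : K)) * rename Sum.inl (monomial m a) := by
    rw [rename_monomial, rename_monomial, monomial_mul, one_mul, pr, add_comm]
  rw [h1, map_mul, Psi_inl_monomial, Psi_inr_monomial, monomial_mul, one_mul, add_comm]

end Pool.Agent.CS
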