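import Pool.Agent.Lib.MP_293f2a_ag.Part18

namespace Pool.Agent.CS

open MvPolynomial
open scoped MonomialOrder

variable {K : Type*} [Field K] {X ι ρ : Type*}

/-- the homogenisation of degree `u`, as a linear map -/
noncomputable def Hmap (K : Type*) [Field K] (b' : X → ρ) (u : ρ →₀ ℕ) :
    MvPolynomial X K →ₗ[K] MvPolynomial (X ⊕ ρ) K :=
  (basisMonomials X K).constr K (fun m => monomial (pr m (u - mdeg b' m)) (1 : K))

theorem Hmap_monomial (b' : X → ρ) (u : ρ →₀ ℕ) (m : X →₀ ℕ) (a : K) :
    Hmap K b' u (monomial m a) = monomial (pr m (u - mdeg b' m)) a := by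
  have h1 : (monomial m a : MvPolynomial X K) = a • basisMonomials X K m := by
    rw [coe_basisMonomials, smul_monomial, smul_eq_mul, mul_one]
  rw [h1, map_smul, Hmap, Module.Basis.constr_basis, smul_monomial, smul_eq_mul, mul_one]

theorem comp_eq_Hmap (b' : X → ρ) (u : ρ →₀ ℕ) (F : MvPolynomial (X ⊕ ρ) K) :
    comp (Sum.elim b' id) u F = Hmap K b' u (coeff u (Psi K b' F)) := by
  classical
  induction F using MvPolynomial.induction_on' with
  | monomial e a =>
    obtain ⟨m, v, rfl⟩ := exists_pr e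
    rw [comp_monomial, mdeg_pr, Psi_monomial, coeff_monomial]
    split_ifs with h1
    · rw [Hmap_monomial, ← h1, add_tsub_cancel_left]
    · rw [map_zero]
  | add p q hp hq => rw [map_add, map_add, coeff_add, map_add, hp, hq]

theorem coeff_Psi_mem (b' : X → ρ) (u : ρ →₀ ℕ) (F : MvPolynomial (X ⊕ ρ) K) :
    coeff u (Psi K b' F) ∈ restrictSupport K (Mle b' u) := by
  classical
  induction F using MvPolynomial.induction_on' with
  | monomial e a =>
    obtain ⟨m, v, rfl⟩ := exists_pr e
    rw [Psi_monomial, coeff_monomial]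
    split_ifs with h1
    · apply (monomial_mem_restrictSupport K).2
      left
      show mdeg b' m ≤ u
      rw [← h1]
      exact le_self_add
    · exact Submodule.zero_mem _
  | add p q hp hq =>
    rw [map_add, coeff_add]
    exact Submodule.add_mem _ hp hq

variable [DecidableEq ρ]

theorem mdeg_le_maxDeg (b' : X → ρ) (f : MvPolynomial X K) {m : X →₀ ℕ} (hm : m ∈ f.support) :
    mdeg b' m ≤ maxDeg b' f := Finset.le_sup (f := mdeg b') hm

theorem maxDeg_le (b' : X → ρ) {f : MvPolynomial X K} {u : ρ →₀ ℕ}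
    (hf : f ∈ restrictSupport K (Mle b' u)) : maxDeg b' f ≤ u := by
  apply Finset.sup_le
  intro m hm
  exact ((mem_restrictSupport_iff K).1 hf) hm

theorem Hmap_eq (b' : X → ρ) {f : MvPolynomial X K} {u : ρ →₀ ℕ}
    (hf : f ∈ restrictSupport K (Mle b' u)) :
    Hmap K b' u f = rename Sum.inr (monomial (u - maxDeg b' f) (1 : K)) * hom b' f := by
  classical
  conv_lhs => rw [f.as_sum]
  rw [map_sum, hom, Finset.mul_sum]
  apply Finset.sum_congr rfl
  intro m hm
  rw [Hmap_monomial, monomial_pr]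
  have h1 := mdeg_le_maxDeg b' f hm
  have h2 := maxDeg_le b' hf
  have h3 : u - mdeg b' m = (u - maxDeg b' f) + (maxDeg b' f - mdeg b' m) := by
    rw [tsub_add_tsub_cancel h2 h1]
  have h4 : (rename Sum.inr (monomial (u - mdeg b' m) (1 : K)) : MvPolynomial (X ⊕ ρ) K) =
      rename Sum.inr (monomial (u - maxDeg b' f) (1 : K)) *
        rename Sum.inr (monomial (maxDeg b' f - mdeg b' m) (1 : K)) := by
    rw [← map_mul, monomial_mul, one_mul, ← h3]
  rw [h4]
  ring

theorem Psi_hom (b' : X → ρ) (f : MvPolynomial X K) :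
    Psi K b' (hom b' f) = monomial (maxDeg b' f) f := by
  classical
  rw [hom, map_sum]
  have h1 : ∀ m ∈ f.support, Psi K b' (C (coeff m f) *
      (rename Sum.inr (monomial (maxDeg b' f - mdeg b' m) (1 : K)) *
        rename Sum.inl (monomial m (1 : K)))) =
      monomial (maxDeg b' f) (monomial m (coeff m f)) := by
    intro m hm
    rw [← monomial_pr, Psi_monomial, add_tsub_cancel_of_le (mdeg_le_maxDeg b' f hm)]
  rw [Finset.sum_congr rfl h1, ← map_sum, ← f.as_sum]

omit [DecidableEq ρ] in
/-- If all components of `F` are in `J` then so is `F`. -/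
theorem mem_of_comp {Y : Type*} (b' : Y → ρ) {J : Ideal (MvPolynomial Y K)}
    {F : MvPolynomial Y K} (h : ∀ u, comp b' u F ∈ J) : F ∈ J := by
  rw [← sum_weightedHomogeneousComponent (wt b') F]
  exact finsum_induction (· ∈ J) J.zero_mem (fun _ _ hx hy => J.add_mem hx hy) h

theorem mem_homIdeal (b' : X → ρ) {I : Ideal (MvPolynomial X K)} {F : MvPolynomial (X ⊕ ρ) K} :
    F ∈ homIdeal b' I ↔ ∀ u, coeff u (Psi K b' F) ∈ I := by
  classical
  constructor
  · intro hF
    have h1 : homIdeal b' I ≤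
        (I.map (C : MvPolynomial X K →+* MvPolynomial ρ (MvPolynomial X K))).comap (Psi K b') := by
      rw [homIdeal, Ideal.span_le]
      rintro g ⟨f, hf, -, rfl⟩
      rw [SetLike.mem_coe, Ideal.mem_comap, MvPolynomial.mem_map_C_iff]
      intro u
      rw [Psi_hom, coeff_monomial]
      split_ifs
      · exact hf
      · exact I.zero_mem
    have h2 := h1 hF
    rw [Ideal.mem_comap, MvPolynomial.mem_map_C_iff] at h2
    exact h2
  · intro h
    apply mem_of_comp (Sum.elim b' id)
    intro u
    rw [comp_eq_Hmap]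
    by_cases h0 : coeff u (Psi K b' F) = 0
    · rw [h0, map_zero]
      exact Ideal.zero_mem _
    · rw [Hmap_eq b' (coeff_Psi_mem b' u F)]
      apply Ideal.mul_mem_left
      exact Ideal.subset_span ⟨_, h u, h0, rfl⟩

theorem isMultigraded_homIdeal (b' : X → ρ) (I : Ideal (MvPolynomial X K)) :
    IsMultigraded (Sum.elim b' id) (homIdeal b' I) := by
  intro F hF u
  rw [mem_homIdeal] at hF
  show comp (Sum.elim b' id) u F ∈ _
  rw [comp_eq_Hmap]
  by_cases h0 : coeff u (Psi K b' F) = 0
  · rw [h0, map_zero]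
    exact Ideal.zero_mem _
  · rw [Hmap_eq b' (coeff_Psi_mem b' u F)]
    apply Ideal.mul_mem_left
    exact Ideal.subset_span ⟨_, hF u, h0, rfl⟩

theorem coeff_Psi_inl (b' : X → ρ) (f : MvPolynomial X K) (u : ρ →₀ ℕ) :
    coeff u (Psi K b' (rename Sum.inl f)) = comp b' u f := by
  classical
  induction f using MvPolynomial.induction_on' with
  | monomial m a =>
    rw [Psi_inl_monomial, coeff_monomial, comp_monomial]
  | add p q hp hq => rw [map_add, map_add, coeff_add, map_add, hp, hq]

theorem mem_homogPart (b' : X → ρ) {I : Ideal (MvPolynomial X K)} {f : MvPolynomial X K} :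
    f ∈ homogPart b' I ↔ ∀ u, comp b' u f ∈ I := by
  classical
  constructor
  · intro hf u
    have h1 : homogPart b' I ≤ (homIdeal b' I).comap (rename Sum.inl) := by
      rw [homogPart, Ideal.span_le]
      rintro g ⟨hg, v, hgv⟩
      rw [SetLike.mem_coe, Ideal.mem_comap, mem_homIdeal]
      intro w
      rw [coeff_Psi_inl]
      have hg' : g ∈ Sdeg K b' v := mem_Sdeg.2 hgv
      by_cases hw : w = v
      · rw [hw, comp_of_mem hg']
        exact hg
      · rw [comp_of_mem_ne hg' hw]
        exact I.zero_mem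
    have h2 := h1 hf
    rw [Ideal.mem_comap, mem_homIdeal] at h2
    have h3 := h2 u
    rw [coeff_Psi_inl] at h3
    exact h3
  · intro h
    apply mem_of_comp b'
    intro u
    exact Ideal.subset_span ⟨h u, u, mem_Sdeg.1 (comp_mem b' u f)⟩

theorem homogPart_eq_comap (b' : X → ρ) (I : Ideal (MvPolynomial X K)) :
    homogPart b' I = (homIdeal b' I).comap (rename Sum.inl) := by
  ext f
  rw [Ideal.mem_comap, mem_homIdeal, mem_homogPart]
  simp only [coeff_Psi_inl]

theorem isMultigraded_homogPart (b' : X → ρ) (I : Ideal (MvPolynomial X K)) :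
    IsMultigraded b' (homogPart b' I) := by
  intro f hf u
  rw [mem_homogPart] at hf
  exact Ideal.subset_span ⟨hf u, u, mem_Sdeg.1 (comp_mem b' u f)⟩

theorem homIdeal_eq_comap {b : X → ι} {κ : X → ℕ} {s : ι → ℕ} (h : EnumBlocks b κ s)
    (c : ρ → ι) (b' : X → ρ) (hc : ∀ x, c (b' x) = b x) (I : Ideal (MvPolynomial X K)) :
    homIdeal b' I = (diagIdeal h c I).comap (rename (jj h.lt c b' hc)) := by
  ext F
  rw [mem_homIdeal, Ideal.mem_comap, diagIdeal, Ideal.mem_comap, MvPolynomial.mem_map_C_iff,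
    Phi_rename]

section final

universe uX uI uR uK v w

theorem strongCS_homIdeal {K : Type uK} [Field K] [Infinite K] {X : Type uX} {ι : Type uI}
    {ρ : Type uR} [Fintype X] [DecidableEq X] [Fintype ι] [DecidableEq ι] [Fintype ρ]
    [DecidableEq ρ] {b : X → ι} {κ : X → ℕ} {s : ι → ℕ} (h : EnumBlocks b κ s) (c : ρ → ι)
    (b' : X → ρ) (hc : ∀ x, c (b' x) = b x)
    {I : Ideal (MvPolynomial X K)} (hI : IsMultigraded b I) {B : Set (X →₀ ℕ)}
    (hB : CSData b I κ B) :
    StrongCS.{max uX uR, w} (Sum.elim b' id) (homIdeal b' I) := by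
  have hD2 : IsMultigraded (Sigma.fst : Cop s c → ρ) (diagIdeal h c I) :=
    isMultigraded_diagIdeal h c I
  have hD3 : StrongCS.{uR, max uR w} (Sigma.fst : Cop s c → ρ) (diagIdeal h c I) :=
    strongCS_of_CSData hD2 (CSData_diagIdeal h c hI hB)
  have hD4 : StrongCS.{max uX uR, w} (Sum.elim b' id)
      ((diagIdeal h c I).comap (rename (jj h.lt c b' hc))) := by
    apply strongCS_comap (jj h.lt c b' hc) (jj_injective h c b' hc) _ hD3
    intro p q hpq
    rw [jj_fst, jj_fst, hpq]
  rw [homIdeal_eq_comap h c b' hc I]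
  exact hD4

theorem strongCS_homogPart {K : Type uK} [Field K] {X : Type uX}
    {ρ : Type uR} [Fintype X] [DecidableEq X] [Fintype ρ]
    [DecidableEq ρ] (b' : X → ρ) {I : Ideal (MvPolynomial X K)}
    (h : StrongCS.{max uX uR, max uX uR w} (Sum.elim b' id) (homIdeal b' I)) :
    StrongCS.{uX, w} b' (homogPart b' I) := by
  rw [homogPart_eq_comap]
  apply strongCS_comap Sum.inl Sum.inl_injective _ h
  intro x y hxy
  exact hxy

/-- Main theorem, general form. -/
theorem main {K : Type uK} [Field K] [Infinite K] {X : Type uX} {ι : Type uI} {ρ : Type uR}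
    [Fintype X] [DecidableEq X] [Fintype ι] [Nonempty ι] [Fintype ρ] [DecidableEq ρ]
    (b : X → ι) (b' : X → ρ) (hbb : ∀ x y, b' x = b' y → b x = b y)
    (I : Ideal (MvPolynomial X K)) (hI : IsMultigraded b I)
    (σ : MonomialOrder.{uX, v} X) (hCS : IsCS b σ I) :
    (∀ τ : MonomialOrder.{max uX uR, w} (X ⊕ ρ), IsCS (Sum.elim b' id) τ (homIdeal b' I)) ∧
      (∀ τ : MonomialOrder.{uX, w} X, IsCS b' τ (homogPart b' I)) := by
  classical
  obtain ⟨B, hB⟩ := CSData_of_isCS hI hCS
  have hE := enumBlocks_kap b σ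
  let c : ρ → ι := fun k => if h : ∃ x, b' x = k then b h.choose else Classical.arbitrary ι
  have hc : ∀ x, c (b' x) = b x := by
    intro x
    have hex : ∃ y, b' y = b' x := ⟨x, rfl⟩
    have h1 : c (b' x) = b hex.choose := dif_pos hex
    rw [h1]
    exact hbb _ _ hex.choose_spec
  refine ⟨fun τ => ?_, fun τ => ?_⟩
  · exact isCS_of_strongCS (isMultigraded_homIdeal b' I) (strongCS_homIdeal hE c b' hc hI hB) τ
  · exact isCS_of_strongCS (isMultigraded_homogPart b' I)
      (strongCS_homogPart b' (strongCS_homIdeal hE c b' hc hI hB)) τ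

end final

end Pool.Agent.CS
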