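import Pool.Agent.Lib.MP_293f2a_ag.Part1

namespace Pool.Agent.CS

open MvPolynomial
open scoped MonomialOrder

variable {K : Type*} [Field K] {X ι ρ : Type*}

/-! ### Degrees -/

/-- weights of the variables -/
noncomputable abbrev wt (b : X → ι) : X → (ι →₀ ℕ) := fun x => Finsupp.single (b x) (1 : ℕ)

theorem weight_wt (b : X → ι) (e : X →₀ ℕ) : Finsupp.weight (wt b) e = mdeg b e := by
  classical
  rw [mdeg, Finsupp.weight_apply, Finsupp.mapDomain]
  apply Finsupp.sum_congr
  intro x _
  simp

theorem mdeg_add (b : X → ι) (e e' : X →₀ ℕ) : mdeg b (e + e') = mdeg b e + mdeg b e' :=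
  Finsupp.mapDomain_add

theorem mdeg_single (b : X → ι) (x : X) (n : ℕ) :
    mdeg b (Finsupp.single x n) = Finsupp.single (b x) n :=
  Finsupp.mapDomain_single

theorem mdeg_smul (b : X → ι) (n : ℕ) (e : X →₀ ℕ) : mdeg b (n • e) = n • mdeg b e := by
  unfold mdeg
  exact Finsupp.mapDomain_smul n e

theorem mdeg_mono (b : X → ι) {e e' : X →₀ ℕ} (h : e ≤ e') : mdeg b e ≤ mdeg b e' := by
  obtain ⟨d, rfl⟩ := exists_add_of_le h
  rw [mdeg_add]
  exact le_self_add

theorem le_mdeg_apply (b : X → ι) (e : X →₀ ℕ) (x : X) : e x ≤ mdeg b e (b x) := by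
  classical
  by_cases hx : e x = 0
  · rw [hx]; exact Nat.zero_le _
  · have h1 : Finsupp.single x (e x) ≤ e := by
      rw [Finsupp.single_le_iff]
    have h2 := mdeg_mono b h1 (b x)
    rwa [mdeg_single, Finsupp.single_eq_same] at h2

/-- The exponents of multidegree `u`. -/
def Mset (b : X → ι) (u : ι →₀ ℕ) : Set (X →₀ ℕ) := {e | mdeg b e = u}

theorem finite_Mset [Finite X] (b : X → ι) (u : ι →₀ ℕ) : (Mset b u).Finite := by
  classical
  apply (Set.finite_Icc 0 (Finsupp.equivFunOnFinite.symm (fun x => u (b x)))).subset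
  intro e he
  refine ⟨bot_le, fun x => ?_⟩
  have := le_mdeg_apply b e x
  rw [show mdeg b e = u from he] at this
  simpa using this

/-- The homogeneous polynomials of multidegree `u`. -/
noncomputable abbrev Sdeg (K : Type*) [Field K] (b : X → ι) (u : ι →₀ ℕ) :
    Submodule K (MvPolynomial X K) :=
  restrictSupport K (Mset b u)

theorem mem_Sdeg {b : X → ι} {u : ι →₀ ℕ} {f : MvPolynomial X K} :
    f ∈ Sdeg K b u ↔ IsWeightedHomogeneous (wt b) f u := by
  rw [mem_restrictSupport_iff]
  constructor
  · intro h e he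
    rw [weight_wt]
    exact h (mem_support_iff.2 he)
  · intro h e he
    have := h (mem_support_iff.1 he)
    rw [weight_wt] at this
    exact this

/-! ### Linear substitutions -/

variable [Fintype X]

theorem linSubst_X (A : Matrix X X K) (x : X) :
    linSubst A (MvPolynomial.X x) = ∑ y : X, C (A y x) * MvPolynomial.X y := by
  rw [linSubst, aeval_X]

theorem linSubst_mul (A B : Matrix X X K) :
    linSubst (A * B) = (linSubst A).comp (linSubst B) := by
  apply MvPolynomial.algHom_ext
  intro x
  rw [AlgHom.comp_apply, linSubst_X, linSubst_X, map_sum]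
  simp only [map_mul, linSubst_X]
  have hC : ∀ c : K, linSubst A (C c) = C c := fun c => by
    rw [← MvPolynomial.algebraMap_eq, AlgHom.commutes]
  simp only [hC, Finset.mul_sum]
  rw [Finset.sum_comm]
  apply Finset.sum_congr rfl
  intro z _
  rw [Matrix.mul_apply, map_sum, Finset.sum_mul]
  apply Finset.sum_congr rfl
  intro y _
  rw [map_mul]
  ring

theorem linSubst_one [DecidableEq X] : linSubst (1 : Matrix X X K) = AlgHom.id K _ := by
  apply MvPolynomial.algHom_ext
  intro x
  rw [linSubst_X, AlgHom.id_apply, Finset.sum_eq_single x]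
  · simp
  · intro y _ hy
    rw [Matrix.one_apply_ne hy]; simp
  · simp

theorem linSubst_mul_apply (A B : Matrix X X K) (f : MvPolynomial X K) :
    linSubst (A * B) f = linSubst A (linSubst B f) := by
  rw [linSubst_mul]; rfl

variable [DecidableEq X]

theorem linSubst_inv_left {A : Matrix X X K} (hA : A.det ≠ 0) (f : MvPolynomial X K) :
    linSubst A⁻¹ (linSubst A f) = f := by
  rw [← linSubst_mul_apply, Matrix.nonsing_inv_mul _ (isUnit_iff_ne_zero.2 hA), linSubst_one]
  rfl

theorem linSubst_inv_right {A : Matrix X X K} (hA : A.det ≠ 0) (f : MvPolynomial X K) :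
    linSubst A (linSubst A⁻¹ f) = f := by
  rw [← linSubst_mul_apply, Matrix.mul_nonsing_inv _ (isUnit_iff_ne_zero.2 hA), linSubst_one]
  rfl

theorem linSubst_injective {A : Matrix X X K} (hA : A.det ≠ 0) :
    Function.Injective (linSubst A) :=
  Function.LeftInverse.injective (linSubst_inv_left hA)

theorem linSubst_surjective {A : Matrix X X K} (hA : A.det ≠ 0) :
    Function.Surjective (linSubst A) :=
  Function.RightInverse.surjective (linSubst_inv_right hA)

theorem one_mem_BlockGL (b : X → ι) : (1 : Matrix X X K) ∈ BlockGL (K := K) b := by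
  refine ⟨by simp, ?_⟩
  intro x y hxy
  exact Matrix.one_apply_ne (fun h => hxy (by rw [h]))

theorem mul_mem_BlockGL {b : X → ι} {A B : Matrix X X K} (hA : A ∈ BlockGL (K := K) b)
    (hB : B ∈ BlockGL (K := K) b) : A * B ∈ BlockGL (K := K) b := by
  refine ⟨?_, ?_⟩
  · rw [Matrix.det_mul]
    exact mul_ne_zero hA.1 hB.1
  · intro x y hxy
    rw [Matrix.mul_apply]
    apply Finset.sum_eq_zero
    intro z _
    by_cases hxz : b x = b z
    · rw [hB.2 z y (fun h => hxy (hxz.trans h)), mul_zero]
    · rw [hA.2 x z hxz, zero_mul]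

omit [DecidableEq X] in
theorem linSubst_mem_Sdeg {b : X → ι} {A : Matrix X X K}
    (hA : ∀ x y : X, b x ≠ b y → A x y = 0) {u : ι →₀ ℕ}
    {f : MvPolynomial X K} (hf : f ∈ Sdeg K b u) : linSubst A f ∈ Sdeg K b u := by
  classical
  rw [mem_Sdeg] at hf ⊢
  rw [f.as_sum, map_sum]
  apply IsWeightedHomogeneous.sum
  intro e he
  rw [monomial_eq, map_mul]
  have hC : linSubst A (C (coeff e f)) = C (coeff e f) := by
    rw [← MvPolynomial.algebraMap_eq, AlgHom.commutes]
  rw [hC]
  apply IsWeightedHomogeneous.C_mul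
  rw [map_finsuppProd, Finsupp.prod]
  have hw : u = ∑ x ∈ e.support, e x • wt b x := by
    have := hf (mem_support_iff.1 he)
    rw [← this, Finsupp.weight_apply, Finsupp.sum]
  rw [hw]
  apply IsWeightedHomogeneous.prod
  intro x _
  rw [map_pow]
  apply IsWeightedHomogeneous.pow
  rw [linSubst_X]
  apply IsWeightedHomogeneous.sum
  intro y _
  by_cases hxy : b y = b x
  · apply IsWeightedHomogeneous.C_mul
    have := isWeightedHomogeneous_X K (wt b) y
    rwa [show wt b y = wt b x from by simp [wt, hxy]] at this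
  · rw [hA y x hxy, map_zero, zero_mul]
    exact isWeightedHomogeneous_zero _ _ _

end Pool.Agent.CS
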