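import Pool.Agent.Lib.MP_293f2a_ag.Part2

namespace Pool.Agent.CS

open MvPolynomial
open scoped MonomialOrder

variable {K : Type*} [Field K] {X ι ρ : Type*}

/-! ### Triangular determinants -/

theorem det_triangular {R L F : Type*} [Fintype R] [DecidableEq R] [LinearOrder L] [CommRing F]
    (key : R → L) (hkey : Function.Injective key) (M : Matrix R R F)
    (h : ∀ i j, key j < key i → M i j = 0) (h1 : ∀ i, M i i = 1) : M.det = 1 := by
  classical
  let _ : LinearOrder R := LinearOrder.lift' key hkey
  have hM : M.IsUpperTriangular := by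
    intro i j hij
    exact h i j hij
  have hdet : M.det = ∏ i : R, M i i := by
    convert Matrix.det_of_isUpperTriangular hM
  rw [hdet]
  exact Finset.prod_eq_one (fun i _ => h1 i)

/-! ### The rank lemma -/

theorem rank_lemma {σ : MonomialOrder X} {W : Submodule K (MvPolynomial X K)}
    {A : Set (X →₀ ℕ)} (hA : A.Finite) (hW : W ≤ restrictSupport K A)
    {R : Type*} [Fintype R] [DecidableEq R] (w : R → MvPolynomial X K) (hw : ∀ r, w r ∈ W)
    (φ : R → (X →₀ ℕ)) (d : X →₀ ℕ) (hφ : ∀ r, d ≼[σ] φ r)
    (hdet : (Matrix.of fun r r' => coeff (φ r') (w r)).det ≠ 0) :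
    Fintype.card R ≤ cnt σ W d := by
  classical
  have := finiteDimensional_restrictSupport (K := K) hA
  have hWfd : FiniteDimensional K W := Submodule.finiteDimensional_of_le hW
  let T : W →ₗ[K] (R → K) := LinearMap.pi (fun r => (lcoeff K (φ r)).comp W.subtype)
  have hTapp : ∀ (v : W) (r : R), T v r = coeff (φ r) (v : MvPolynomial X K) := fun v r => rfl
  set M : Matrix R R K := Matrix.of fun r r' => coeff (φ r') (w r) with hM
  have hsurj : Function.Surjective T := by
    intro y
    refine ⟨∑ r, (Matrix.vecMul y M⁻¹) r • (⟨w r, hw r⟩ : W), ?_⟩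
    ext r'
    rw [hTapp]
    simp only [Submodule.coe_sum, Submodule.coe_smul, coeff_sum, coeff_smul, smul_eq_mul]
    have h1 : Matrix.vecMul (Matrix.vecMul y M⁻¹) M = y := by
      rw [Matrix.vecMul_vecMul, Matrix.nonsing_inv_mul _ (isUnit_iff_ne_zero.2 hdet),
        Matrix.vecMul_one]
    have h2 := congrFun h1 r'
    rw [← h2]
    rfl
  have hrange : Module.finrank K (LinearMap.range T) = Fintype.card R := by
    rw [LinearMap.range_eq_top.2 hsurj, finrank_top, Module.finrank_fintype_fun_eq_card]
  have hrn := LinearMap.finrank_range_add_finrank_ker T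
  set L : Submodule K (MvPolynomial X K) := restrictSupport K {e | e ≺[σ] d} with hL
  have hle : W ⊓ L ≤ (LinearMap.ker T).map W.subtype := by
    rintro f ⟨hf1, hf2⟩
    refine ⟨⟨f, hf1⟩, ?_, rfl⟩
    rw [SetLike.mem_coe, LinearMap.mem_ker]
    ext r
    rw [hTapp, Pi.zero_apply]
    by_contra hne
    have := (mem_restrictSupport_iff K).1 hf2 (mem_support_iff.2 hne)
    exact absurd (hφ r) (not_le.2 this)
  have hker : Module.finrank K (W ⊓ L : Submodule K (MvPolynomial X K))
      ≤ Module.finrank K (LinearMap.ker T) := by
    have h1 := Submodule.finrank_mono hle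
    rwa [Submodule.finrank_map_subtype_eq] at h1
  have hcut := ncard_LM (σ := σ) hA (inf_le_left.trans hW : W ⊓ L ≤ _)
  rw [hL, LM_inf_lt, ← hL] at hcut
  have hadd := cnt_add (σ := σ) hA hW d
  omega

/-! ### The action of matrices on subspaces -/

section act

variable [Fintype X]

/-- the image of a subspace under a linear substitution -/
noncomputable def act (A : Matrix X X K) (V : Submodule K (MvPolynomial X K)) :
    Submodule K (MvPolynomial X K) := V.map (linSubst A).toLinearMap

theorem mem_act {A : Matrix X X K} {V : Submodule K (MvPolynomial X K)}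
    {f : MvPolynomial X K} : f ∈ act A V ↔ ∃ g ∈ V, linSubst A g = f := Iff.rfl

theorem act_le {b : X → ι} {u : ι →₀ ℕ} {A : Matrix X X K}
    (hA : ∀ x y : X, b x ≠ b y → A x y = 0)
    {V : Submodule K (MvPolynomial X K)} (hV : V ≤ Sdeg K b u) : act A V ≤ Sdeg K b u := by
  rintro f ⟨g, hg, rfl⟩
  exact linSubst_mem_Sdeg hA (hV hg)

theorem act_mul (A B : Matrix X X K) (V : Submodule K (MvPolynomial X K)) :
    act (A * B) V = act A (act B V) := by
  rw [act, act, act, ← Submodule.map_comp, linSubst_mul]
  rfl

variable [DecidableEq X]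

theorem finrank_act {A : Matrix X X K} (hA : A.det ≠ 0) (V : Submodule K (MvPolynomial X K)) :
    Module.finrank K (act A V) = Module.finrank K V :=
  (LinearEquiv.finrank_eq
    (Submodule.equivMapOfInjective _ (linSubst_injective hA : Function.Injective _) V)).symm

end act

/-! ### Generic matrices -/

section generic

/-- index set of the entries of block matrices -/
abbrev PIdx (b : X → ι) : Type _ := {p : X × X // b p.1 = b p.2}

open Classical in
/-- the block matrix with given entries -/
noncomputable def matOf (b : X → ι) {F : Type*} [Zero F] (a : PIdx b → F) : Matrix X X F :=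
  Matrix.of fun x y => if h : b x = b y then a ⟨(x, y), h⟩ else 0

theorem matOf_block (b : X → ι) {F : Type*} [Zero F] (a : PIdx b → F) (x y : X)
    (h : b x ≠ b y) : matOf b a x y = 0 := by
  simp [matOf, h]

theorem matOf_entries {b : X → ι} {F : Type*} [Zero F] {A : Matrix X X F}
    (hA : ∀ x y : X, b x ≠ b y → A x y = 0) :
    matOf b (fun p => A p.1.1 p.1.2) = A := by
  ext x y
  by_cases h : b x = b y
  · simp [matOf, h]
  · simp [matOf, h, hA x y h]

variable [Fintype X]

/-- the generic block matrix -/
noncomputable def genMat (K : Type*) [Field K] (b : X → ι) :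
    Matrix X X (MvPolynomial (PIdx b) K) :=
  matOf b (fun p => MvPolynomial.X p)

omit [Fintype X] in
theorem genMat_eval (b : X → ι) (a : PIdx b → K) (x y : X) :
    eval a (genMat K b x y) = matOf b a x y := by
  by_cases h : b x = b y
  · simp [genMat, matOf, h]
  · simp [genMat, matOf, h]

/-- the generic linear substitution -/
noncomputable def genSubst (K : Type*) [Field K] (b : X → ι) :
    MvPolynomial X K →ₐ[K] MvPolynomial X (MvPolynomial (PIdx b) K) :=
  aeval (fun x : X => ∑ y : X, C (genMat K b y x) * MvPolynomial.X y)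

theorem map_genSubst (b : X → ι) (a : PIdx b → K) (f : MvPolynomial X K) :
    MvPolynomial.map (eval a) (genSubst K b f) = linSubst (matOf b a) f := by
  induction f using MvPolynomial.induction_on with
  | C c =>
    have h1 : genSubst K b (C c) = C (C c) := by
      rw [← MvPolynomial.algebraMap_eq, AlgHom.commutes]; rfl
    have h2 : linSubst (matOf b a) (C c) = C c := by
      rw [← MvPolynomial.algebraMap_eq, AlgHom.commutes]
    rw [h1, h2, map_C, eval_C]
  | add p q hp hq => rw [map_add, map_add, hp, hq, map_add]
  | mul_X p x hp =>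
    rw [map_mul, map_mul, hp, map_mul]
    congr 1
    rw [genSubst, aeval_X, linSubst_X, map_sum]
    apply Finset.sum_congr rfl
    intro y _
    rw [map_mul, map_C, map_X, genMat_eval]

theorem eval_coeff_genSubst (b : X → ι) (a : PIdx b → K) (f : MvPolynomial X K)
    (e : X →₀ ℕ) :
    eval a (coeff e (genSubst K b f)) = coeff e (linSubst (matOf b a) f) := by
  rw [← map_genSubst, coeff_map]

end generic

end Pool.Agent.CS
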