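import Pool.Agent.Lib.MP_293f2a_ag.Part3

namespace Pool.Agent.CS

open MvPolynomial
open scoped MonomialOrder

variable {K : Type*} [Field K] {X ι ρ : Type*} [Fintype X] [DecidableEq X]

/-- the determinant of the generic block matrix -/
noncomputable def detPoly (K : Type*) [Field K] (b : X → ι) : MvPolynomial (PIdx b) K :=
  (genMat K b).det

theorem eval_detPoly (b : X → ι) (a : PIdx b → K) : eval a (detPoly K b) = (matOf b a).det := by
  rw [detPoly, RingHom.map_det]
  congr 1
  ext x y
  exact genMat_eval b a x y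

theorem detPoly_ne_zero (b : X → ι) : detPoly K b ≠ 0 := by
  intro h
  have h1 := eval_detPoly (K := K) b (fun p => (1 : Matrix X X K) p.1.1 p.1.2)
  rw [h, map_zero, matOf_entries (one_mem_BlockGL b).2, Matrix.det_one] at h1
  exact one_ne_zero h1.symm

theorem matOf_mem_BlockGL {b : X → ι} {a : PIdx b → K} (h : (matOf b a).det ≠ 0) :
    matOf b a ∈ BlockGL (K := K) b := ⟨h, matOf_block b a⟩

theorem exists_good [Infinite K] (b : X → ι) (D : MvPolynomial (PIdx b) K) (hD : D ≠ 0) :
    ∃ a : PIdx b → K, (matOf b a).det ≠ 0 ∧ eval a D ≠ 0 := by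
  by_contra hcon
  push Not at hcon
  have : detPoly K b * D = 0 := by
    apply MvPolynomial.funext
    intro a
    rw [map_mul, map_zero, eval_detPoly]
    by_cases h : (matOf b a).det = 0
    · rw [h, zero_mul]
    · rw [hcon a h, mul_zero]
  rcases mul_eq_zero.1 this with h | h
  · exact detPoly_ne_zero b h
  · exact hD h

/-- Semicontinuity of the set of leading exponents, at one exponent `d`. -/
theorem semicont_one {σ : MonomialOrder X} {b : X → ι} {u : ι →₀ ℕ}
    {V : Submodule K (MvPolynomial X K)} (hV : V ≤ Sdeg K b u)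
    {A : Matrix X X K} (hA : A ∈ BlockGL (K := K) b) (d : X →₀ ℕ) :
    ∃ D : MvPolynomial (PIdx b) K, D ≠ 0 ∧ ∀ a : PIdx b → K, (matOf b a).det ≠ 0 →
      eval a D ≠ 0 → cnt σ (act A V) d ≤ cnt σ (act (matOf b a) V) d := by
  classical
  have hM := finite_Mset (X := X) b u
  have hAV := act_le hA.2 hV
  have hfin : (LM σ (act A V) ∩ {e | d ≼[σ] e}).Finite :=
    (hM.subset (LM_subset hAV)).subset Set.inter_subset_left
  have := hfin.fintype
  choose f hf hdeg hc hle using
    fun e : (LM σ (act A V) ∩ {e | d ≼[σ] e} : Set (X →₀ ℕ)) => exists_monic_of_mem_LM e.2.1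
  choose g hg hgf using hf
  refine ⟨(Matrix.of fun e e' : (LM σ (act A V) ∩ {e | d ≼[σ] e} : Set (X →₀ ℕ)) =>
    coeff e'.1 (genSubst K b (g e))).det, ?_, ?_⟩
  · intro h0
    have h1 := congrArg (eval (fun p : PIdx b => A p.1.1 p.1.2)) h0
    rw [RingHom.map_det, map_zero] at h1
    have h2 : (RingHom.mapMatrix (eval (fun p : PIdx b => A p.1.1 p.1.2)))
        (Matrix.of fun e e' : (LM σ (act A V) ∩ {e | d ≼[σ] e} : Set (X →₀ ℕ)) =>
          coeff e'.1 (genSubst K b (g e))) =
        Matrix.of fun e e' => coeff e'.1 (f e) := by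
      ext e e'
      rw [RingHom.mapMatrix_apply, Matrix.map_apply, Matrix.of_apply, Matrix.of_apply,
        eval_coeff_genSubst, matOf_entries hA.2, ← hgf e]
      rfl
    rw [h2] at h1
    have h3 : (Matrix.of fun e e' : (LM σ (act A V) ∩ {e | d ≼[σ] e} : Set (X →₀ ℕ)) =>
        coeff e'.1 (f e)).det = 1 := by
      apply det_triangular (fun e => OrderDual.toDual (σ.toSyn e.1))
      · intro e e' h
        exact Subtype.ext (σ.toSyn.injective (OrderDual.toDual.injective h))
      · intro e e' hlt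
        rw [OrderDual.toDual_lt_toDual] at hlt
        rw [Matrix.of_apply]
        by_contra hne
        exact absurd (hle e _ (mem_support_iff.2 hne)) (not_le.2 hlt)
      · intro e
        exact hc e
    rw [h3] at h1
    exact one_ne_zero h1
  · intro a hdet ha
    have hcard : cnt σ (act A V) d =
        Fintype.card (LM σ (act A V) ∩ {e | d ≼[σ] e} : Set (X →₀ ℕ)) := by
      rw [cnt, Set.ncard_eq_toFinset_card', Set.toFinset_card]
    rw [hcard]
    apply rank_lemma (A := Mset b u) hM (act_le (matOf_block b a) hV)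
      (fun e => linSubst (matOf b a) (g e)) (fun e => ⟨g e, hg e, rfl⟩)
      (fun e => e.1) d (fun e => e.2.2)
    rw [RingHom.map_det] at ha
    convert ha using 2
    ext e e'
    rw [RingHom.mapMatrix_apply, Matrix.map_apply, Matrix.of_apply, Matrix.of_apply,
      eval_coeff_genSubst]

/-- Semicontinuity of the set of leading exponents. -/
theorem semicont {σ : MonomialOrder X} {b : X → ι} {u : ι →₀ ℕ}
    {V : Submodule K (MvPolynomial X K)} (hV : V ≤ Sdeg K b u)
    {A : Matrix X X K} (hA : A ∈ BlockGL (K := K) b) :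
    ∃ D : MvPolynomial (PIdx b) K, D ≠ 0 ∧ ∀ a : PIdx b → K, (matOf b a).det ≠ 0 →
      eval a D ≠ 0 → ∀ d ∈ Mset b u, cnt σ (act A V) d ≤ cnt σ (act (matOf b a) V) d := by
  classical
  choose D hD0 hD using fun d => semicont_one (σ := σ) hV hA d
  refine ⟨∏ d ∈ (finite_Mset (X := X) b u).toFinset, D d, ?_, ?_⟩
  · exact Finset.prod_ne_zero_iff.2 (fun d _ => hD0 d)
  · intro a hdet ha d hd
    rw [map_prod] at ha
    exact hD d a hdet (Finset.prod_ne_zero_iff.1 ha d (by simpa using hd))

omit [Fintype X] [DecidableEq X] in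
/-- The counting functions determine the sets of leading exponents. -/
theorem LM_eq_of_cnt {σ : MonomialOrder X} {A : Set (X →₀ ℕ)} (hA : A.Finite)
    {V W : Submodule K (MvPolynomial X K)} (hV : V ≤ restrictSupport K A)
    (hW : W ≤ restrictSupport K A) (h : ∀ d ∈ A, cnt σ V d = cnt σ W d) :
    LM σ V = LM σ W := by
  classical
  by_contra hne
  have hfin : (symmDiff (LM σ V) (LM σ W)).Finite := by
    apply hA.subset
    intro e he
    rcases he with he | he
    · exact LM_subset hV he.1
    · exact LM_subset hW he.1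
  have hnon : (symmDiff (LM σ V) (LM σ W)).Nonempty := by
    rw [Set.nonempty_iff_ne_empty]
    intro h0
    exact hne (symmDiff_eq_bot.1 h0)
  obtain ⟨e, he, hmax⟩ := hfin.toFinset.exists_max_image (fun e => σ.toSyn e)
    (by simpa using hnon)
  rw [Set.Finite.mem_toFinset] at he
  have hmax' : ∀ d, e ≺[σ] d → (d ∈ LM σ V ↔ d ∈ LM σ W) := by
    intro d hd
    by_contra hcon
    have : d ∈ symmDiff (LM σ V) (LM σ W) := by
      rw [Set.mem_symmDiff]
      tauto
    exact absurd (hmax d (by simpa using this)) (not_le.2 hd)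
  have key : ∀ (V W : Submodule K (MvPolynomial X K)), V ≤ restrictSupport K A →
      (∀ d ∈ A, cnt σ V d = cnt σ W d) →
      (∀ d, e ≺[σ] d → (d ∈ LM σ V ↔ d ∈ LM σ W)) → e ∈ LM σ V → e ∉ LM σ W → False := by
    intro V W hV h hmax' h1 h2
    have hlt : cnt σ W e < cnt σ V e := by
      apply Set.ncard_lt_ncard
      · rw [Set.ssubset_iff_subset_ne]
        constructor
        · rintro d ⟨hd, hed⟩
          refine ⟨?_, hed⟩
          rcases lt_or_eq_of_le (show σ.toSyn e ≤ σ.toSyn d from hed) with hlt | heq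
          · exact (hmax' d hlt).2 hd
          · rw [← σ.toSyn.injective heq] at hd
            exact absurd hd h2
        · intro heq
          have : e ∈ LM σ V ∩ {d | e ≼[σ] d} := ⟨h1, le_refl (σ.toSyn e)⟩
          rw [← heq] at this
          exact h2 this.1
      · exact (hA.subset (LM_subset hV)).subset Set.inter_subset_left
    rw [h e (LM_subset hV h1)] at hlt
    exact lt_irrefl _ hlt
  rcases he with ⟨h1, h2⟩ | ⟨h1, h2⟩
  · exact key V W hV h hmax' h1 h2
  · exact key W V hW (fun d hd => (h d hd).symm) (fun d hd => (hmax' d hd).symm) h1 h2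

/-- There is a matrix with maximal counting functions. -/
theorem exists_max [Infinite K] (σ : MonomialOrder X) {b : X → ι} {u : ι →₀ ℕ}
    {V : Submodule K (MvPolynomial X K)} (hV : V ≤ Sdeg K b u) :
    ∃ A ∈ BlockGL (K := K) b, ∀ B ∈ BlockGL (K := K) b, ∀ d ∈ Mset b u,
      cnt σ (act B V) d ≤ cnt σ (act A V) d := by
  classical
  have hM := finite_Mset (X := X) b u
  set S := hM.toFinset with hS
  let F : Matrix X X K → ℕ := fun A => ∑ d ∈ S, cnt σ (act A V) d
  have hbound : ∀ A ∈ BlockGL (K := K) b, F A ≤ S.card * Module.finrank K V := by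
    intro A hA
    rw [← smul_eq_mul, ← Finset.sum_const]
    apply Finset.sum_le_sum
    intro d _
    have h1 := cnt_add (σ := σ) hM (act_le hA.2 hV) d
    rw [finrank_act hA.1] at h1
    omega
  have hmem := Nat.sSup_mem (s := F '' BlockGL (K := K) b) ⟨_, _, one_mem_BlockGL b, rfl⟩
    ⟨S.card * Module.finrank K V, by rintro _ ⟨A, hA, rfl⟩; exact hbound A hA⟩
  obtain ⟨A, hA, hAmax⟩ := hmem
  have hmax : ∀ B ∈ BlockGL (K := K) b, F B ≤ F A := by
    intro B hB
    rw [hAmax]
    exact le_csSup ⟨S.card * Module.finrank K V, by rintro _ ⟨A, hA, rfl⟩; exact hbound A hA⟩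
      ⟨B, hB, rfl⟩
  refine ⟨A, hA, ?_⟩
  intro B hB d hd
  obtain ⟨D1, hD1, h1⟩ := semicont (σ := σ) hV hA
  obtain ⟨D2, hD2, h2⟩ := semicont (σ := σ) hV hB
  obtain ⟨a, hdet, ha⟩ := exists_good b (D1 * D2) (mul_ne_zero hD1 hD2)
  rw [map_mul] at ha
  have h1' := h1 a hdet (left_ne_zero_of_mul ha)
  have h2' := h2 a hdet (right_ne_zero_of_mul ha)
  have hC := matOf_mem_BlockGL hdet
  refine le_trans (h2' d hd) ?_
  by_contra hlt
  push Not at hlt
  have : F A < F (matOf b a) := by
    apply Finset.sum_lt_sum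
    · intro e he
      exact h1' e (by simpa [hS] using he)
    · exact ⟨d, by simpa [hS] using hd, hlt⟩
  exact absurd (hmax _ hC) (not_le.2 this)

end Pool.Agent.CS
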