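import Pool.Agent.Lib.MP_293f2a_ag.Part4

namespace Pool.Agent.CS

open MvPolynomial
open scoped MonomialOrder

variable {K : Type*} [Field K] {X ι ρ : Type*}

/-! ### Leading terms of determinants -/

theorem coeff_prod_of_le {σ : MonomialOrder X} {R : Type*} (s : Finset R)
    (p : R → MvPolynomial X K) (d : R → (X →₀ ℕ))
    (h : ∀ r ∈ s, ∀ e ∈ (p r).support, e ≼[σ] d r) :
    coeff (∑ r ∈ s, d r) (∏ r ∈ s, p r) = ∏ r ∈ s, coeff (d r) (p r) ∧
      σ.degree (∏ r ∈ s, p r) ≼[σ] ∑ r ∈ s, d r := by
  classical
  induction s using Finset.induction_on with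
  | empty => simp
  | insert a s ha ih =>
    obtain ⟨ih1, ih2⟩ := ih (fun r hr => h r (Finset.mem_insert_of_mem hr))
    have hdeg : σ.degree (p a) ≼[σ] d a :=
      σ.degree_le_iff.2 (fun e he => h a (Finset.mem_insert_self _ _) e he)
    rw [Finset.sum_insert ha, Finset.prod_insert ha, Finset.prod_insert ha]
    constructor
    · rw [σ.coeff_mul_of_add_of_degree_le hdeg ih2, ih1]
    · refine le_trans σ.degree_mul_le ?_
      rw [map_add, map_add]
      exact add_le_add hdeg ih2

theorem det_ne_zero_of_leading {σ : MonomialOrder X} {R : Type*} [Fintype R] [DecidableEq R]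
    (P : Matrix R R (MvPolynomial X K)) (d : R → (X →₀ ℕ))
    (h : ∀ r r', ∀ e ∈ (P r r').support, e ≼[σ] d r)
    (hdet : (Matrix.of fun r r' => coeff (d r) (P r r')).det ≠ 0) : P.det ≠ 0 := by
  intro h0
  apply hdet
  have h1 : coeff (∑ r, d r) P.det = 0 := by rw [h0, coeff_zero]
  rw [Matrix.det_apply, coeff_sum] at h1
  rw [Matrix.det_apply, ← h1]
  apply Finset.sum_congr rfl
  intro π _
  have h2 : coeff (∑ r, d r) (Equiv.Perm.sign π • ∏ i, P (π i) i) =
      Equiv.Perm.sign π • coeff (∑ r, d r) (∏ i, P (π i) i) := by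
    rw [Units.smul_def, Units.smul_def, ← Int.cast_smul_eq_zsmul K, coeff_smul,
      ← Int.cast_smul_eq_zsmul K]
  rw [h2]
  congr 1
  have h3 : ∑ r, d r = ∑ i, d (π i) := (Equiv.sum_comp π d).symm
  rw [h3, (coeff_prod_of_le (σ := σ) Finset.univ (fun i => P (π i) i) (fun i => d (π i))
    (fun i _ => h (π i) i)).1]
  rfl

/-! ### Diagonal substitutions -/

variable [Fintype X] [DecidableEq X]

omit [DecidableEq X] in
theorem linSubst_C (A : Matrix X X K) (c : K) : linSubst A (C c) = C c := by
  rw [← MvPolynomial.algebraMap_eq, AlgHom.commutes]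

theorem linSubst_diagonal_X (s : X → K) (x : X) :
    linSubst (Matrix.diagonal s) (MvPolynomial.X x) = C (s x) * MvPolynomial.X x := by
  rw [linSubst_X, Finset.sum_eq_single x]
  · rw [Matrix.diagonal_apply_eq]
  · intro y _ hy
    rw [Matrix.diagonal_apply_ne _ hy, map_zero, zero_mul]
  · simp

theorem linSubst_diagonal_monomial (s : X → K) (e : X →₀ ℕ) (c : K) :
    linSubst (Matrix.diagonal s) (monomial e c) =
      monomial e (c * e.prod (fun y k => s y ^ k)) := by
  rw [monomial_eq, map_mul, linSubst_C, map_finsuppProd, monomial_eq, map_mul, mul_assoc]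
  congr 1
  rw [Finsupp.prod, Finsupp.prod, Finsupp.prod, map_prod, ← Finset.prod_mul_distrib]
  apply Finset.prod_congr rfl
  intro x _
  rw [map_pow, linSubst_diagonal_X, mul_pow, map_pow]

/-! ### Transvections -/

/-- the transvection `x ↦ x + x'` -/
noncomputable def trans (K : Type*) [Field K] (x x' : X) : Matrix X X K :=
  Matrix.transvection x' x (1 : K)

theorem trans_mem {b : X → ι} {x x' : X} (hb : b x = b x') (hx : x ≠ x') :
    trans K x x' ∈ BlockGL (K := K) b := by
  refine ⟨?_, ?_⟩
  · rw [trans, Matrix.det_transvection_of_ne _ _ hx.symm]; exact one_ne_zero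
  · intro y z hyz
    rw [trans, Matrix.transvection, Matrix.add_apply,
      Matrix.one_apply_ne (fun h => hyz (by rw [h])), zero_add, Matrix.single_apply_of_ne]
    rintro ⟨rfl, rfl⟩
    exact hyz hb.symm

theorem linSubst_trans_X_self {x x' : X} (hx : x ≠ x') :
    linSubst (trans K x x') (MvPolynomial.X x) = MvPolynomial.X x + MvPolynomial.X x' := by
  rw [linSubst_X, Finset.sum_eq_add x x' hx]
  · rw [trans, Matrix.transvection, Matrix.add_apply, Matrix.add_apply, Matrix.one_apply_eq,
      Matrix.one_apply_ne hx.symm, Matrix.single_apply_same,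
      Matrix.single_apply_of_ne]
    · simp
    · intro h; exact hx h.1.symm
  · intro y _ hy
    rw [trans, Matrix.transvection, Matrix.add_apply, Matrix.one_apply_ne hy.1,
      Matrix.single_apply_of_ne]
    · simp
    · intro h; exact hy.2 h.1.symm
  · simp
  · simp

theorem linSubst_trans_X_of_ne {x x' y : X} (hy : y ≠ x) :
    linSubst (trans K x x') (MvPolynomial.X y) = MvPolynomial.X y := by
  rw [linSubst_X, Finset.sum_eq_single y]
  · rw [trans, Matrix.transvection, Matrix.add_apply, Matrix.one_apply_eq,
      Matrix.single_apply_of_ne]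
    · simp
    · intro h; exact hy h.2.symm
  · intro z _ hz
    rw [trans, Matrix.transvection, Matrix.add_apply, Matrix.one_apply_ne hz,
      Matrix.single_apply_of_ne]
    · simp
    · intro h; exact hy h.2.symm
  · simp

theorem linSubst_trans_monomial {x x' : X} (hx : x ≠ x') (l : X →₀ ℕ) :
    linSubst (trans K x x') (monomial l 1) =
      ∑ i ∈ Finset.range (l x + 1),
        monomial (l.erase x + Finsupp.single x i + Finsupp.single x' (l x - i))
          ((l x).choose i : K) := by
  have h1 : (monomial l (1 : K)) = monomial (l.erase x) 1 * MvPolynomial.X x ^ (l x) := by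
    rw [X_pow_eq_monomial, monomial_mul, Finsupp.erase_add_single, one_mul]
  have h2 : linSubst (trans K x x') (monomial (l.erase x) (1 : K)) = monomial (l.erase x) 1 := by
    rw [monomial_eq, map_mul, linSubst_C, map_finsuppProd]
    congr 1
    apply Finsupp.prod_congr
    intro y hy
    rw [map_pow, linSubst_trans_X_of_ne]
    rintro rfl
    simp at hy
  rw [h1, map_mul, h2, map_pow, linSubst_trans_X_self hx, add_pow, Finset.mul_sum]
  apply Finset.sum_congr rfl
  intro i _
  rw [X_pow_eq_monomial, X_pow_eq_monomial, monomial_mul, mul_one, ← mul_assoc, monomial_mul,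
    mul_one, ← add_assoc]
  have : ((l x).choose i : MvPolynomial X K) = monomial 0 ((l x).choose i : K) := by
    rw [← C_apply, map_natCast]
  rw [this, monomial_mul, add_zero, one_mul]

theorem trans_coeff_ge {σ : MonomialOrder X} {x x' : X} (hx : x ≠ x')
    (hlt : Finsupp.single x 1 ≺[σ] Finsupp.single x' 1) (l n : X →₀ ℕ)
    (h : coeff n (linSubst (trans K x x') (monomial l 1)) ≠ 0) : l ≼[σ] n := by
  rw [linSubst_trans_monomial hx, coeff_sum] at h
  obtain ⟨i, hi, hne⟩ := Finset.exists_ne_zero_of_sum_ne_zero h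
  rw [coeff_monomial] at hne
  split_ifs at hne with heq
  · rw [← heq]
    have hi' : i ≤ l x := Nat.lt_succ_iff.1 (Finset.mem_range.1 hi)
    have hl : l = l.erase x + Finsupp.single x i + Finsupp.single x (l x - i) := by
      rw [add_assoc, ← Finsupp.single_add, Nat.add_sub_cancel' hi', Finsupp.erase_add_single]
    conv_lhs => rw [hl]
    rw [map_add, map_add σ.toSyn (Finsupp.erase x l + Finsupp.single x i)]
    apply add_le_add_right
    have h1 : Finsupp.single x (l x - i) = (l x - i) • Finsupp.single x 1 := by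
      rw [Finsupp.smul_single, smul_eq_mul, mul_one]
    have h2 : Finsupp.single x' (l x - i) = (l x - i) • Finsupp.single x' 1 := by
      rw [Finsupp.smul_single, smul_eq_mul, mul_one]
    rw [h1, h2, map_nsmul, map_nsmul]
    exact nsmul_le_nsmul_right hlt.le _
  · exact absurd rfl hne

theorem trans_coeff_self {x x' : X} (hx : x ≠ x') (l : X →₀ ℕ) :
    coeff l (linSubst (trans K x x') (monomial l 1)) = 1 := by
  rw [linSubst_trans_monomial hx, coeff_sum, Finset.sum_eq_single (l x)]
  · rw [Nat.sub_self, Finsupp.single_zero, add_zero, Finsupp.erase_add_single, coeff_monomial,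
      if_pos rfl, Nat.choose_self, Nat.cast_one]
  · intro i _ hi
    rw [coeff_monomial, if_neg]
    intro heq
    have := DFunLike.congr_fun heq x
    simp [hx.symm] at this
    exact hi this
  · intro h
    exact absurd (Finset.mem_range.2 (Nat.lt_succ_self _)) h

theorem trans_coeff_move {x x' : X} (hx : x ≠ x') (l : X →₀ ℕ) :
    coeff (l.erase x + Finsupp.single x' (l x)) (linSubst (trans K x x') (monomial l 1)) = 1 := by
  rw [linSubst_trans_monomial hx, coeff_sum, Finset.sum_eq_single 0]
  · rw [Nat.sub_zero, Finsupp.single_zero, add_zero, coeff_monomial,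
      if_pos rfl, Nat.choose_zero_right, Nat.cast_one]
  · intro i _ hi
    rw [coeff_monomial, if_neg]
    intro heq
    have := DFunLike.congr_fun heq x
    simp [hx.symm] at this
    exact hi this
  · intro h
    exact absurd (Finset.mem_range.2 (Nat.succ_pos _)) h

end Pool.Agent.CS
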