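import Pool.Agent.Lib.MP_293f2a_ag.Part5

namespace Pool.Agent.CS

open MvPolynomial
open scoped MonomialOrder

variable {K : Type*} [Field K] {X ι ρ : Type*} [Fintype X] [DecidableEq X]

omit [Fintype X] [DecidableEq X] in
theorem mdeg_move {b : X → ι} {x x' : X} (hb : b x = b x') (a : X →₀ ℕ) :
    mdeg b (a.erase x + Finsupp.single x' (a x)) = mdeg b a := by
  conv_rhs => rw [← Finsupp.erase_add_single x a]
  rw [mdeg_add, mdeg_add, mdeg_single, mdeg_single, hb]

/-- the combined action of a diagonal matrix and a transvection -/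
theorem coeff_trans_diag (x x' : X) (s : X → K) (f : MvPolynomial X K) (n : X →₀ ℕ) :
    coeff n (linSubst (trans K x x') (linSubst (Matrix.diagonal s) f)) =
      eval s (∑ l ∈ f.support, monomial l
        (coeff l f * coeff n (linSubst (trans K x x') (monomial l 1)))) := by
  conv_lhs => rw [f.as_sum]
  rw [map_sum, map_sum, coeff_sum, map_sum]
  apply Finset.sum_congr rfl
  intro l _
  rw [linSubst_diagonal_monomial, eval_monomial]
  have h : (monomial l (coeff l f * l.prod fun y k => s y ^ k) : MvPolynomial X K) =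
      (coeff l f * l.prod fun y k => s y ^ k) • monomial l 1 := by
    rw [smul_monomial, smul_eq_mul, mul_one]
  rw [h, map_smul, coeff_smul, smul_eq_mul]
  ring

/-- Galligo's theorem for one graded piece. -/
theorem galligo [Infinite K] {σ : MonomialOrder X} {b : X → ι} {u : ι →₀ ℕ}
    {V : Submodule K (MvPolynomial X K)} (hV : V ≤ Sdeg K b u)
    {A : Matrix X X K} (hA : A ∈ BlockGL (K := K) b)
    (hmax : ∀ B ∈ BlockGL (K := K) b, ∀ d ∈ Mset b u, cnt σ (act B V) d ≤ cnt σ (act A V) d)
    {x x' : X} (hb : b x = b x') (hlt : Finsupp.single x 1 ≺[σ] Finsupp.single x' 1)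
    {a : X →₀ ℕ} (ha : a ∈ LM σ (act A V)) :
    a.erase x + Finsupp.single x' (a x) ∈ LM σ (act A V) := by
  classical
  have hx : x ≠ x' := by
    rintro rfl
    exact lt_irrefl _ hlt
  set a' : X →₀ ℕ := a.erase x + Finsupp.single x' (a x) with ha'
  by_cases hk : a x = 0
  · have : a' = a := by
      rw [ha', hk, Finsupp.single_zero, add_zero]
      have h := Finsupp.erase_add_single x a
      rw [hk, Finsupp.single_zero, add_zero] at h
      exact h
    rw [this]; exact ha
  by_contra hcon
  have hM := finite_Mset (X := X) b u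
  have hAV := act_le hA.2 hV
  have hau : mdeg b a = u := LM_subset hAV ha
  have hau' : a' ∈ Mset b u := by
    show mdeg b a' = u
    rw [ha', mdeg_move hb, hau]
  have haa' : a ≺[σ] a' := by
    conv_lhs => rw [← Finsupp.erase_add_single x a]
    rw [ha', map_add, map_add]
    apply add_lt_add_right
    have h1 : Finsupp.single x (a x) = (a x) • Finsupp.single x 1 := by
      rw [Finsupp.smul_single, smul_eq_mul, mul_one]
    have h2 : Finsupp.single x' (a x) = (a x) • Finsupp.single x' 1 := by
      rw [Finsupp.smul_single, smul_eq_mul, mul_one]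
    rw [h1, h2, map_nsmul, map_nsmul]
    exact nsmul_lt_nsmul_right hk hlt
  set N := LM σ (act A V) with hN
  let R := {e : X →₀ ℕ // e = a ∨ (e ∈ N ∧ a' ≺[σ] e)}
  have hNfin : N.Finite := hM.subset (LM_subset hAV)
  have hRN : ∀ e : R, e.1 ∈ N := by
    rintro ⟨e, he | he⟩
    · subst he; exact ha
    · exact he.1
  have hRfin : Set.Finite {e : X →₀ ℕ | e = a ∨ (e ∈ N ∧ a' ≺[σ] e)} :=
    hNfin.subset (fun e he => hRN ⟨e, he⟩)
  have hRft : Fintype R := hRfin.fintype
  choose f hf hdeg hc hle using fun e : R => exists_monic_of_mem_LM (hRN e)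
  let φ : R → (X →₀ ℕ) := fun e => if e.1 = a then a' else e.1
  have hφ : ∀ r : R, a' ≼[σ] φ r := by
    intro r
    by_cases h : r.1 = a
    · simp [φ, h]
    · simp only [φ, h, if_false]
      rcases r.2 with h' | h'
      · exact absurd h' h
      · exact h'.2.le
  -- the polynomial matrix
  let P : Matrix R R (MvPolynomial X K) := Matrix.of fun r r' =>
    ∑ l ∈ (f r).support, monomial l
      (coeff l (f r) * coeff (φ r') (linSubst (trans K x x') (monomial l 1)))
  have hPsupp : ∀ r r', ∀ e ∈ (P r r').support, e ≼[σ] r.1 := by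
    intro r r' e he
    have h1 : e ∈ (∑ l ∈ (f r).support, monomial l
      (coeff l (f r) * coeff (φ r') (linSubst (trans K x x') (monomial l 1)))).support := he
    rw [mem_support_iff, coeff_sum] at h1
    obtain ⟨l, hl, hne⟩ := Finset.exists_ne_zero_of_sum_ne_zero h1
    rw [coeff_monomial] at hne
    split_ifs at hne with heq
    · rw [← heq]
      exact hle r l hl
    · exact absurd rfl hne
  have hPcoeff : ∀ r r', coeff r.1 (P r r') =
      coeff (φ r') (linSubst (trans K x x') (monomial r.1 1)) := by
    intro r r'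
    have h1 : coeff r.1 (P r r') = coeff r.1 (∑ l ∈ (f r).support, monomial l
      (coeff l (f r) * coeff (φ r') (linSubst (trans K x x') (monomial l 1)))) := rfl
    rw [h1, coeff_sum, Finset.sum_eq_single r.1]
    · rw [coeff_monomial, if_pos rfl, hc r, one_mul]
    · intro l _ hl
      rw [coeff_monomial, if_neg hl]
    · intro h
      have : coeff r.1 (f r) = 0 := by
        by_contra hne
        exact h (mem_support_iff.2 hne)
      rw [hc r] at this
      exact absurd this one_ne_zero
  have hdet1 : (Matrix.of fun r r' : R => coeff r.1 (P r r')).det = 1 := by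
    apply det_triangular (fun r : R => σ.toSyn r.1)
    · intro r r' h
      exact Subtype.ext (σ.toSyn.injective h)
    · intro r r' hrr'
      rw [Matrix.of_apply, hPcoeff]
      by_contra hne
      have h1 := trans_coeff_ge hx hlt _ _ hne
      by_cases h : r'.1 = a
      · simp only [φ, h, if_true] at h1
        rcases r.2 with h' | h'
        · rw [h', h] at hrr'
          exact lt_irrefl _ hrr'
        · exact absurd h'.2 (not_lt.2 h1)
      · simp only [φ, h, if_false] at h1
        exact absurd hrr' (not_lt.2 h1)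
    · intro r
      rw [Matrix.of_apply, hPcoeff]
      by_cases h : r.1 = a
      · simp only [φ, h, if_true]
        exact trans_coeff_move hx a
      · simp only [φ, h, if_false]
        exact trans_coeff_self hx _
  have hdetP : P.det ≠ 0 :=
    det_ne_zero_of_leading (σ := σ) P (fun r => r.1) hPsupp (by rw [hdet1]; exact one_ne_zero)
  have hprod : P.det * ∏ y : X, MvPolynomial.X y ≠ 0 :=
    mul_ne_zero hdetP (Finset.prod_ne_zero_iff.2 (fun y _ => X_ne_zero y))
  obtain ⟨s, hs⟩ : ∃ s : X → K, eval s (P.det * ∏ y : X, MvPolynomial.X y) ≠ 0 := by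
    by_contra hcon2
    push Not at hcon2
    exact hprod (MvPolynomial.funext (fun s => by rw [hcon2 s, map_zero]))
  rw [map_mul, map_prod] at hs
  have hs1 := left_ne_zero_of_mul hs
  have hs2 : ∏ y : X, s y ≠ 0 := by
    have := right_ne_zero_of_mul hs
    simpa using this
  have hdiag : Matrix.diagonal s ∈ BlockGL (K := K) b := by
    refine ⟨?_, ?_⟩
    · rw [Matrix.det_diagonal]; exact hs2
    · intro y z hyz
      exact Matrix.diagonal_apply_ne _ (fun h => hyz (by rw [h]))
  have hB : trans K x x' * (Matrix.diagonal s * A) ∈ BlockGL (K := K) b :=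
    mul_mem_BlockGL (trans_mem hb hx) (mul_mem_BlockGL hdiag hA)
  have hcard : Fintype.card R ≤ cnt σ (act (trans K x x' * (Matrix.diagonal s * A)) V) a' := by
    apply rank_lemma (A := Mset b u) hM (act_le hB.2 hV)
      (fun r => linSubst (trans K x x') (linSubst (Matrix.diagonal s) (f r))) ?_ φ a' hφ
    · rw [RingHom.map_det] at hs1
      convert hs1 using 2
      ext r r'
      rw [Matrix.of_apply, coeff_trans_diag]
      rfl
    · intro r
      rw [act_mul, act_mul]
      exact ⟨_, ⟨_, hf r, rfl⟩, rfl⟩
  have hle' := hmax _ hB a' hau'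
  have hcnt : cnt σ (act A V) a' + 1 = Fintype.card R := by
    have h1 : Fintype.card R = Set.ncard {e : X →₀ ℕ | e = a ∨ (e ∈ N ∧ a' ≺[σ] e)} := by
      rw [Set.ncard_eq_toFinset_card _ hRfin]
      rw [Fintype.card_of_subtype]
      intro e
      rw [Set.Finite.mem_toFinset]
      rfl
    have h2 : {e : X →₀ ℕ | e = a ∨ (e ∈ N ∧ a' ≺[σ] e)} = insert a (N ∩ {d | a' ≼[σ] d}) := by
      ext e
      simp only [Set.mem_ofPred_eq, Set.mem_insert_iff, Set.mem_inter_iff]
      constructor
      · rintro (h | h)
        · exact Or.inl h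
        · exact Or.inr ⟨h.1, h.2.le⟩
      · rintro (h | h)
        · exact Or.inl h
        · refine Or.inr ⟨h.1, lt_of_le_of_ne h.2 ?_⟩
          intro heq
          rw [← σ.toSyn.injective heq] at h
          exact hcon h.1
    rw [h1, h2, Set.ncard_insert_of_notMem _ (hNfin.subset Set.inter_subset_left), cnt]
    intro h
    exact absurd h.2 (not_le.2 haa')
  omega

end Pool.Agent.CS
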