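import Pool.Agent.Lib.MP_293f2a_ag.Part6

namespace Pool.Agent.CS

open MvPolynomial
open scoped MonomialOrder

variable {K : Type*} [Field K] {X ι ρ : Type*}

/-! ### Homogeneous components -/

/-- the multihomogeneous component -/
noncomputable abbrev comp (b : X → ι) (u : ι →₀ ℕ) : MvPolynomial X K →ₗ[K] MvPolynomial X K :=
  weightedHomogeneousComponent (wt b) u

theorem coeff_comp [DecidableEq ι] (b : X → ι) (u : ι →₀ ℕ) (f : MvPolynomial X K) (e : X →₀ ℕ) :
    coeff e (comp b u f) = if mdeg b e = u then coeff e f else 0 := by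
  rw [coeff_weightedHomogeneousComponent, weight_wt]

theorem comp_mem (b : X → ι) (u : ι →₀ ℕ) (f : MvPolynomial X K) : comp b u f ∈ Sdeg K b u :=
  mem_Sdeg.2 (weightedHomogeneousComponent_isWeightedHomogeneous u f)

theorem comp_of_mem {b : X → ι} {u : ι →₀ ℕ} {f : MvPolynomial X K} (hf : f ∈ Sdeg K b u) :
    comp b u f = f :=
  (mem_Sdeg.1 hf).weightedHomogeneousComponent_same

theorem comp_of_mem_ne {b : X → ι} {u v : ι →₀ ℕ} {f : MvPolynomial X K} (hf : f ∈ Sdeg K b u)
    (huv : v ≠ u) : comp b v f = 0 :=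
  (mem_Sdeg.1 hf).weightedHomogeneousComponent_ne v huv

theorem comp_linSubst [Fintype X] {b : X → ι} {A : Matrix X X K}
    (hA : ∀ x y : X, b x ≠ b y → A x y = 0) (u : ι →₀ ℕ) (f : MvPolynomial X K) :
    comp b u (linSubst A f) = linSubst A (comp b u f) := by
  induction f using MvPolynomial.induction_on' with
  | monomial e c =>
    have hm : (monomial e c : MvPolynomial X K) ∈ Sdeg K b (mdeg b e) :=
      (monomial_mem_restrictSupport K).2 (Or.inl rfl)
    by_cases h : u = mdeg b e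
    · rw [h, comp_of_mem hm, comp_of_mem (linSubst_mem_Sdeg hA hm)]
    · rw [comp_of_mem_ne hm h, comp_of_mem_ne (linSubst_mem_Sdeg hA hm) h, map_zero]
  | add p q hp hq => rw [map_add, map_add, hp, hq, map_add, map_add]

/-! ### Leading exponents of ideals -/

/-- the set of leading exponents of an ideal -/
def LMI (σ : MonomialOrder X) (I : Ideal (MvPolynomial X K)) : Set (X →₀ ℕ) :=
  LM σ (I.restrictScalars K)

theorem mem_LMI {σ : MonomialOrder X} {I : Ideal (MvPolynomial X K)} {e : X →₀ ℕ} :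
    e ∈ LMI σ I ↔ ∃ f ∈ I, f ≠ 0 ∧ σ.degree f = e := Iff.rfl

theorem LMI_add {σ : MonomialOrder X} {I : Ideal (MvPolynomial X K)} {e : X →₀ ℕ}
    (he : e ∈ LMI σ I) (d : X →₀ ℕ) : e + d ∈ LMI σ I := by
  classical
  obtain ⟨f, hf, hf0, rfl⟩ := he
  have hm : (monomial d (1 : K)) ≠ 0 := by
    rw [Ne, monomial_eq_zero]; exact one_ne_zero
  refine ⟨f * monomial d 1, I.mul_mem_right _ hf, mul_ne_zero hf0 hm, ?_⟩
  rw [σ.degree_mul hf0 hm, σ.degree_monomial, if_neg one_ne_zero]

theorem LMI_upper {σ : MonomialOrder X} {I : Ideal (MvPolynomial X K)} {e d : X →₀ ℕ}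
    (he : e ∈ LMI σ I) (h : e ≤ d) : d ∈ LMI σ I := by
  obtain ⟨c, rfl⟩ := exists_add_of_le h
  exact LMI_add he c

theorem initialIdeal_eq (σ : MonomialOrder X) (I : Ideal (MvPolynomial X K)) :
    initialIdeal σ I = Ideal.span ((fun e => monomial e (1 : K)) '' LMI σ I) := by
  unfold initialIdeal
  congr 1
  ext g
  constructor
  · rintro ⟨f, hf, hf0, rfl⟩
    exact ⟨_, ⟨f, hf, hf0, rfl⟩, rfl⟩
  · rintro ⟨_, ⟨f, hf, hf0, rfl⟩, rfl⟩
    exact ⟨f, hf, hf0, rfl⟩

theorem mem_initialIdeal {σ : MonomialOrder X} {I : Ideal (MvPolynomial X K)}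
    {f : MvPolynomial X K} : f ∈ initialIdeal σ I ↔ ∀ e ∈ f.support, e ∈ LMI σ I := by
  rw [initialIdeal_eq, mem_ideal_span_monomial_image]
  constructor
  · intro h e he
    obtain ⟨d, hd, hle⟩ := h e he
    exact LMI_upper hd hle
  · intro h e he
    exact ⟨e, h e he, le_rfl⟩

theorem monomial_mem_initialIdeal {σ : MonomialOrder X} {I : Ideal (MvPolynomial X K)}
    {e : X →₀ ℕ} : monomial e (1 : K) ∈ initialIdeal σ I ↔ e ∈ LMI σ I := by
  classical
  rw [mem_initialIdeal]
  constructor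
  · intro h
    exact h e (by rw [mem_support_iff, coeff_monomial, if_pos rfl]; exact one_ne_zero)
  · intro h d hd
    rw [mem_support_iff, coeff_monomial] at hd
    split_ifs at hd with heq
    · rwa [← heq]
    · exact absurd rfl hd

/-- the homogeneous part of an ideal -/
noncomputable def part (b : X → ι) (u : ι →₀ ℕ) (I : Ideal (MvPolynomial X K)) :
    Submodule K (MvPolynomial X K) :=
  I.restrictScalars K ⊓ Sdeg K b u

theorem part_le (b : X → ι) (u : ι →₀ ℕ) (I : Ideal (MvPolynomial X K)) :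
    part b u I ≤ Sdeg K b u := inf_le_right

theorem LMI_inter {σ : MonomialOrder X} {b : X → ι} {I : Ideal (MvPolynomial X K)}
    (hI : IsMultigraded b I) (u : ι →₀ ℕ) :
    LMI σ I ∩ Mset b u = LM σ (part b u I) := by
  classical
  ext e
  constructor
  · rintro ⟨⟨f, hf, hf0, rfl⟩, hu⟩
    have hc : coeff (σ.degree f) (comp b u f) = coeff (σ.degree f) f := by
      rw [coeff_comp, if_pos (show mdeg b (σ.degree f) = u from hu)]
    have hne : comp b u f ≠ 0 := by
      intro h0
      rw [h0, coeff_zero] at hc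
      exact (σ.coeff_degree_ne_zero_iff.2 hf0) hc.symm
    refine ⟨comp b u f, ⟨hI f hf u, comp_mem b u f⟩, hne, ?_⟩
    apply σ.toSyn.injective
    apply le_antisymm
    · apply σ.le_degree
      have := σ.degree_mem_support hne
      rw [mem_support_iff, coeff_comp] at this
      rw [mem_support_iff]
      intro h0
      rw [h0, ite_self] at this
      exact this rfl
    · apply σ.le_degree
      rw [mem_support_iff, hc]
      exact σ.coeff_degree_ne_zero_iff.2 hf0
  · rintro ⟨f, hf, hf0, rfl⟩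
    exact ⟨⟨f, hf.1, hf0, rfl⟩,
      ((mem_restrictSupport_iff K).1 hf.2) (σ.degree_mem_support hf0)⟩

theorem ncard_LMI [Finite X] {σ : MonomialOrder X} {b : X → ι} {I : Ideal (MvPolynomial X K)}
    (hI : IsMultigraded b I) (u : ι →₀ ℕ) :
    (LMI σ I ∩ Mset b u).ncard = Module.finrank K (part b u I) := by
  rw [LMI_inter hI, ncard_LM (finite_Mset b u) (part_le b u I)]

/-! ### Images of ideals -/

section map

variable [Fintype X] [DecidableEq X]

theorem mem_map_linSubst {A : Matrix X X K} (hA : A.det ≠ 0) {I : Ideal (MvPolynomial X K)}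
    {f : MvPolynomial X K} : f ∈ I.map (linSubst A) ↔ ∃ g ∈ I, linSubst A g = f :=
  Ideal.mem_map_iff_of_surjective _ (linSubst_surjective hA)

theorem isMultigraded_map {b : X → ι} {A : Matrix X X K} (hA : A ∈ BlockGL (K := K) b)
    {I : Ideal (MvPolynomial X K)} (hI : IsMultigraded b I) :
    IsMultigraded b (I.map (linSubst A)) := by
  intro f hf u
  rw [mem_map_linSubst hA.1] at hf ⊢
  obtain ⟨g, hg, rfl⟩ := hf
  exact ⟨comp b u g, hI g hg u, (comp_linSubst hA.2 u g).symm⟩

theorem part_map {b : X → ι} {A : Matrix X X K} (hA : A ∈ BlockGL (K := K) b)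
    {I : Ideal (MvPolynomial X K)} (hI : IsMultigraded b I) (u : ι →₀ ℕ) :
    part b u (I.map (linSubst A)) = act A (part b u I) := by
  ext f
  constructor
  · rintro ⟨hf1, hf2⟩
    obtain ⟨g, hg, rfl⟩ := (mem_map_linSubst hA.1).1 hf1
    refine ⟨comp b u g, ⟨hI g hg u, comp_mem b u g⟩, ?_⟩
    have : linSubst A (comp b u g) = linSubst A g := by
      rw [← comp_linSubst hA.2, comp_of_mem hf2]
    exact this
  · rintro ⟨g, ⟨hg1, hg2⟩, rfl⟩
    exact ⟨(mem_map_linSubst hA.1).2 ⟨g, hg1, rfl⟩, linSubst_mem_Sdeg hA.2 hg2⟩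

/-- Generic initial spaces exist and are Borel fixed. -/
theorem exists_gin_part [Infinite K] (σ : MonomialOrder X) (b : X → ι) (u : ι →₀ ℕ)
    (V : Submodule K (MvPolynomial X K)) (hV : V ≤ Sdeg K b u) :
    ∃ (D : MvPolynomial (PIdx b) K) (N : Set (X →₀ ℕ)), D ≠ 0 ∧
      N ⊆ Mset b u ∧ N.ncard = Module.finrank K V ∧
      (∀ a : PIdx b → K, (matOf b a).det ≠ 0 → eval a D ≠ 0 →
        LM σ (act (matOf b a) V) = N) ∧
      (∀ e ∈ N, ∀ x x' : X, b x = b x' → Finsupp.single x 1 ≺[σ] Finsupp.single x' 1 →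
        e.erase x + Finsupp.single x' (e x) ∈ N) := by
  obtain ⟨A, hA, hmax⟩ := exists_max σ hV
  obtain ⟨D, hD0, hD⟩ := semicont (σ := σ) hV hA
  refine ⟨D, LM σ (act A V), hD0, LM_subset (act_le hA.2 hV), ?_, ?_, ?_⟩
  · rw [ncard_LM (finite_Mset b u) (act_le hA.2 hV), finrank_act hA.1]
  · intro a hdet ha
    apply LM_eq_of_cnt (finite_Mset b u) (act_le (matOf_block b a) hV) (act_le hA.2 hV)
    intro d hd
    exact le_antisymm (hmax _ (matOf_mem_BlockGL hdet) d hd) (hD a hdet ha d hd)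
  · intro e he x x' hb hlt
    exact galligo hV hA hmax hb hlt he

/-- Generic initial ideals exist and are Borel fixed. -/
theorem exists_gin [Infinite K] (σ : MonomialOrder X) (b : X → ι)
    {I : Ideal (MvPolynomial X K)} (hI : IsMultigraded b I) :
    ∃ (D : MvPolynomial (PIdx b) K) (N : Set (X →₀ ℕ)), D ≠ 0 ∧
      (∀ a : PIdx b → K, (matOf b a).det ≠ 0 → eval a D ≠ 0 →
        LMI σ (I.map (linSubst (matOf b a))) = N) ∧
      (∀ e ∈ N, ∀ x x' : X, b x = b x' → Finsupp.single x 1 ≺[σ] Finsupp.single x' 1 →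
        e.erase x + Finsupp.single x' (e x) ∈ N) := by
  classical
  have hex := fun u => exists_gin_part σ b u (part b u I) (part_le b u I)
  choose D Nf hD0 hNsub hNcard hDN hBorel using hex
  have hDN' : ∀ u, ∀ a : PIdx b → K, (matOf b a).det ≠ 0 → eval a (D u) ≠ 0 →
      LMI σ (I.map (linSubst (matOf b a))) ∩ Mset b u = Nf u := by
    intro u a hdet ha
    have hmem := matOf_mem_BlockGL hdet
    rw [LMI_inter (isMultigraded_map hmem hI), part_map hmem hI]
    exact hDN u a hdet ha
  let N : Set (X →₀ ℕ) := {e | e ∈ Nf (mdeg b e)}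
  have hNmem : ∀ e, e ∈ N ↔ e ∈ Nf (mdeg b e) := fun _ => Iff.rfl
  have hNinter : ∀ u, N ∩ Mset b u = Nf u := by
    intro u
    ext e
    constructor
    · rintro ⟨h1, h2⟩
      rw [hNmem, show mdeg b e = u from h2] at h1
      exact h1
    · intro h
      have h2 : mdeg b e = u := hNsub u h
      refine ⟨?_, h2⟩
      rw [hNmem, h2]
      exact h
  clear_value N
  have hGfin : {e | Minimal (· ∈ N) e}.Finite :=
    (setOfPred_minimal_antichain _).finite_of_partiallyWellOrderedOn
      (Set.isPWO_of_wellQuasiOrderedLE _)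
  refine ⟨∏ g ∈ hGfin.toFinset, D (mdeg b g), N, ?_, ?_, ?_⟩
  · exact Finset.prod_ne_zero_iff.2 (fun g _ => hD0 _)
  · intro a hdet ha
    rw [map_prod] at ha
    have ha' := Finset.prod_ne_zero_iff.1 ha
    have hmem := matOf_mem_BlockGL hdet
    have hsub : N ⊆ LMI σ (I.map (linSubst (matOf b a))) := by
      intro e he
      obtain ⟨g, hge, hg⟩ := exists_minimal_le_of_wellFoundedLT (· ∈ N) e he
      have hgN : g ∈ N := hg.prop
      have h1 := hDN' _ a hdet (ha' g (by simpa using hg))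
      have h2 : g ∈ Nf (mdeg b g) := (hNmem g).1 hgN
      rw [← h1] at h2
      exact LMI_upper h2.1 hge
    apply Set.Subset.antisymm _ hsub
    intro e he
    have h2 : N ∩ Mset b (mdeg b e) =
        LMI σ (I.map (linSubst (matOf b a))) ∩ Mset b (mdeg b e) := by
      apply Set.eq_of_subset_of_ncard_le
      · exact Set.inter_subset_inter_left _ hsub
      · rw [hNinter, ncard_LMI (isMultigraded_map hmem hI), part_map hmem hI, finrank_act hdet,
          hNcard]
      · exact (finite_Mset b _).subset Set.inter_subset_right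
    have h3 : e ∈ LMI σ (I.map (linSubst (matOf b a))) ∩ Mset b (mdeg b e) := ⟨he, rfl⟩
    rw [← h2] at h3
    exact h3.1
  · intro e he x x' hb hlt
    have hm := mdeg_move hb e
    rw [hNmem] at he ⊢
    rw [hm]
    exact hBorel _ e he x x' hb hlt

end map

end Pool.Agent.CS
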