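import Pool.Agent.Lib.MP_293f2a_ag.Part7

namespace Pool.Agent.CS

variable {X ι ρ : Type*}

/-! ### Combinatorics of Borel fixed sets of exponents -/

/-- `B` is closed under moving the full exponent of a variable to a bigger one. -/
def BorelSet (b : X → ι) (κ : X → ℕ) (B : Set (X →₀ ℕ)) : Prop :=
  ∀ e ∈ B, ∀ x x' : X, b x = b x' → κ x < κ x' → e.erase x + Finsupp.single x' (e x) ∈ B

/-- `B` is radical -/
def RadSet (B : Set (X →₀ ℕ)) : Prop := ∀ e : X →₀ ℕ, ∀ k : ℕ, k ≠ 0 → k • e ∈ B → e ∈ B

/-- `κ` is injective on blocks -/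
def InjBlocks (b : X → ι) (κ : X → ℕ) : Prop := ∀ x x' : X, b x = b x' → κ x = κ x' → x = x'

theorem move_apply_self {x x' : X} (hx : x ≠ x') (e : X →₀ ℕ) :
    (e.erase x + Finsupp.single x' (e x)) x = 0 := by
  classical
  simp [hx.symm]

theorem dom_mem [DecidableEq X] {b : X → ι} {κ : X → ℕ} (hκ : InjBlocks b κ)
    {B : Set (X →₀ ℕ)} (hU : IsUpperSet B) (hR : RadSet B) (hB : BorelSet b κ B)
    {m m' : X →₀ ℕ} (hm : m ∈ B)
    (hdom : ∀ x ∈ m.support, ∃ x' ∈ m'.support, b x = b x' ∧ κ x ≤ κ x') : m' ∈ B := by
  induction hn : (m.support \ m'.support).card using Nat.strong_induction_on generalizing m with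
  | _ n ih =>
    by_cases hsub : m.support ⊆ m'.support
    · apply hR m' (∑ x ∈ m.support, m x + 1) (Nat.succ_ne_zero _)
      apply hU _ hm
      intro x
      by_cases hx : x ∈ m.support
      · rw [Finsupp.smul_apply, smul_eq_mul]
        have h1 : m x ≤ ∑ x ∈ m.support, m x := Finset.single_le_sum (fun _ _ => Nat.zero_le _) hx
        have h2 : 1 ≤ m' x := Nat.one_le_iff_ne_zero.2 (Finsupp.mem_support_iff.1 (hsub hx))
        nlinarith
      · rw [Finsupp.notMem_support_iff.1 hx]; exact Nat.zero_le _
    · obtain ⟨x, hx, hx'⟩ := Finset.not_subset.1 hsub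
      obtain ⟨y, hy, hbxy, hκxy⟩ := hdom x hx
      have hxy : x ≠ y := by
        rintro rfl
        exact hx' hy
      have hlt : κ x < κ y := lt_of_le_of_ne hκxy (fun h => hxy (hκ x y hbxy h))
      have hm1 := hB m hm x y hbxy hlt
      have hsupp : ∀ z, z ∈ (m.erase x + Finsupp.single y (m x)).support →
          z = y ∨ (z ∈ m.support ∧ z ≠ x) := by
        intro z hz
        by_cases hzy : z = y
        · exact Or.inl hzy
        · right
          by_cases hzx : z = x
          · rw [hzx, Finsupp.mem_support_iff, move_apply_self hxy] at hz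
            exact absurd rfl hz
          · refine ⟨?_, hzx⟩
            rw [Finsupp.mem_support_iff, Finsupp.add_apply, Finsupp.erase_ne hzx,
              Finsupp.single_apply, if_neg (Ne.symm hzy), add_zero] at hz
            exact Finsupp.mem_support_iff.2 hz
      apply ih _ _ hm1 _ rfl
      · rw [← hn]
        apply Finset.card_lt_card
        rw [Finset.ssubset_iff_subset_ne]
        constructor
        · intro z hz
          rw [Finset.mem_sdiff] at hz ⊢
          rcases hsupp z hz.1 with h | h
          · rw [h] at hz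
            exact absurd hy hz.2
          · exact ⟨h.1, hz.2⟩
        · intro heq
          have : x ∈ m.support \ m'.support := Finset.mem_sdiff.2 ⟨hx, hx'⟩
          rw [← heq, Finset.mem_sdiff, Finsupp.mem_support_iff, move_apply_self hxy] at this
          exact this.1 rfl
      · intro z hz
        rcases hsupp z hz with h | h
        · exact ⟨y, hy, by rw [h], by rw [h]⟩
        · exact hdom z h.1

/-- indicator exponent vectors -/
noncomputable def ind [Finite X] [DecidableEq X] (W : Finset X) (k : ℕ) : X →₀ ℕ :=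
  Finsupp.equivFunOnFinite.symm (fun x => if x ∈ W then k else 0)

theorem ind_apply [Finite X] [DecidableEq X] (W : Finset X) (k : ℕ) (x : X) :
    ind W k x = if x ∈ W then k else 0 := rfl

theorem smul_ind [Finite X] [DecidableEq X] (W : Finset X) (k l : ℕ) :
    l • ind W k = ind W (l * k) := by
  ext x
  rw [Finsupp.smul_apply, ind_apply, ind_apply, smul_eq_mul]
  split_ifs <;> simp

theorem move_ind [Finite X] [DecidableEq X] {b : X → ι} {κ : X → ℕ} (hκ : InjBlocks b κ)
    {J : Set (X →₀ ℕ)} (hU : IsUpperSet J) (hJ : BorelSet b κ J)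
    {W W' : Finset X} (hW : Set.InjOn b (W : Set X)) {k : ℕ} (hm : ind W k ∈ J)
    (hdom : ∀ x ∈ W, ∃ x' ∈ W', b x = b x' ∧ κ x ≤ κ x') : ind W' k ∈ J := by
  induction hn : (W \ W').card using Nat.strong_induction_on generalizing W with
  | _ n ih =>
    by_cases hsub : W ⊆ W'
    · apply hU _ hm
      intro x
      rw [ind_apply, ind_apply]
      by_cases hx : x ∈ W
      · rw [if_pos hx, if_pos (hsub hx)]
      · rw [if_neg hx]; exact Nat.zero_le _
    · obtain ⟨x, hx, hx'⟩ := Finset.not_subset.1 hsub
      obtain ⟨y, hy, hbxy, hκxy⟩ := hdom x hx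
      have hxy : x ≠ y := by
        rintro rfl
        exact hx' hy
      have hyW : y ∉ W := fun h => hxy (hW hx h hbxy)
      have hlt : κ x < κ y := lt_of_le_of_ne hκxy (fun h => hxy (hκ x y hbxy h))
      have hm1 := hJ _ hm x y hbxy hlt
      have heq : (ind W k).erase x + Finsupp.single y (ind W k x) =
          ind (insert y (W.erase x)) k := by
        ext z
        rw [Finsupp.add_apply, ind_apply, ind_apply, if_pos hx, Finsupp.single_apply]
        by_cases hzx : z = x
        · subst hzx
          rw [Finsupp.erase_same, if_neg hxy.symm]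
          simp [hxy]
        · rw [Finsupp.erase_ne hzx, ind_apply]
          by_cases hzy : y = z
          · subst hzy
            simp [hyW]
          · rw [if_neg hzy, add_zero]
            simp [hzx, Ne.symm hzy]
      rw [heq] at hm1
      apply ih _ _ _ hm1 _ rfl
      · rw [← hn]
        apply Finset.card_lt_card
        rw [Finset.ssubset_iff_subset_ne]
        constructor
        · intro z hz
          rw [Finset.mem_sdiff, Finset.mem_insert, Finset.mem_erase] at hz
          rw [Finset.mem_sdiff]
          rcases hz.1 with h | h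
          · rw [h] at hz
            exact absurd hy hz.2
          · exact ⟨h.2, hz.2⟩
        · intro heq
          have : x ∈ W \ W' := Finset.mem_sdiff.2 ⟨hx, hx'⟩
          rw [← heq, Finset.mem_sdiff, Finset.mem_insert, Finset.mem_erase] at this
          rcases this.1 with h | h
          · exact hxy h
          · exact h.1 rfl
      · intro z hz w hw hzw
        rw [Finset.mem_coe, Finset.mem_insert, Finset.mem_erase] at hz hw
        rcases hz with hz | hz <;> rcases hw with hw | hw
        · rw [hz, hw]
        · rw [hz, ← hbxy] at hzw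
          exact absurd (hW hx hw.2 hzw).symm hw.1
        · rw [hw, ← hbxy] at hzw
          exact absurd (hW hz.2 hx hzw) hz.1
        · exact hW hz.2 hw.2 hzw
      · intro z hz
        rw [Finset.mem_insert, Finset.mem_erase] at hz
        rcases hz with h | h
        · exact ⟨y, hy, by rw [h], by rw [h]⟩
        · exact hdom z h.2

/-! ### Degrees and pigeonhole -/

theorem mdeg_apply [Fintype X] [DecidableEq ι] (b : X → ι) (e : X →₀ ℕ) (j : ι) :
    mdeg b e j = ∑ x ∈ Finset.univ.filter (fun x => b x = j), e x := by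
  classical
  rw [mdeg, Finsupp.mapDomain, Finsupp.sum_apply, Finsupp.sum_fintype]
  · rw [Finset.sum_filter]
    apply Finset.sum_congr rfl
    intro x _
    rw [Finsupp.single_apply]
  · intro x; simp

theorem pigeon [Fintype X] (b : X → ι) (e : X →₀ ℕ) (j : ι) (k : ℕ)
    (h : Fintype.card X * k < mdeg b e j) : ∃ x, b x = j ∧ k ≤ e x ∧ e x ≠ 0 := by
  classical
  by_contra hcon
  push Not at hcon
  rw [mdeg_apply] at h
  have : ∑ x ∈ Finset.univ.filter (fun x => b x = j), e x ≤ Fintype.card X * k := by
    calc ∑ x ∈ Finset.univ.filter (fun x => b x = j), e x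
        ≤ ∑ x ∈ Finset.univ.filter (fun x => b x = j), k := by
          apply Finset.sum_le_sum
          intro x hx
          rw [Finset.mem_filter] at hx
          by_contra hlt
          push Not at hlt
          have := hcon x hx.2 hlt.le
          omega
      _ = (Finset.univ.filter (fun x => b x = j)).card * k := by
          rw [Finset.sum_const, smul_eq_mul]
      _ ≤ Fintype.card X * k := Nat.mul_le_mul_right _ (Finset.card_le_univ _)
  omega

/-- A common bound for the exponents of the minimal generators. -/
theorem exists_bound [Finite X] (J : Set (X →₀ ℕ)) :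
    ∃ c : ℕ, ∀ e ∈ J, ∃ g ∈ J, g ≤ e ∧ ∀ x, g x ≤ c := by
  classical
  have := Fintype.ofFinite X
  have hGfin : {e | Minimal (· ∈ J) e}.Finite :=
    (setOfPred_minimal_antichain _).finite_of_partiallyWellOrderedOn
      (Set.isPWO_of_wellQuasiOrderedLE _)
  refine ⟨∑ g ∈ hGfin.toFinset, ∑ x, g x, ?_⟩
  intro e he
  obtain ⟨g, hge, hg⟩ := exists_minimal_le_of_wellFoundedLT (· ∈ J) e he
  refine ⟨g, hg.prop, hge, ?_⟩
  intro x
  calc g x ≤ ∑ x, g x := Finset.single_le_sum (fun _ _ => Nat.zero_le _) (Finset.mem_univ x)
    _ ≤ _ := Finset.single_le_sum (f := fun g : X →₀ ℕ => ∑ x, g x)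
        (fun _ _ => Nat.zero_le _) (by simpa using hg)

/-- exponents of degree `u` in the variables of `Y` -/
def MY (b : X → ι) (Y : Finset X) (u : ι →₀ ℕ) : Set (X →₀ ℕ) :=
  {e | mdeg b e = u ∧ e.support ⊆ Y}

theorem finite_MY [Finite X] (b : X → ι) (Y : Finset X) (u : ι →₀ ℕ) : (MY b Y u).Finite :=
  (finite_Mset b u).subset (fun _ he => he.1)

/-- Multiplication by the smallest variable of a block is injective modulo `J` in large
degrees. -/
theorem nzd [Fintype X] [DecidableEq X] {b : X → ι} {κ : X → ℕ} (hκ : InjBlocks b κ)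
    {J : Set (X →₀ ℕ)} (hU : IsUpperSet J) (hJ : BorelSet b κ J)
    {Y : Finset X} {z : X} (hz : ∀ y ∈ Y, b y = b z → κ z ≤ κ y) :
    ∃ C : ℕ, ∀ u : ι →₀ ℕ, C ≤ u (b z) → ∀ e ∈ MY b Y u, e + Finsupp.single z 1 ∈ J → e ∈ J := by
  obtain ⟨c, hc⟩ := exists_bound J
  refine ⟨Fintype.card X * (2 * c) + 1, ?_⟩
  intro u hu e he hez
  obtain ⟨g, hg, hge, hgc⟩ := hc _ hez
  have hdeg : Fintype.card X * (2 * c) < mdeg b e (b z) := by
    rw [he.1]; omega
  obtain ⟨x, hbx, hx, hx0⟩ := pigeon b e (b z) (2 * c) hdeg
  by_cases hxz : x = z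
  · subst hxz
    apply hU _ hg
    intro y
    by_cases hyx : y = x
    · subst hyx
      have := hgc y
      omega
    · have := hge y
      rw [Finsupp.add_apply, Finsupp.single_apply, if_neg (Ne.symm hyx), add_zero] at this
      exact this
  · have hxY : x ∈ Y := he.2 (Finsupp.mem_support_iff.2 hx0)
    have hlt : κ z < κ x :=
      lt_of_le_of_ne (hz x hxY hbx) (fun h => hxz (hκ x z hbx h.symm))
    have hg' := hJ g hg z x hbx.symm hlt
    apply hU _ hg'
    intro y
    rw [Finsupp.add_apply, Finsupp.single_apply]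
    by_cases hyz : y = z
    · subst hyz
      rw [Finsupp.erase_same, if_neg hxz]
      exact Nat.zero_le _
    · rw [Finsupp.erase_ne hyz]
      by_cases hyx : x = y
      · subst hyx
        rw [if_pos rfl]
        have h1 := hgc x
        have h2 := hgc z
        omega
      · rw [if_neg hyx, add_zero]
        have := hge y
        rw [Finsupp.add_apply, Finsupp.single_apply, if_neg (Ne.symm hyz), add_zero] at this
        exact this

end Pool.Agent.CS
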