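import Pool.Agent.Lib.MP_293f2a_ag.Part8

namespace Pool.Agent.CS

variable {X ι ρ : Type*}

theorem split_count [Fintype X] [DecidableEq X] {b : X → ι} {J : Set (X →₀ ℕ)}
    (hU : IsUpperSet J) {Y : Finset X} {z : X} (hzY : z ∈ Y) (u : ι →₀ ℕ)
    (hnzd : ∀ e ∈ MY b Y u, e + Finsupp.single z 1 ∈ J → e ∈ J) :
    (J ∩ MY b Y (u + Finsupp.single (b z) 1)).ncard =
      (J ∩ MY b (Y.erase z) (u + Finsupp.single (b z) 1)).ncard + (J ∩ MY b Y u).ncard := by
  classical
  have hset : J ∩ MY b Y (u + Finsupp.single (b z) 1) =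
      (J ∩ MY b (Y.erase z) (u + Finsupp.single (b z) 1)) ∪
        (fun e => e + Finsupp.single z 1) '' (J ∩ MY b Y u) := by
    ext e
    constructor
    · rintro ⟨he1, he2, he3⟩
      by_cases hz : e z = 0
      · left
        refine ⟨he1, he2, ?_⟩
        intro x hx
        refine Finset.mem_erase.2 ⟨?_, he3 hx⟩
        rintro rfl
        exact (Finsupp.mem_support_iff.1 hx) hz
      · right
        have hle : Finsupp.single z 1 ≤ e := by
          rw [Finsupp.single_le_iff]
          omega
        obtain ⟨d, hd⟩ := exists_add_of_le hle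
        have hde : d + Finsupp.single z 1 = e := by rw [hd, add_comm]
        have hdM : d ∈ MY b Y u := by
          refine ⟨?_, ?_⟩
          · have h1 := he2
            rw [← hde, mdeg_add, mdeg_single] at h1
            exact add_right_cancel h1
          · intro x hx
            apply he3
            rw [Finsupp.mem_support_iff] at hx ⊢
            rw [← hde, Finsupp.add_apply]
            omega
        refine ⟨d, ⟨hnzd d hdM (by rw [hde]; exact he1), hdM⟩, hde⟩
    · rintro (⟨he1, he2, he3⟩ | ⟨d, ⟨hd1, hd2, hd3⟩, rfl⟩)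
      · exact ⟨he1, he2, fun x hx => Finset.mem_of_mem_erase (he3 hx)⟩
      · refine ⟨hU (le_add_right le_rfl) hd1, ?_, ?_⟩
        · show mdeg b (d + Finsupp.single z 1) = _
          rw [mdeg_add, mdeg_single, hd2]
        · intro x hx
          rw [Finsupp.mem_support_iff] at hx
          by_cases hxz : z = x
          · rw [← hxz]; exact hzY
          · simp only [Finsupp.add_apply, Finsupp.single_apply, if_neg hxz, add_zero] at hx
            exact hd3 (Finsupp.mem_support_iff.2 hx)
  have hf1 : (J ∩ MY b (Y.erase z) (u + Finsupp.single (b z) 1)).Finite :=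
    (finite_MY b _ _).subset Set.inter_subset_right
  have hf2 : ((fun e => e + Finsupp.single z 1) '' (J ∩ MY b Y u)).Finite :=
    ((finite_MY b _ _).subset Set.inter_subset_right).image _
  rw [hset, Set.ncard_union_eq _ hf1 hf2]
  · congr 1
    exact Set.ncard_image_of_injective _ (fun a b h => add_right_cancel h)
  · rw [Set.disjoint_left]
    rintro e ⟨_, _, he⟩ ⟨d, _, rfl⟩
    have : z ∈ (d + Finsupp.single z 1).support := by
      rw [Finsupp.mem_support_iff, Finsupp.add_apply, Finsupp.single_eq_same]
      omega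
    exact (Finset.mem_erase.1 (he this)).1 rfl

/-- degrees whose support is the set of blocks of `W`, and which are large there -/
def Large (b : X → ι) (W : Finset X) (C : ℕ) (u : ι →₀ ℕ) : Prop :=
  (∀ x ∈ W, C ≤ u (b x)) ∧ ∀ j, u j ≠ 0 → ∃ x ∈ W, b x = j

theorem mdeg_ind [Fintype X] [DecidableEq X] {b : X → ι} {W : Finset X}
    (hW : Set.InjOn b (W : Set X)) (k : ℕ) {x : X} (hx : x ∈ W) :
    mdeg b (ind W k) (b x) = k := by
  classical
  rw [mdeg_apply, Finset.sum_eq_single x]
  · rw [ind_apply, if_pos hx]
  · intro y hy hyx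
    rw [Finset.mem_filter] at hy
    rw [ind_apply, if_neg]
    intro hyW
    exact hyx (hW hyW hx hy.2)
  · intro h
    exact absurd (Finset.mem_filter.2 ⟨Finset.mem_univ x, (rfl : b x = b x)⟩) h

theorem mdeg_ind_support [Fintype X] [DecidableEq X] {b : X → ι} {W : Finset X}
    (k : ℕ) {j : ι} (h : mdeg b (ind W k) j ≠ 0) : ∃ x ∈ W, b x = j := by
  classical
  rw [mdeg_apply] at h
  obtain ⟨x, hx, hne⟩ := Finset.exists_ne_zero_of_sum_ne_zero h
  rw [Finset.mem_filter] at hx
  rw [ind_apply] at hne
  split_ifs at hne with hxW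
  · exact ⟨x, hxW, hx.2⟩
  · exact absurd rfl hne

/-- The key step in the uniqueness theorem. -/
theorem core [Fintype X] [DecidableEq X] {b : X → ι} {κ : X → ℕ} (hκ : InjBlocks b κ)
    {J B : Set (X →₀ ℕ)} (hUJ : IsUpperSet J) (hJ : BorelSet b κ J)
    (hUB : IsUpperSet B) (hB : BorelSet b κ B) (hR : RadSet B)
    {W : Finset X} (hW : Set.InjOn b (W : Set X)) {k : ℕ} (hmem : ind W k ∈ J)
    (Y : Finset X) (hWY : W ⊆ Y)
    (hY : ∃ C : ℕ, ∀ u : ι →₀ ℕ, Large b W C u →
      (J ∩ MY b Y u).ncard = (B ∩ MY b Y u).ncard) :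
    ind W 1 ∈ B := by
  classical
  induction hn : Y.card using Nat.strong_induction_on generalizing Y with
  | _ n ih =>
    obtain ⟨C, hC⟩ := hY
    by_cases hmin : ∀ x ∈ W, ∀ y ∈ Y, b y = b x → κ x ≤ κ y
    · -- all elements of `W` are smallest in their blocks
      set k' := C + Fintype.card X * k + 1 with hk'
      have hk'0 : k' ≠ 0 := by omega
      have hlarge : Large b W C (mdeg b (ind W k')) := by
        refine ⟨?_, ?_⟩
        · intro x hx
          rw [mdeg_ind hW k' hx]
          omega
        · intro j hj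
          exact mdeg_ind_support k' hj
      have hfull : J ∩ MY b Y (mdeg b (ind W k')) = MY b Y (mdeg b (ind W k')) := by
        apply Set.inter_eq_right.2
        intro e he
        -- `e` is in `J`
        have h1 : ind (Y.filter (fun y => k ≤ e y)) k ∈ J := by
          apply move_ind hκ hUJ hJ hW hmem
          intro x hx
          have hdeg : Fintype.card X * k < mdeg b e (b x) := by
            rw [he.1, mdeg_ind hW k' hx]
            omega
          obtain ⟨y, hby, hky, hy0⟩ := pigeon b e (b x) k hdeg
          have hyY : y ∈ Y := he.2 (Finsupp.mem_support_iff.2 hy0)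
          exact ⟨y, Finset.mem_filter.2 ⟨hyY, hky⟩, hby.symm, hmin x hx y hyY hby⟩
        apply hUJ _ h1
        intro x
        rw [ind_apply]
        split_ifs with h
        · exact (Finset.mem_filter.1 h).2
        · exact Nat.zero_le _
      have hcount := hC _ hlarge
      rw [hfull] at hcount
      have hBfull : B ∩ MY b Y (mdeg b (ind W k')) = MY b Y (mdeg b (ind W k')) := by
        apply Set.eq_of_subset_of_ncard_le Set.inter_subset_right _ (finite_MY b _ _)
        rw [hcount]
      have hmem' : ind W k' ∈ MY b Y (mdeg b (ind W k')) := by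
        refine ⟨rfl, ?_⟩
        intro x hx
        apply hWY
        rw [Finsupp.mem_support_iff, ind_apply] at hx
        by_contra h
        rw [if_neg h] at hx
        exact hx rfl
      rw [← hBfull] at hmem'
      apply hR _ k' hk'0
      rw [smul_ind, mul_one]
      exact hmem'.1
    · push Not at hmin
      obtain ⟨x0, hx0, y0, hy0, hby0, hκ0⟩ := hmin
      -- the smallest element of the block in `Y`
      obtain ⟨z, hz, hzmin⟩ := Finset.exists_min_image (Y.filter (fun y => b y = b x0)) κ
        ⟨y0, Finset.mem_filter.2 ⟨hy0, hby0⟩⟩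
      rw [Finset.mem_filter] at hz
      have hzW : z ∉ W := by
        intro h
        have := hW h hx0 hz.2
        rw [this] at hzmin
        have := hzmin y0 (Finset.mem_filter.2 ⟨hy0, hby0⟩)
        omega
      have hzmin' : ∀ y ∈ Y, b y = b z → κ z ≤ κ y := by
        intro y hy hby
        exact hzmin y (Finset.mem_filter.2 ⟨hy, by rw [hby, hz.2]⟩)
      obtain ⟨C1, hC1⟩ := nzd hκ hUJ hJ hzmin'
      obtain ⟨C2, hC2⟩ := nzd hκ hUB hB hzmin'
      have hWY' : W ⊆ Y.erase z := by
        intro x hx
        refine Finset.mem_erase.2 ⟨?_, hWY hx⟩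
        rintro rfl
        exact hzW hx
      refine ih _ ?_ (Y.erase z) hWY' ⟨C + C1 + C2 + 1, ?_⟩ rfl
      · rw [← hn]
        exact Finset.card_erase_lt_of_mem hz.1
      · intro u hu
        have hzu : C + C1 + C2 + 1 ≤ u (b z) := by
          rw [hz.2]; exact hu.1 x0 hx0
        have hle : Finsupp.single (b z) 1 ≤ u := by
          rw [Finsupp.single_le_iff]; omega
        obtain ⟨v, hv⟩ := exists_add_of_le hle
        rw [add_comm] at hv
        subst hv
        rw [Finsupp.add_apply, Finsupp.single_eq_same] at hzu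
        have hlv : Large b W C v := by
          refine ⟨?_, ?_⟩
          · intro x hx
            have := hu.1 x hx
            rw [Finsupp.add_apply, Finsupp.single_apply] at this
            split_ifs at this <;> omega
          · intro j hj
            apply hu.2 j
            rw [Finsupp.add_apply]
            omega
        have hlu : Large b W C (v + Finsupp.single (b z) 1) :=
          ⟨fun x hx => le_trans (by omega) (hu.1 x hx), hu.2⟩
        have s1 := split_count hUJ hz.1 v (hC1 v (by omega))
        have s2 := split_count hUB hz.1 v (hC2 v (by omega))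
        have e1 := hC _ hlu
        have e2 := hC _ hlv
        omega

/-- Uniqueness: a Borel fixed set with the Hilbert function of a radical Borel fixed set `B`
is equal to `B`. -/
theorem borel_unique [Fintype X] [DecidableEq X] {b : X → ι} {κ : X → ℕ} (hκ : InjBlocks b κ)
    {J B : Set (X →₀ ℕ)} (hUJ : IsUpperSet J) (hJ : BorelSet b κ J)
    (hUB : IsUpperSet B) (hB : BorelSet b κ B) (hR : RadSet B)
    (h : ∀ u : ι →₀ ℕ, (J ∩ Mset b u).ncard = (B ∩ Mset b u).ncard) : J = B := by
  classical
  have hsub : J ⊆ B := by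
    intro m hm
    -- the largest variables of the blocks in the support of `m`
    let W : Finset X := m.support.filter
      (fun x => ∀ y ∈ m.support, b y = b x → κ y ≤ κ x)
    have hWinj : Set.InjOn b (W : Set X) := by
      intro x hx y hy hxy
      rw [Finset.mem_coe, Finset.mem_filter] at hx hy
      exact hκ x y hxy (le_antisymm (hy.2 x hx.1 hxy) (hx.2 y hy.1 hxy.symm))
    -- the radical of `J`
    have hRU : IsUpperSet {e : X →₀ ℕ | ∃ k : ℕ, k ≠ 0 ∧ k • e ∈ J} := by
      rintro e e' hee' ⟨k, hk, hke⟩
      exact ⟨k, hk, hUJ (nsmul_le_nsmul_right hee' k) hke⟩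
    have hRR : RadSet {e : X →₀ ℕ | ∃ k : ℕ, k ≠ 0 ∧ k • e ∈ J} := by
      rintro e l hl ⟨k, hk, hke⟩
      refine ⟨k * l, mul_ne_zero hk hl, ?_⟩
      rwa [mul_smul]
    have hRB : BorelSet b κ {e : X →₀ ℕ | ∃ k : ℕ, k ≠ 0 ∧ k • e ∈ J} := by
      rintro e ⟨k, hk, hke⟩ x x' hb hlt
      refine ⟨k, hk, ?_⟩
      have h1 := hJ _ hke x x' hb hlt
      have h2 : k • (e.erase x + Finsupp.single x' (e x)) =
          (k • e).erase x + Finsupp.single x' ((k • e) x) := by
        ext y
        by_cases hy : y = x
        · subst hy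
          simp [Finsupp.single_apply]
        · simp [Finsupp.erase_ne hy, Finsupp.single_apply]
      rw [h2]
      exact h1
    have hWmem : ind W 1 ∈ {e : X →₀ ℕ | ∃ k : ℕ, k ≠ 0 ∧ k • e ∈ J} := by
      apply dom_mem hκ hRU hRR hRB (m := m) ⟨1, one_ne_zero, by rwa [one_smul]⟩
      intro x hx
      obtain ⟨y, hy, hymax⟩ := Finset.exists_max_image (m.support.filter (fun y => b y = b x)) κ
        ⟨x, Finset.mem_filter.2 ⟨hx, rfl⟩⟩
      rw [Finset.mem_filter] at hy
      refine ⟨y, ?_, hy.2.symm, hymax x (Finset.mem_filter.2 ⟨hx, rfl⟩)⟩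
      rw [Finsupp.mem_support_iff, ind_apply, if_pos]
      · exact one_ne_zero
      · refine Finset.mem_filter.2 ⟨hy.1, ?_⟩
        intro w hw hbw
        exact hymax w (Finset.mem_filter.2 ⟨hw, by rw [hbw, hy.2]⟩)
    obtain ⟨k, hk, hkW⟩ := hWmem
    rw [smul_ind, mul_one] at hkW
    have hWB : ind W 1 ∈ B := by
      apply core hκ hUJ hJ hUB hB hR hWinj hkW Finset.univ (Finset.subset_univ _)
      refine ⟨0, fun u _ => ?_⟩
      have hMY : MY b Finset.univ u = Mset b u := by
        ext e
        constructor
        · exact fun he => he.1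
        · exact fun he => ⟨he, Finset.subset_univ _⟩
      rw [hMY]
      exact h u
    apply hUB _ hWB
    intro x
    rw [ind_apply]
    split_ifs with hx
    · have := (Finset.mem_filter.1 hx).1
      exact Nat.one_le_iff_ne_zero.2 (Finsupp.mem_support_iff.1 this)
    · exact Nat.zero_le _
  apply Set.Subset.antisymm hsub
  intro e he
  have h1 : J ∩ Mset b (mdeg b e) = B ∩ Mset b (mdeg b e) := by
    apply Set.eq_of_subset_of_ncard_le
    · exact Set.inter_subset_inter_left _ hsub
    · rw [h]
    · exact (finite_Mset b _).subset Set.inter_subset_right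
  have h2 : e ∈ B ∩ Mset b (mdeg b e) := ⟨he, rfl⟩
  rw [← h1] at h2
  exact h2.1

end Pool.Agent.CS
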